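import Pool.Agent.TH204.WR.W7

/-!
One window of natural numbers.
-/

set_option autoImplicit false

namespace Pool.Agent.TH204.WR

open Finset Polynomial
open Pool.Agent.H373R2.T7 (pz Vz lamz mem_pz Vz_ge)
open Pool.Agent.TH892.SW (fl_set abel_anti abel_mono wt wt_nonneg wt_anti wt_le ff ffn lamz_nonneg Vz_pos)

/-- the value -/
def vN (F : ℤ[X]) (t : ℤ) (n : ℕ) : ℕ := (F.eval (n : ℤ) + t).natAbs

open Classical in
lemma lam_sum (F : ℤ[X]) (t : ℤ) (z a n : ℕ) (han : a ≤ n) :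
    ∑ i ∈ Ioc a n, lamz z (vN F t i) = (Vz z)⁻¹ *
      ((((Icc 1 (n - a)).filter (fun s : ℕ => ∀ p ∈ pz z, ¬ (p : ℤ) ∣ F.eval ((a : ℤ) + s) + t)).card : ℕ) : ℝ) := by
  have h1 : ∑ i ∈ Ioc a n, lamz z (vN F t i) = ∑ s ∈ Icc 1 (n - a), lamz z (vN F t (a + s)) := by
    refine sum_nbij' (fun i => i - a) (fun s => a + s) ?_ ?_ ?_ ?_ ?_
    · intro i hi
      rw [mem_Ioc] at hi; rw [mem_Icc]; omega
    · intro s hs
      rw [mem_Icc] at hs; rw [mem_Ioc]; omega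
    · intro i hi
      rw [mem_Ioc] at hi; omega
    · intro s hs
      omega
    · intro i hi
      rw [mem_Ioc] at hi
      show lamz z (vN F t i) = lamz z (vN F t (a + (i - a)))
      rw [show a + (i - a) = i by omega]
  rw [h1, card_filter]
  push_cast
  rw [mul_sum]
  refine sum_congr rfl fun s _ => ?_
  unfold lamz
  have h3 : ∀ p : ℕ, (p ∣ vN F t (a + s)) ↔ ((p : ℤ) ∣ F.eval ((a : ℤ) + s) + t) := by
    intro p
    unfold vN
    rw [← Int.natCast_dvd]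
    push_cast
    rfl
  have h2 : (∀ p ∈ pz z, ¬ p ∣ vN F t (a + s)) ↔ (∀ p ∈ pz z, ¬ (p : ℤ) ∣ F.eval ((a : ℤ) + s) + t) := by
    constructor
    · intro h p hp hd
      exact h p hp ((h3 p).2 hd)
    · intro h p hp hd
      exact h p hp ((h3 p).1 hd)
  by_cases h4 : ∀ p ∈ pz z, ¬ p ∣ vN F t (a + s)
  · rw [if_pos h4, if_pos (h2.1 h4), mul_one]
  · rw [if_neg h4, if_neg (fun h => h4 (h2.2 h)), mul_zero]

/-- the model on short and long intervals -/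
theorem model (d : ℕ) (hd : 1 ≤ d) : ∃ C1 y0 : ℕ, 1 ≤ C1 ∧ 2 ≤ y0 ∧ ∀ (F : ℤ[X]) (t : ℤ), F.natDegree ≤ d →
    ∀ b : ℕ, C1 ≤ b → ∀ z : ℕ, y0 ≤ z → (∀ p ∈ pz z, rho F t p < p) → ∀ a n : ℕ, a ≤ n →
    |∑ i ∈ Ioc a n, (lamz z (vN F t i) - hh F t z)| ≤
      2 * (1 / 2 : ℝ) ^ b * hh F t z * ((n : ℝ) - a) + 3 * (z : ℝ) ^ (C1 * b) * hh F t z := by
  classical
  obtain ⟨C1, y0, hC1, hy0, h⟩ := flp d hd
  refine ⟨C1, y0, hC1, hy0, fun F t hF b hb z hz hrho a n han => ?_⟩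
  have hz1 : 1 ≤ z := by omega
  have hV := Vz_pos hz1
  have hH := hh_nonneg F t z hz1
  have hbig : ∀ c : ℕ, z ^ (C1 * b) ≤ c →
      |∑ i ∈ Ioc a (a + c), lamz z (vN F t i) - c * hh F t z| ≤ 2 * (1 / 2 : ℝ) ^ b * hh F t z * c := by
    intro c hc
    have h1 := h F t hF b hb z hz hrho c hc a
    rw [lam_sum F t z a (a + c) (by omega), Nat.add_sub_cancel_left]
    unfold hh
    set W := ∏ p ∈ pz z, (1 - (rho F t p : ℝ) / p)
    set cd : ℝ := ((((Icc 1 c).filter (fun s : ℕ => ∀ p ∈ pz z, ¬ (p : ℤ) ∣ F.eval ((a : ℤ) + s) + t)).card : ℕ) : ℝ)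
    have e : (Vz z)⁻¹ * cd - c * ((Vz z)⁻¹ * W) = (Vz z)⁻¹ * (cd - c * W) := by ring
    rw [e, abs_mul, abs_of_pos (inv_pos.2 hV)]
    calc (Vz z)⁻¹ * |cd - c * W| ≤ (Vz z)⁻¹ * (2 * (1 / 2 : ℝ) ^ b * (c * W)) :=
          mul_le_mul_of_nonneg_left h1 (inv_nonneg.2 hV.le)
      _ = _ := by ring
  rw [sum_sub_distrib, sum_const, Nat.card_Ioc, nsmul_eq_mul, Nat.cast_sub han]
  have h2b : 0 ≤ (1 / 2 : ℝ) ^ b := by positivity
  have h2b1 : (1 / 2 : ℝ) ^ b ≤ 1 / 2 := by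
    calc (1 / 2 : ℝ) ^ b ≤ (1 / 2 : ℝ) ^ 1 := pow_le_pow_of_le_one (by norm_num) (by norm_num) (by omega)
      _ = 1 / 2 := pow_one _
  have hna : (0 : ℝ) ≤ (n : ℝ) - a := by
    rw [sub_nonneg]; exact_mod_cast han
  have hzp : (0 : ℝ) ≤ (z : ℝ) ^ (C1 * b) := by positivity
  rcases Nat.lt_or_ge (n - a) (z ^ (C1 * b)) with hlt | hge
  · have h1 := hbig (z ^ (C1 * b)) le_rfl
    set c := z ^ (C1 * b) with hc
    have hcr : (c : ℝ) = (z : ℝ) ^ (C1 * b) := by rw [hc]; push_cast; rfl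
    have h2 : ∑ i ∈ Ioc a n, lamz z (vN F t i) ≤ ∑ i ∈ Ioc a (a + c), lamz z (vN F t i) := by
      apply sum_le_sum_of_subset_of_nonneg
      · intro i hi
        rw [mem_Ioc] at hi ⊢
        omega
      · intro i _ _
        exact lamz_nonneg z _ hz1
    have h3 : 0 ≤ ∑ i ∈ Ioc a n, lamz z (vN F t i) := sum_nonneg fun i _ => lamz_nonneg z _ hz1
    have h4 := (abs_le.1 h1).2
    have h5 : ((n : ℝ) - a) ≤ c := by
      have : ((n - a : ℕ) : ℝ) ≤ c := by exact_mod_cast hlt.le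
      rwa [Nat.cast_sub han] at this
    have h6 : ((n : ℝ) - a) * hh F t z ≤ c * hh F t z := mul_le_mul_of_nonneg_right h5 hH
    have h7 : 0 ≤ ((n : ℝ) - a) * hh F t z := mul_nonneg hna hH
    have h8 : 2 * (1 / 2 : ℝ) ^ b * hh F t z * c ≤ c * hh F t z := by
      have h9 : 2 * (1 / 2 : ℝ) ^ b * (hh F t z * c) ≤ 1 * (hh F t z * c) := by
        apply mul_le_mul_of_nonneg_right (by linarith)
        apply mul_nonneg hH (by rw [hcr]; exact hzp)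
      linarith
    have h9 : 0 ≤ 2 * (1 / 2 : ℝ) ^ b * hh F t z * ((n : ℝ) - a) := by positivity
    have h10 : 0 ≤ (c : ℝ) * hh F t z := mul_nonneg (by rw [hcr]; exact hzp) hH
    rw [abs_le]
    rw [← hcr]
    constructor <;> linarith
  · have h1 := hbig (n - a) hge
    rw [show a + (n - a) = n by omega, Nat.cast_sub han] at h1
    have : 0 ≤ 3 * (z : ℝ) ^ (C1 * b) * hh F t z := by positivity
    linarith

/-- the difference function at a value -/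
lemma ff_eq (F : ℤ[X]) (t : ℤ) (z n : ℕ) (h : 2 ≤ F.eval (n : ℤ) + t) :
    ff z (F.eval (n : ℤ) + t) = (if (vN F t n).Prime then 1 else 0) - lamz z (vN F t n) * wt (vN F t n) := by
  unfold ff
  rw [if_pos h]
  have h1 : (F.eval (n : ℤ) + t).toNat = vN F t n := by
    unfold vN
    omega
  rw [h1]
  rfl

/-- one window -/
theorem one_win (d : ℕ) (hd : 1 ≤ d) : ∃ C1 y0 : ℕ, 1 ≤ C1 ∧ 2 ≤ y0 ∧ ∀ (F : ℤ[X]) (t : ℤ), F.natDegree ≤ d →
    ∀ b : ℕ, C1 ≤ b → ∀ z : ℕ, y0 ≤ z → (∀ p ∈ pz z, rho F t p < p) →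
    ∀ (σ : ℤ) (N0 g : ℕ), (σ = 1 ∨ σ = -1) → 1 ≤ g → Gap (fun n => F.eval (n : ℤ)) σ N0 g →
    ∀ n1 n2 : ℕ, N0 ≤ n1 → 1 ≤ n1 → n1 ≤ n2 → (∀ i ∈ Icc n1 n2, 2 ≤ F.eval (i : ℤ) + t) →
    |(((Icc n1 n2).filter (fun i => (vN F t i).Prime)).card : ℝ) - hh F t z * ∑ i ∈ Icc n1 n2, wt (vN F t i)| ≤
      |∑ i ∈ Icc n1 n2, ff z (F.eval (i : ℤ) + t)| +
      2 * (1 / 2 : ℝ) ^ b * hh F t z * ∑ i ∈ Icc n1 n2, wt (vN F t i) + 9 * (z : ℝ) ^ (C1 * b) * hh F t z := by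
  obtain ⟨C1, y0, hC1, hy0, h⟩ := model d hd
  refine ⟨C1, y0, hC1, hy0, fun F t hF b hb z hz hrho σ N0 g hσ hg hG n1 n2 h01 h1 h12 hv => ?_⟩
  have hH := hh_nonneg F t z (by omega)
  obtain ⟨m, rfl⟩ : ∃ m, n1 = m + 1 := ⟨n1 - 1, by omega⟩
  have hI : Icc (m + 1) n2 = Ioc m n2 := by
    ext i; rw [mem_Icc, mem_Ioc]; omega
  rw [hI] at hv ⊢
  obtain ⟨δ, hδ⟩ : ∃ δ : ℝ, δ = 2 * (1 / 2 : ℝ) ^ b * hh F t z := ⟨_, rfl⟩
  obtain ⟨R, hR⟩ : ∃ R : ℝ, R = 3 * (z : ℝ) ^ (C1 * b) * hh F t z := ⟨_, rfl⟩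
  have hδ0 : 0 ≤ δ := by rw [hδ]; positivity
  have hR0 : 0 ≤ R := by rw [hR]; positivity
  have hvn : ∀ i, m < i → i ≤ n2 → 2 ≤ vN F t i ∧ (vN F t i : ℤ) = F.eval (i : ℤ) + t := by
    intro i hi hi2
    have h3 := hv i (mem_Ioc.2 ⟨hi, hi2⟩)
    unfold vN
    constructor <;> omega
  have hw32 : ∀ i, m < i → i ≤ n2 → wt (vN F t i) ≤ 3 / 2 := fun i hi hi2 => wt_le (hvn i hi hi2).1
  have hmodel : |∑ i ∈ Ioc m n2, wt (vN F t i) * (lamz z (vN F t i) - hh F t z)| ≤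
      δ * ∑ i ∈ Ioc m n2, wt (vN F t i) + 3 / 2 * R := by
    rcases hσ with hs | hs
    · refine (abel_anti (fun i => wt (vN F t i)) (fun i => lamz z (vN F t i) - hh F t z) m n2 (by omega)
        (fun i => wt_nonneg _) ?_ δ R hδ0 hR0 (fun i h2 _ => by
          rw [hδ, hR]
          exact h F t hF b hb z hz hrho m i h2)).trans ?_
      · intro i h2 h3
        apply wt_anti (hvn i h2 (by omega)).1
        have h4 := gap_mono _ σ N0 g hg hG i (i + 1) (by omega) (by omega)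
        rw [hs, one_mul, one_mul] at h4
        have h5 := (hvn i h2 (by omega)).2
        have h6 := (hvn (i + 1) (by omega) (by omega)).2
        omega
      · have := mul_le_mul_of_nonneg_left (hw32 (m + 1) (by omega) (by omega)) hR0
        linarith
    · refine (abel_mono (fun i => wt (vN F t i)) (fun i => lamz z (vN F t i) - hh F t z) m n2 (by omega)
        (fun i => wt_nonneg _) ?_ δ R hδ0 hR0 (fun i _ h2 => by
          rw [hδ, hR]
          exact h F t hF b hb z hz hrho i n2 h2)).trans ?_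
      · intro i h2 h3
        apply wt_anti (hvn (i + 1) (by omega) (by omega)).1
        have h4 := gap_mono _ σ N0 g hg hG i (i + 1) (by omega) (by omega)
        rw [hs] at h4
        have h5 := (hvn i h2 (by omega)).2
        have h6 := (hvn (i + 1) (by omega) (by omega)).2
        omega
      · have := mul_le_mul_of_nonneg_left (hw32 n2 (by omega) le_rfl) hR0
        linarith
  have e : (((Ioc m n2).filter (fun i => (vN F t i).Prime)).card : ℝ) - hh F t z * ∑ i ∈ Ioc m n2, wt (vN F t i) =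
      ∑ i ∈ Ioc m n2, ff z (F.eval (i : ℤ) + t) + ∑ i ∈ Ioc m n2, wt (vN F t i) * (lamz z (vN F t i) - hh F t z) := by
    rw [← sum_add_distrib, card_filter]
    push_cast
    rw [mul_sum, ← sum_sub_distrib]
    refine sum_congr rfl fun i hi => ?_
    rw [ff_eq F t z i (hv i hi)]
    ring
  rw [e]
  refine (abs_add_le _ _).trans ?_
  rw [← hδ]
  have e2 : 9 * (z : ℝ) ^ (C1 * b) * hh F t z = 3 * R := by rw [hR]; ring
  rw [e2]
  linarith

end Pool.Agent.TH204.WR
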