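import Pool.Agent.TH892.SW.S1

/-!
Second moment over `k` of the sums of a function at the numbers `G n + k`, in terms of its
autocorrelations.
-/

set_option autoImplicit false

namespace Pool.Agent.TH204.WR

open Finset
open Pool.Agent.W110.HV (cor cor_sq ES)
open Pool.Agent.TH892.SW (rc rc_cor rc_zero rc_big div_sq)

/-- the function `f` restricted to `[1,Y]` -/
noncomputable def cutf (Y : ℕ) (f : ℤ → ℝ) (x : ℤ) : ℝ := if 1 ≤ x ∧ x ≤ Y then f x else 0

/-- the sum of `f` at the values `G n + k` in `[1,Y]` -/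
noncomputable def TT (G : ℕ → ℤ) (N0 M Y : ℕ) (f : ℤ → ℝ) (k : ℤ) : ℝ :=
  ∑ n ∈ Icc N0 M, cutf Y f (G n + k)

lemma cutf_in {Y : ℕ} {f : ℤ → ℝ} {x : ℤ} (h : x ∈ Icc (1 : ℤ) Y) : cutf Y f x = f x := by
  unfold cutf
  rw [if_pos (mem_Icc.1 h)]

lemma cutf_out {Y : ℕ} {f : ℤ → ℝ} {x : ℤ} (h : x ∉ Icc (1 : ℤ) Y) : cutf Y f x = 0 := by
  unfold cutf
  rw [if_neg (fun h' => h (mem_Icc.2 h'))]

lemma rc_eq (Y : ℕ) (f : ℤ → ℝ) (h : ℤ) :
    rc Y f h = ∑ v ∈ Icc (1 : ℤ) Y, cutf Y f v * cutf Y f (v + h) := by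
  unfold rc
  rw [sum_comm]
  refine sum_congr rfl fun v hv => ?_
  rw [← sum_filter, cutf_in hv]
  by_cases hc : v + h ∈ Icc (1 : ℤ) Y
  · have : (Icc (1 : ℤ) Y).filter (fun u => u - v = h) = {v + h} := by
      ext u
      rw [mem_filter, mem_singleton]
      constructor
      · rintro ⟨_, h⟩; omega
      · rintro rfl; exact ⟨hc, by omega⟩
    rw [this, sum_singleton, cutf_in hc]
    ring
  · rw [cutf_out hc, mul_zero]
    apply sum_eq_zero
    intro u hu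
    rw [mem_filter] at hu
    exfalso
    apply hc
    have : v + h = u := by omega
    rw [this]
    exact hu.1

lemma rc_neg (Y : ℕ) (f : ℤ → ℝ) (h : ℤ) : rc Y f (-h) = rc Y f h := by
  unfold rc
  rw [sum_comm]
  refine sum_congr rfl fun u _ => sum_congr rfl fun v _ => ?_
  by_cases hc : u - v = h
  · rw [if_pos hc, if_pos (by omega), mul_comm]
  · rw [if_neg hc, if_neg (by omega)]

lemma sum_shift (F : ℤ → ℝ) (a Kb : ℤ) :
    ∑ k ∈ Icc (-Kb) Kb, F (a + k) = ∑ v ∈ Icc (a - Kb) (a + Kb), F v := by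
  refine sum_nbij' (fun k => a + k) (fun v => v - a) ?_ ?_ ?_ ?_ ?_
  · intro k hk
    rw [mem_Icc] at hk ⊢
    constructor <;> omega
  · intro v hv
    rw [mem_Icc] at hv ⊢
    constructor <;> omega
  · intro k _; ring
  · intro v _; ring
  · intro k _; rfl

/-- one pair -/
lemma pair_sum (Y : ℕ) (f : ℤ → ℝ) (a b Kb : ℤ) (ha : |a| + Y ≤ Kb) :
    ∑ k ∈ Icc (-Kb) Kb, cutf Y f (a + k) * cutf Y f (b + k) = rc Y f (b - a) := by
  have e1 : ∀ k : ℤ, cutf Y f (a + k) * cutf Y f (b + k) =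
      (fun v => cutf Y f v * cutf Y f (v + (b - a))) (a + k) := by
    intro k
    simp only
    congr 2
    ring
  simp_rw [e1]
  rw [sum_shift (fun v => cutf Y f v * cutf Y f (v + (b - a))), rc_eq]
  symm
  apply sum_subset
  · intro v hv
    rw [mem_Icc] at hv ⊢
    have h1 := neg_abs_le a
    have h2 := le_abs_self a
    constructor <;> omega
  · intro v _ hv
    rw [cutf_out hv, zero_mul]

lemma energy (G : ℕ → ℤ) (N0 M Y : ℕ) (f : ℤ → ℝ) (Kb : ℤ) (hK : ∀ n ∈ Icc N0 M, |G n| + Y ≤ Kb) :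
    ∑ k ∈ Icc (-Kb) Kb, TT G N0 M Y f k ^ 2 =
      ∑ n ∈ Icc N0 M, ∑ n' ∈ Icc N0 M, rc Y f (G n' - G n) := by
  have e1 : ∀ k : ℤ, TT G N0 M Y f k ^ 2 = ∑ n ∈ Icc N0 M, ∑ n' ∈ Icc N0 M,
      cutf Y f (G n + k) * cutf Y f (G n' + k) := by
    intro k
    unfold TT
    rw [sq, sum_mul_sum]
  simp_rw [e1]
  rw [sum_comm]
  refine sum_congr rfl fun n hn => ?_
  rw [sum_comm]
  refine sum_congr rfl fun n' _ => ?_
  exact pair_sum Y f (G n) (G n') Kb (hK n hn)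

/-- a symmetric double sum by differences -/
lemma symm_sum (a : ℕ → ℕ → ℝ) (ha : ∀ n n', a n n' = a n' n) (N0 M : ℕ) :
    ∑ n ∈ Icc N0 M, ∑ n' ∈ Icc N0 M, a n n' =
      ∑ n ∈ Icc N0 M, a n n + 2 * ∑ δ ∈ Icc 1 M, ∑ n ∈ Icc N0 (M - δ), a n (n + δ) := by
  classical
  set I := Icc N0 M with hI
  have h0 : ∑ n ∈ I, ∑ n' ∈ I, a n n' = ∑ p ∈ I ×ˢ I, a p.1 p.2 := by rw [sum_product]
  have h1 : ∑ p ∈ (I ×ˢ I).filter (fun p => p.1 < p.2), a p.1 p.2 =
      ∑ δ ∈ Icc 1 M, ∑ n ∈ Icc N0 (M - δ), a n (n + δ) := by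
    rw [sum_sigma']
    refine sum_nbij' (fun p => ⟨p.2 - p.1, p.1⟩) (fun q => (q.2, q.2 + q.1)) ?_ ?_ ?_ ?_ ?_
    · intro p hp
      rw [mem_filter, mem_product, hI, mem_Icc, mem_Icc] at hp
      rw [mem_sigma, mem_Icc, mem_Icc]
      dsimp only
      omega
    · intro q hq
      rw [mem_sigma, mem_Icc, mem_Icc] at hq
      rw [mem_filter, mem_product, hI, mem_Icc, mem_Icc]
      dsimp only
      omega
    · intro p hp
      rw [mem_filter] at hp
      apply Prod.ext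
      · rfl
      · dsimp only; omega
    · intro q hq
      obtain ⟨δ, n⟩ := q
      dsimp only
      congr 1
      omega
    · intro p hp
      rw [mem_filter] at hp
      dsimp only
      congr 1
      omega
  have h2 : ∑ p ∈ (I ×ˢ I).filter (fun p => p.2 < p.1), a p.1 p.2 =
      ∑ p ∈ (I ×ˢ I).filter (fun p => p.1 < p.2), a p.1 p.2 := by
    refine sum_nbij' (fun p => (p.2, p.1)) (fun p => (p.2, p.1)) ?_ ?_ ?_ ?_ ?_
    · intro p hp
      rw [mem_filter, mem_product] at hp ⊢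
      exact ⟨⟨hp.1.2, hp.1.1⟩, hp.2⟩
    · intro p hp
      rw [mem_filter, mem_product] at hp ⊢
      exact ⟨⟨hp.1.2, hp.1.1⟩, hp.2⟩
    · intro p _; rfl
    · intro p _; rfl
    · intro p _; exact ha _ _
  have h3 : ∑ p ∈ (I ×ˢ I).filter (fun p => p.1 = p.2), a p.1 p.2 = ∑ n ∈ I, a n n := by
    refine sum_nbij' (fun p => p.1) (fun n => (n, n)) ?_ ?_ ?_ ?_ ?_
    · intro p hp
      rw [mem_filter, mem_product] at hp
      exact hp.1.1
    · intro n hn
      rw [mem_filter, mem_product]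
      exact ⟨⟨hn, hn⟩, rfl⟩
    · intro p hp
      rw [mem_filter] at hp
      exact Prod.ext rfl hp.2
    · intro n _; rfl
    · intro p hp
      rw [mem_filter] at hp
      rw [hp.2]
  have h4 : ∑ p ∈ I ×ˢ I, a p.1 p.2 = ∑ p ∈ (I ×ˢ I).filter (fun p => p.1 = p.2), a p.1 p.2 +
      (∑ p ∈ (I ×ˢ I).filter (fun p => p.1 < p.2), a p.1 p.2 +
        ∑ p ∈ (I ×ˢ I).filter (fun p => p.2 < p.1), a p.1 p.2) := by
    rw [← sum_filter_add_sum_filter_not (I ×ˢ I) (fun p => p.1 = p.2)]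
    congr 1
    rw [← sum_filter_add_sum_filter_not ((I ×ˢ I).filter (fun p => ¬ p.1 = p.2)) (fun p => p.1 < p.2),
      filter_filter, filter_filter]
    congr 1
    · apply sum_congr _ fun _ _ => rfl
      apply filter_congr
      intro p _
      constructor
      · rintro ⟨_, h⟩; exact h
      · intro h; exact ⟨by omega, h⟩
    · apply sum_congr _ fun _ _ => rfl
      apply filter_congr
      intro p _
      constructor
      · rintro ⟨h, h'⟩; omega
      · intro h; exact ⟨by omega, by omega⟩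
  rw [h0, h4, h3, h2, h1]
  ring

/-- the second moment by differences -/
theorem second_diff (G : ℕ → ℤ) (N0 M Y : ℕ) (f : ℤ → ℝ) (I : Finset ℤ) :
    ∑ k ∈ I, TT G N0 M Y f k ^ 2 ≤
      ((M : ℝ) + 1) * rc Y f 0 + 2 * ∑ δ ∈ Icc 1 M, ∑ n ∈ Icc N0 (M - δ), rc Y f (G (n + δ) - G n) := by
  classical
  obtain ⟨Kb, hK1, hK2⟩ : ∃ Kb : ℤ, (∀ n ∈ Icc N0 M, |G n| + Y ≤ Kb) ∧ I ⊆ Icc (-Kb) Kb := by
    refine ⟨∑ n ∈ Icc N0 M, |G n| + Y + ∑ k ∈ I, |k|, ?_, ?_⟩
    · intro n hn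
      have h1 := single_le_sum (f := fun n => |G n|) (fun i _ => abs_nonneg _) hn
      have h2 : 0 ≤ ∑ k ∈ I, |k| := sum_nonneg fun _ _ => abs_nonneg _
      linarith
    · intro k hk
      have h1 := single_le_sum (f := fun k : ℤ => |k|) (fun i _ => abs_nonneg _) hk
      have h2 : 0 ≤ ∑ n ∈ Icc N0 M, |G n| := sum_nonneg fun _ _ => abs_nonneg _
      have h3 : (0 : ℤ) ≤ Y := Int.natCast_nonneg Y
      rw [mem_Icc, ← abs_le]
      linarith
  have h1 : ∑ k ∈ I, TT G N0 M Y f k ^ 2 ≤ ∑ k ∈ Icc (-Kb) Kb, TT G N0 M Y f k ^ 2 :=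
    sum_le_sum_of_subset_of_nonneg hK2 fun _ _ _ => sq_nonneg _
  refine h1.trans ?_
  rw [energy G N0 M Y f Kb hK1, symm_sum (fun n n' => rc Y f (G n' - G n))]
  · have h2 : ∑ n ∈ Icc N0 M, rc Y f (G n - G n) ≤ ((M : ℝ) + 1) * rc Y f 0 := by
      simp only [sub_self]
      rw [sum_const, nsmul_eq_mul]
      apply mul_le_mul_of_nonneg_right
      · have : #(Icc N0 M) ≤ M + 1 := by rw [Nat.card_Icc]; omega
        exact_mod_cast this
      · rw [rc_zero]
        exact sum_nonneg fun _ _ => sq_nonneg _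
    linarith
  · intro n n'
    rw [← rc_neg]
    congr 1
    ring

end Pool.Agent.TH204.WR
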