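import Pool.Agent.TH204.WR.W9

/-!
All windows of integers for one shift `t`.
-/

set_option autoImplicit false

namespace Pool.Agent.TH204.WR

open Finset Polynomial
open Pool.Agent.H373R2.T7 (pz Vz lamz mem_pz Vz_ge)
open Pool.Agent.TH892.SW (gr wt wt_nonneg wt_anti wt_le ff ffn lamz_nonneg Vz_pos)

/-- the difference function in a window -/
lemma G_bound (k C B c1 e : ℕ) (G : ℕ → ℤ) (σ : ℤ) (hσ : σ = 1 ∨ σ = -1) (N0 M x z : ℕ) (t : ℤ) (S L H : ℝ)
    (hL : 100 ≤ L) (hS1 : 1 ≤ S) (hSx : S ^ (k + 1) = x) (hN0 : S / L ^ c1 ≤ N0) (hN01 : 1 ≤ N0)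
    (hG : Gap G σ N0 (N0 ^ k)) (hff : ∀ y, |ff z y| ≤ 3 * L) (hHS : H ≤ S * L ^ (C + 1))
    (hHB : L ^ (B + c1 * k + e + 2) ≤ H)
    (hT : ∀ j : ℕ, S ^ k * L ^ B ≤ gr (L ^ (C + c1 * k + e + 2)) j →
      (gr (L ^ (C + c1 * k + e + 2)) j : ℝ) ≤ x * L ^ (2 * C + 1) →
      |TT G N0 M (gr (L ^ (C + c1 * k + e + 2)) j) (ff z) t| ≤
        gr (L ^ (C + c1 * k + e + 2)) j * (1 / (S ^ k * L ^ (C + e + 1))))
    (n1 n2 : ℕ) (h01 : N0 ≤ n1) (h12 : n1 ≤ n2) (h2M : n2 ≤ M) (hv1 : 1 ≤ G n1 + t) (hv2 : 1 ≤ G n2 + t)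
    (hV1 : ((G n1 + t : ℤ) : ℝ) ≤ H * (S ^ k * L ^ C)) (hV2 : ((G n2 + t : ℤ) : ℝ) ≤ H * (S ^ k * L ^ C)) :
    |∑ n ∈ Icc n1 n2, ff z (G n + t)| ≤ H / L ^ e := by
  have hL0 : 0 < L := by linarith
  have hL1 : 1 ≤ L := by linarith
  have hLp0 : ∀ n : ℕ, 0 < L ^ n := fun n => by positivity
  have hLp : ∀ n : ℕ, 1 ≤ L ^ n := fun n => one_le_pow₀ hL1
  have hS0 : 0 < S := by linarith
  have hSk0 : 0 < S ^ k := by positivity
  have hSk1 : 1 ≤ S ^ k := one_le_pow₀ hS1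
  have hH1 : 1 ≤ H := (hLp _).trans hHB
  have hH0 : 0 < H := by linarith
  have hg1 : 1 ≤ N0 ^ k := Nat.one_le_pow _ _ hN01
  have hgr : (1 : ℝ) ≤ ((N0 ^ k : ℕ) : ℝ) := by exact_mod_cast hg1
  have hgS : S ^ k / L ^ (c1 * k) ≤ ((N0 ^ k : ℕ) : ℝ) := by
    push_cast
    calc S ^ k / L ^ (c1 * k) = (S / L ^ c1) ^ k := by rw [div_pow, ← pow_mul]
      _ ≤ (N0 : ℝ) ^ k := pow_le_pow_left₀ (by positivity) hN0 k
  have hγ : 2 ≤ L ^ (C + c1 * k + e + 2) := by
    have : L ≤ L ^ (C + c1 * k + e + 2) := le_self_pow₀ hL1 (by omega)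
    linarith
  have hVmax : H * (S ^ k * L ^ C) ≤ x * L ^ (2 * C + 1) := by
    calc H * (S ^ k * L ^ C) ≤ (S * L ^ (C + 1)) * (S ^ k * L ^ C) := by gcongr
      _ = S ^ (k + 1) * L ^ (2 * C + 1) := by ring
      _ = x * L ^ (2 * C + 1) := by rw [hSx]
  have h1 := window_all G σ hσ N0 (N0 ^ k) hg1 hG M (ff z) t (3 * L) (L ^ (C + c1 * k + e + 2))
    (1 / (S ^ k * L ^ (C + e + 1))) (S ^ k * L ^ B) (x * L ^ (2 * C + 1)) hff hγ (by positivity)
    (one_le_mul_of_one_le_of_one_le hSk1 (hLp B)) hT n1 n2 h01 h12 h2M hv1 hv2 (H * (S ^ k * L ^ C)) hV1 hV2 hVmax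
  refine h1.trans ?_
  obtain ⟨g, hg⟩ : ∃ g : ℝ, g = ((N0 ^ k : ℕ) : ℝ) := ⟨_, rfl⟩
  rw [← hg] at hgr hgS ⊢
  have hg0 : 0 < g := by linarith
  have hginv : 1 / g ≤ L ^ (c1 * k) / S ^ k := by
    rw [div_le_div_iff₀ hg0 hSk0, one_mul]
    rw [div_le_iff₀ (hLp0 _)] at hgS
    linarith
  have t1 : H * (S ^ k * L ^ C) * (1 / (S ^ k * L ^ (C + e + 1))) = H / L ^ (e + 1) := by
    rw [show C + e + 1 = C + (e + 1) by ring, pow_add]
    have := (hLp0 C).ne'
    field_simp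
  have t2 : 3 * L * ((H * (S ^ k * L ^ C) / (L ^ (C + c1 * k + e + 2)) ^ 2 + 1) / g + 1) ≤ 3 * (H / L ^ (e + 1)) + 6 * L := by
    have e1 : 3 * L * ((H * (S ^ k * L ^ C) / (L ^ (C + c1 * k + e + 2)) ^ 2 + 1) / g + 1) =
        3 * L * (H * (S ^ k * L ^ C) / (L ^ (C + c1 * k + e + 2)) ^ 2 * (1 / g)) + 3 * L * (1 / g) + 3 * L := by
      field_simp
    rw [e1]
    have h2 : H * (S ^ k * L ^ C) / (L ^ (C + c1 * k + e + 2)) ^ 2 * (1 / g) ≤ H / L ^ (e + 2) := by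
      calc H * (S ^ k * L ^ C) / (L ^ (C + c1 * k + e + 2)) ^ 2 * (1 / g)
          ≤ H * (S ^ k * L ^ C) / (L ^ (C + c1 * k + e + 2)) ^ 2 * (L ^ (c1 * k) / S ^ k) := by gcongr
        _ = H * (L ^ (C + c1 * k) / (L ^ (C + c1 * k + e + 2)) ^ 2) := by rw [pow_add L C]; field_simp
        _ = H * (1 / (L ^ (C + c1 * k + e + 2) * L ^ (e + 2))) := by
            congr 1
            rw [show C + c1 * k + e + 2 = (C + c1 * k) + (e + 2) by ring, pow_add L (C + c1 * k)]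
            have := (hLp0 (C + c1 * k)).ne'
            field_simp
        _ ≤ H * (1 / L ^ (e + 2)) := by
            apply mul_le_mul_of_nonneg_left _ hH0.le
            apply one_div_le_one_div_of_le (hLp0 _)
            exact le_mul_of_one_le_left (hLp0 _).le (hLp _)
        _ = H / L ^ (e + 2) := by ring
    have h3 : 3 * L * (H / L ^ (e + 2)) = 3 * (H / L ^ (e + 1)) := by
      rw [show e + 2 = (e + 1) + 1 by ring, pow_succ L (e + 1)]
      have := (hLp0 (e + 1)).ne'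
      field_simp
    have h4 : 1 / g ≤ 1 := by rw [div_le_one hg0]; exact hgr
    have h5 := mul_le_mul_of_nonneg_left h2 (show 0 ≤ 3 * L by positivity)
    have h6 := mul_le_mul_of_nonneg_left h4 (show 0 ≤ 3 * L by positivity)
    linarith
  have t3 : 3 * L * ((2 * (S ^ k * L ^ B) + 2) / g + 1) ≤ 15 * (H / L ^ (e + 1)) := by
    have h2 : (2 * (S ^ k * L ^ B) + 2) / g ≤ 4 * L ^ (B + c1 * k) := by
      have h3 : 1 ≤ S ^ k * L ^ B := one_le_mul_of_one_le_of_one_le hSk1 (hLp B)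
      calc (2 * (S ^ k * L ^ B) + 2) / g = (2 * (S ^ k * L ^ B) + 2) * (1 / g) := by ring
        _ ≤ (4 * (S ^ k * L ^ B)) * (L ^ (c1 * k) / S ^ k) := by
            apply mul_le_mul (by linarith) hginv (by positivity) (by positivity)
        _ = 4 * L ^ (B + c1 * k) := by rw [pow_add]; field_simp
    have h3 : L * L ^ (B + c1 * k) ≤ H / L ^ (e + 1) := by
      rw [le_div_iff₀ (hLp0 _)]
      calc L * L ^ (B + c1 * k) * L ^ (e + 1) = L ^ (B + c1 * k + e + 2) := by ring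
        _ ≤ H := hHB
    have h4 : L ≤ L * L ^ (B + c1 * k) := le_mul_of_one_le_right hL0.le (hLp _)
    have h5 := mul_le_mul_of_nonneg_left h2 (show 0 ≤ 3 * L by positivity)
    have h6 : 3 * L * (4 * L ^ (B + c1 * k)) = 12 * (L * L ^ (B + c1 * k)) := by ring
    have h7 : 3 * L * ((2 * (S ^ k * L ^ B) + 2) / g + 1) = 3 * L * ((2 * (S ^ k * L ^ B) + 2) / g) + 3 * L := by ring
    rw [h7]
    linarith
  have t4 : 6 * L ≤ 6 * (H / L ^ (e + 1)) := by
    have h3 : L ≤ H / L ^ (e + 1) := by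
      rw [le_div_iff₀ (hLp0 _)]
      calc L * L ^ (e + 1) = L ^ (e + 2) := by ring
        _ ≤ L ^ (B + c1 * k + e + 2) := pow_le_pow_right₀ hL1 (by omega)
        _ ≤ H := hHB
    linarith
  have t5 : 50 * (H / L ^ (e + 1)) ≤ H / L ^ e := by
    rw [pow_succ L e]
    have h3 : H / L ^ e = L * (H / (L ^ e * L)) := by
      have := (hLp0 e).ne'
      field_simp
    rw [h3]
    apply mul_le_mul_of_nonneg_right (by linarith) (by positivity)
  rw [t1]
  linarith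

/-- **All windows for one shift.** -/
theorem window_t (d : ℕ) (hd : 1 ≤ d) : ∃ C1 y0 : ℕ, 1 ≤ C1 ∧ 2 ≤ y0 ∧
    ∀ (k C U B c1 e nP A : ℕ) (F : ℤ[X]) (σ₁ σ₂ : ℤ) (N0 M x z b : ℕ) (t : ℤ) (S L Z : ℝ),
    1 ≤ k → F.natDegree = k + 1 → k + 1 ≤ d → e = U + 2 * k + 5 → c1 = C + U + e + 4 →
    (∀ m : ℤ, (nP : ℤ) ≤ |m| → |m| ^ (k + 1) ≤ 2 * |F.eval m|) →
    (∀ m : ℤ, |F.eval m| ≤ A * (|m| ^ (k + 1) + 1)) →
    (σ₁ = 1 ∨ σ₁ = -1) → (σ₂ = 1 ∨ σ₂ = -1) →
    Gap (fun n => F.eval (n : ℤ)) σ₁ N0 (N0 ^ k) → Gap (fun n => (F.comp (-X)).eval (n : ℤ)) σ₂ N0 (N0 ^ k) →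
    N0 = ⌈S / L ^ c1⌉₊ → M = ⌊S * L ^ (2 * C + 2)⌋₊ →
    L = Real.log x → S ^ (k + 1) = x → 100 + (4 : ℝ) ^ (k + 2) + A * 2 ^ (k + 4) + 4 * nP ≤ L → L ^ (c1 + 2 * C + 4) ≤ S →
    (∀ y, |ff z y| ≤ 3 * L) →
    (∀ G : ℕ → ℤ, (G = (fun n : ℕ => F.eval (n : ℤ)) ∨ G = (fun n : ℕ => (F.comp (-X)).eval (n : ℤ))) →
      ∀ j : ℕ, S ^ k * L ^ B ≤ gr (L ^ (C + c1 * k + e + 2)) j →
      (gr (L ^ (C + c1 * k + e + 2)) j : ℝ) ≤ x * L ^ (2 * C + 1) →
      |TT G N0 M (gr (L ^ (C + c1 * k + e + 2)) j) (ff z) t| ≤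
        gr (L ^ (C + c1 * k + e + 2)) j * (1 / (S ^ k * L ^ (C + e + 1)))) →
    |t| ≤ x → (x : ℝ) / L ^ (U + 2) < |(t : ℝ)| →
    C1 ≤ b → y0 ≤ z → (∀ p ∈ pz z, rho F t p < p) → hh F t z ≤ L → 1 / L ^ (2 * k + 3) ≤ hh F t z →
    (z : ℝ) ^ (C1 * b) ≤ Z →
    ∀ a₁ b₁ : ℤ, L ^ (B + c1 * k + e + 2) ≤ (b₁ : ℝ) - a₁ → Z * L ^ (U + 2) ≤ (b₁ : ℝ) - a₁ →
    (∀ m ∈ Ioc a₁ b₁, 2 ≤ F.eval m + t ∧ ((F.eval m + t : ℤ) : ℝ) ≤ ((b₁ : ℝ) - a₁) * (S ^ k * L ^ C)) →
    |(#((Ioc a₁ b₁).filter (fun m => (F.eval m + t).natAbs.Prime)) : ℝ) -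
        hh F t z * ∑ m ∈ Ioc a₁ b₁, wt (F.eval m + t).natAbs| ≤
      (2 * (1 / 2) ^ b + 1 / L ^ U) * (hh F t z * ∑ m ∈ Ioc a₁ b₁, wt (F.eval m + t).natAbs) := by
  classical
  obtain ⟨C1, y0, hC1, hy0, hone⟩ := one_win d hd
  refine ⟨C1, y0, hC1, hy0, ?_⟩
  intro k C U B c1 e nP A F σ₁ σ₂ N0 M x z b t S L Z hk hF hkd he hc1 hgr1 hgr2 hσ₁ hσ₂ hG1 hG2 hN0 hM hLx hSx hL hLS
    hff hT ht1 ht2 hb hz hrho hhL hhlow hZ a b' hHB hHZ hv
  obtain ⟨H, hHd⟩ : ∃ H : ℝ, H = (b' : ℝ) - a := ⟨_, rfl⟩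
  rw [← hHd] at hHB hHZ hv
  have hA0 : (0 : ℝ) ≤ A * 2 ^ (k + 4) := by positivity
  have hnP0 : (0 : ℝ) ≤ nP := Nat.cast_nonneg _
  have h4k : (0 : ℝ) < 4 ^ (k + 2) := by positivity
  have hL100 : 100 ≤ L := by linarith
  have hL0 : 0 < L := by linarith
  have hL1 : 1 ≤ L := by linarith
  have hLp0 : ∀ n : ℕ, 0 < L ^ n := fun n => by positivity
  have hLp : ∀ n : ℕ, 1 ≤ L ^ n := fun n => one_le_pow₀ hL1
  have hLL : ∀ {i j : ℕ}, i ≤ j → L ^ i ≤ L ^ j := fun h => pow_le_pow_right₀ hL1 h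
  have hLSS : L ≤ S := by
    have : L ≤ L ^ (c1 + 2 * C + 4) := le_self_pow₀ hL1 (by omega)
    linarith
  have hS1 : 1 ≤ S := by linarith
  have hS0 : 0 < S := by linarith
  have hSk0 : 0 < S ^ k := by positivity
  have hx0 : (0 : ℝ) < x := by rw [← hSx]; positivity
  have hSlex : S ≤ x := by rw [← hSx]; exact le_self_pow₀ hS1 (by omega)
  have hH1 : 1 ≤ H := (hLp _).trans hHB
  have hHL : L ^ 2 ≤ H := (hLL (by omega)).trans hHB
  have hH0 : 0 < H := by linarith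
  have hN0r : S / L ^ c1 ≤ N0 := by rw [hN0]; exact Nat.le_ceil _
  have hSLc : 1 ≤ S / L ^ c1 := by
    rw [one_le_div (hLp0 _)]
    exact (hLL (by omega)).trans hLS
  have hN0r2 : (N0 : ℝ) ≤ 2 * (S / L ^ c1) := by
    have := Nat.ceil_lt_add_one (show 0 ≤ S / L ^ c1 by positivity)
    rw [← hN0] at this
    linarith
  have hN01 : 1 ≤ N0 := by
    have : (1 : ℝ) ≤ N0 := by linarith
    exact_mod_cast this
  have hg1 : 1 ≤ N0 ^ k := Nat.one_le_pow _ _ hN01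
  -- sizes
  obtain ⟨hHS, hmS⟩ := size_window k C hk F nP hgr1 x S L hSx hS1 (by linarith) (by linarith) t ht1 a b'
    (by rw [← hHd]; have : L ≤ L ^ 2 := le_self_pow₀ hL1 (by norm_num); linarith) (by rw [← hHd]; exact hv)
  rw [← hHd] at hHS
  have hmM : ∀ m ∈ Ioc a b', m.natAbs ≤ M := by
    intro m hm
    rw [hM]
    apply Nat.le_floor
    have h := hmS m hm
    rw [Int.abs_eq_natAbs, Int.cast_natCast] at h
    exact h
  have hhpos : 0 < hh F t z := lt_of_lt_of_le (by positivity) hhlow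
  -- the function
  obtain ⟨h, hhd⟩ : ∃ h, h = hh F t z := ⟨_, rfl⟩
  rw [← hhd] at hhL hhlow hhpos ⊢
  obtain ⟨q, hq⟩ : ∃ q : ℝ, q = (1 / 2 : ℝ) ^ b := ⟨_, rfl⟩
  rw [← hq]
  have hq0 : 0 ≤ q := by rw [hq]; positivity
  have hZ0 : 0 ≤ Z := le_trans (by positivity) hZ
  set φ : ℤ → ℝ := fun y => (if (y + t).natAbs.Prime then (1 : ℝ) else 0) - h * wt (y + t).natAbs with hφ
  set ω : ℤ → ℝ := fun y => wt (y + t).natAbs with hω
  have hω0 : ∀ y, 0 ≤ ω y := fun y => wt_nonneg _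
  have hLHS : (#((Ioc a b').filter (fun m => (F.eval m + t).natAbs.Prime)) : ℝ) -
      h * ∑ m ∈ Ioc a b', wt (F.eval m + t).natAbs = ∑ m ∈ Ioc a b', φ (F.eval m) := by
    rw [hφ, sum_sub_distrib, card_filter, mul_sum]
    push_cast
    rfl
  rw [hLHS]
  set W := ∑ m ∈ Ioc a b', wt (F.eval m + t).natAbs with hW
  have hWω : W = ∑ m ∈ Ioc a b', ω (F.eval m) := rfl
  -- one part
  have hpart : ∀ (G : ℤ[X]) (σ : ℤ), (σ = 1 ∨ σ = -1) → G.natDegree ≤ d → hh G t z = h →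
      (∀ p ∈ pz z, rho G t p < p) →
      Gap (fun n => G.eval (n : ℤ)) σ N0 (N0 ^ k) →
      ((fun n : ℕ => G.eval (n : ℤ)) = (fun n : ℕ => F.eval (n : ℤ)) ∨ (fun n : ℕ => G.eval (n : ℤ)) = (fun n : ℕ => (F.comp (-X)).eval (n : ℤ))) →
      ∀ n1 n2 : ℕ, N0 ≤ n1 → (∀ i ∈ Icc n1 n2, i ≤ M ∧ 2 ≤ G.eval (i : ℤ) + t ∧
        ((G.eval (i : ℤ) + t : ℤ) : ℝ) ≤ H * (S ^ k * L ^ C)) →
      |∑ n ∈ Icc n1 n2, φ (G.eval (n : ℤ))| ≤ H / L ^ e + 2 * q * h * ∑ n ∈ Icc n1 n2, ω (G.eval (n : ℤ)) + 9 * Z * h := by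
    intro G σ hσ hGd hGh hGr hGG hGF n1 n2 hn1 hval
    rcases Nat.lt_or_ge n2 n1 with hlt | hle
    · rw [Icc_eq_empty (by omega), sum_empty, sum_empty, abs_zero]
      positivity
    · have h1 := hval n1 (mem_Icc.2 ⟨le_rfl, hle⟩)
      have h2 := hval n2 (mem_Icc.2 ⟨hle, le_rfl⟩)
      have h3 := G_bound k C B c1 e (fun n => G.eval (n : ℤ)) σ hσ N0 M x z t S L H hL100 hS1 hSx hN0r hN01 hGG hff
        hHS hHB (hT _ hGF) n1 n2 hn1 hle h2.1 (by show 1 ≤ G.eval (n1 : ℤ) + t; omega) (by show 1 ≤ G.eval (n2 : ℤ) + t; omega) h1.2.2 h2.2.2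
      have h4 := hone G t hGd b hb z hz hGr σ N0 (N0 ^ k) hσ hg1 hGG n1 n2 hn1 (by omega) hle
        (fun i hi => (hval i hi).2.1)
      rw [hGh] at h4
      have h5 : (((Icc n1 n2).filter (fun i => (vN G t i).Prime)).card : ℝ) - h * ∑ i ∈ Icc n1 n2, wt (vN G t i) =
          ∑ n ∈ Icc n1 n2, φ (G.eval (n : ℤ)) := by
        rw [hφ, sum_sub_distrib, card_filter, mul_sum]
        push_cast
        rfl
      rw [h5] at h4
      have h6 : ∑ i ∈ Icc n1 n2, wt (vN G t i) = ∑ n ∈ Icc n1 n2, ω (G.eval (n : ℤ)) := rfl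
      rw [h6, ← hq] at h4
      have h7 : 9 * (z : ℝ) ^ (C1 * b) * h ≤ 9 * Z * h := by
        apply mul_le_mul_of_nonneg_right _ hhpos.le
        linarith
      linarith
  -- the three parts
  set Ap := (Ioc a b').filter (fun m => (N0 : ℤ) ≤ m) with hAp
  set Am := (Ioc a b').filter (fun m => m ≤ -(N0 : ℤ)) with hAm
  set Az := (Ioc a b').filter (fun m => ¬ (N0 : ℤ) ≤ m ∧ ¬ m ≤ -(N0 : ℤ)) with hAz
  have hsplit : ∀ ψ : ℤ → ℝ, ∑ m ∈ Ioc a b', ψ m = ∑ m ∈ Ap, ψ m + (∑ m ∈ Am, ψ m + ∑ m ∈ Az, ψ m) := by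
    intro ψ
    rw [← sum_filter_add_sum_filter_not (Ioc a b') (fun m => (N0 : ℤ) ≤ m)]
    congr 1
    rw [← sum_filter_add_sum_filter_not ((Ioc a b').filter (fun m => ¬ (N0 : ℤ) ≤ m)) (fun m => m ≤ -(N0 : ℤ)),
      filter_filter, filter_filter]
    congr 1
    apply sum_congr _ fun _ _ => rfl
    apply filter_congr
    intro m _
    constructor
    · rintro ⟨_, h⟩; exact h
    · intro h; exact ⟨by omega, h⟩
  have hNeg : F.comp (-X) = F.comp (-X) := rfl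
  have hdeg2 : (F.comp (-X)).natDegree ≤ d := by
    rw [natDegree_comp, natDegree_neg, natDegree_X, mul_one, hF]
    exact hkd
  have hrho2 : ∀ p ∈ pz z, rho (F.comp (-X)) t p < p := by
    intro p hp
    rw [rho_neg F t p (mem_pz.1 hp).2]
    exact hrho p hp
  have hhh2 : hh (F.comp (-X)) t z = h := by
    rw [hhd]
    unfold hh
    congr 1
    apply prod_congr rfl
    intro p hp
    rw [rho_neg F t p (mem_pz.1 hp).2]
  have hP : |∑ m ∈ Ap, φ (F.eval m)| ≤ H / L ^ e + 2 * q * h * ∑ m ∈ Ap, ω (F.eval m) + 9 * Z * h := by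
    rw [hAp, part_pos F φ a b' N0 hN01, part_pos F ω a b' N0 hN01]
    apply hpart F σ₁ hσ₁ (by omega) hhd.symm hrho hG1 (Or.inl rfl)
    · omega
    · intro i hi
      rw [mem_Icc] at hi
      have hi2 : (i : ℤ) ∈ Ioc a b' := by rw [mem_Ioc]; omega
      have h1 := hmM _ hi2
      rw [Int.natAbs_natCast] at h1
      exact ⟨h1, hv _ hi2⟩
  have hMn : |∑ m ∈ Am, φ (F.eval m)| ≤ H / L ^ e + 2 * q * h * ∑ m ∈ Am, ω (F.eval m) + 9 * Z * h := by
    rw [hAm, part_neg F φ a b' N0 hN01, part_neg F ω a b' N0 hN01]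
    apply hpart (F.comp (-X)) σ₂ hσ₂ hdeg2 hhh2 hrho2 hG2 (Or.inr rfl)
    · omega
    · intro i hi
      rw [mem_Icc] at hi
      have hi2 : -(i : ℤ) ∈ Ioc a b' := by rw [mem_Ioc]; omega
      have h1 := hmM _ hi2
      rw [Int.natAbs_neg, Int.natAbs_natCast] at h1
      have h2 : (F.comp (-X)).eval (i : ℤ) = F.eval (-(i : ℤ)) := by
        rw [eval_comp, eval_neg, eval_X]
      rw [h2]
      exact ⟨h1, hv _ hi2⟩
  have hZr : |∑ m ∈ Az, φ (F.eval m)| ≤ H / L ^ e := by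
    rcases Az.eq_empty_or_nonempty with h0 | ⟨m0, hm0⟩
    · rw [h0, sum_empty, abs_zero]; positivity
    · have hm0' := mem_filter.1 hm0
      have hv0 := hv m0 hm0'.1
      have habs0 : |m0| ≤ N0 := by rw [abs_le]; omega
      -- `F m0` is small
      have hF0 : ((|F.eval m0| : ℤ) : ℝ) ≤ (x : ℝ) / (2 * L ^ (U + 2)) := by
        have h1 := hgr2 m0
        have h2 : ((|F.eval m0| : ℤ) : ℝ) ≤ A * ((N0 : ℝ) ^ (k + 1) + 1) := by
          have h3 : |m0| ^ (k + 1) ≤ (N0 : ℤ) ^ (k + 1) := pow_le_pow_left₀ (abs_nonneg _) habs0 _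
          have h4 : |F.eval m0| ≤ A * ((N0 : ℤ) ^ (k + 1) + 1) := by
            refine h1.trans ?_
            apply mul_le_mul_of_nonneg_left _ (Int.natCast_nonneg _)
            linarith
          exact_mod_cast h4
        refine h2.trans ?_
        have h3 : (1 : ℝ) ≤ (N0 : ℝ) ^ (k + 1) := one_le_pow₀ (by exact_mod_cast hN01)
        have h4 : (N0 : ℝ) ^ (k + 1) ≤ 2 ^ (k + 1) * (x / L ^ c1) := by
          calc (N0 : ℝ) ^ (k + 1) ≤ (2 * (S / L ^ c1)) ^ (k + 1) := pow_le_pow_left₀ (by positivity) hN0r2 _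
            _ = 2 ^ (k + 1) * (S ^ (k + 1) / (L ^ c1) ^ (k + 1)) := by rw [mul_pow, div_pow]
            _ ≤ 2 ^ (k + 1) * (S ^ (k + 1) / L ^ c1) := by
                apply mul_le_mul_of_nonneg_left _ (by positivity)
                apply div_le_div_of_nonneg_left (by positivity) (hLp0 _)
                exact le_self_pow₀ (hLp _) (by omega)
            _ = _ := by rw [hSx]
        calc (A : ℝ) * ((N0 : ℝ) ^ (k + 1) + 1) ≤ A * (2 * (2 ^ (k + 1) * (x / L ^ c1))) := by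
              apply mul_le_mul_of_nonneg_left _ (Nat.cast_nonneg _)
              linarith
          _ = (A * 2 ^ (k + 4)) * (x / L ^ c1) * (1 / 4) := by
              rw [show k + 4 = (k + 1) + 3 by ring, pow_add (2 : ℝ) (k + 1) 3]
              ring
          _ ≤ L * (x / L ^ c1) * (1 / 4) := by gcongr; linarith
          _ ≤ L * (x / L ^ (U + 3)) * (1 / 4) := by
              gcongr 2
              · apply div_le_div_of_nonneg_left hx0.le (hLp0 _)
                exact hLL (by omega)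
          _ = x / (4 * L ^ (U + 2)) := by
              rw [pow_succ L (U + 2)]
              have := (hLp0 (U + 2)).ne'
              field_simp
          _ ≤ x / (2 * L ^ (U + 2)) := by
              apply div_le_div_of_nonneg_left hx0.le (by positivity)
              have := hLp0 (U + 2)
              linarith
      have hv0r : (2 : ℝ) ≤ ((F.eval m0 + t : ℤ) : ℝ) := by exact_mod_cast hv0.1
      have hF0' : ((F.eval m0 : ℤ) : ℝ) ≤ x / (2 * L ^ (U + 2)) := by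
        refine le_trans ?_ hF0
        push_cast
        exact le_abs_self _
      have hF0'' : -(x / (2 * L ^ (U + 2))) ≤ ((F.eval m0 : ℤ) : ℝ) := by
        have h1 := neg_abs_le ((F.eval m0 : ℤ) : ℝ)
        push_cast at hF0
        linarith
      have hxx : x / L ^ (U + 2) = x / (2 * L ^ (U + 2)) + x / (2 * L ^ (U + 2)) := by
        have := (hLp0 (U + 2)).ne'
        field_simp
        norm_num
      have hxp : 0 < x / (2 * L ^ (U + 2)) := by positivity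
      push_cast at hv0r
      have ht0 : (x : ℝ) / L ^ (U + 2) < (t : ℝ) := by
        rcases le_or_gt 0 (t : ℝ) with hc | hc
        · rwa [abs_of_nonneg hc] at ht2
        · rw [abs_of_neg hc] at ht2
          linarith
      have hSH : S ≤ 2 * H * L ^ (C + U + 2) := by
        have h1 : x / (2 * L ^ (U + 2)) ≤ H * (S ^ k * L ^ C) := by
          have h2 := hv0.2
          push_cast at h2
          linarith
        rw [div_le_iff₀ (by positivity), ← hSx, pow_succ] at h1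
        have h2 : S ^ k * S ≤ S ^ k * (2 * H * L ^ (C + U + 2)) := by
          calc S ^ k * S ≤ H * (S ^ k * L ^ C) * (2 * L ^ (U + 2)) := h1
            _ = _ := by ring
        exact le_of_mul_le_mul_left h2 hSk0
      have hcard : (#Az : ℝ) ≤ 2 * N0 := by
        have h1 : Az ⊆ Ioo (-(N0 : ℤ)) N0 := by
          intro m hm
          rw [hAz, mem_filter] at hm
          rw [mem_Ioo]
          omega
        have h2 := card_le_card h1
        rw [Int.card_Ioo] at h2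
        exact_mod_cast (by omega : #Az ≤ 2 * N0)
      have hterm : ∀ m ∈ Az, |φ (F.eval m)| ≤ 2 * L := by
        intro m hm
        have hm' := (mem_filter.1 hm).1
        have h1 := (hv m hm').1
        simp only [hφ]
        refine (abs_sub _ _).trans ?_
        have h2 : |(if (F.eval m + t).natAbs.Prime then (1 : ℝ) else 0)| ≤ 1 := by split_ifs <;> simp
        have h3 : |h * wt (F.eval m + t).natAbs| ≤ L * (3 / 2) := by
          rw [abs_of_nonneg (mul_nonneg hhpos.le (wt_nonneg _))]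
          exact mul_le_mul hhL (wt_le (by omega)) (wt_nonneg _) hL0.le
        linarith
      calc |∑ m ∈ Az, φ (F.eval m)| ≤ ∑ m ∈ Az, |φ (F.eval m)| := abs_sum_le_sum_abs _ _
        _ ≤ ∑ m ∈ Az, 2 * L := sum_le_sum hterm
        _ = #Az * (2 * L) := by rw [sum_const, nsmul_eq_mul]
        _ ≤ (2 * (2 * (S / L ^ c1))) * (2 * L) := by
            apply mul_le_mul_of_nonneg_right _ (by positivity)
            linarith
        _ ≤ (2 * (2 * ((2 * H * L ^ (C + U + 2)) / L ^ c1))) * (2 * L) := by gcongr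
        _ = 16 * (H * L ^ (C + U + 3) / L ^ c1) := by ring
        _ = 16 / L * (H / L ^ e) := by
            rw [hc1, show C + U + e + 4 = (C + U + 3) + (e + 1) by ring, pow_add L (C + U + 3) (e + 1), pow_succ L e]
            have := (hLp0 (C + U + 3)).ne'
            have := (hLp0 e).ne'
            field_simp
        _ ≤ 1 * (H / L ^ e) := by
            apply mul_le_mul_of_nonneg_right _ (by positivity)
            rw [div_le_one hL0]; linarith
        _ = _ := one_mul _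
  -- the total
  have htot : |∑ m ∈ Ioc a b', φ (F.eval m)| ≤ 3 * (H / L ^ e) + 2 * q * h * W + 18 * Z * h := by
    rw [hsplit]
    have h1 := abs_add_le (∑ m ∈ Ap, φ (F.eval m)) (∑ m ∈ Am, φ (F.eval m) + ∑ m ∈ Az, φ (F.eval m))
    have h2 := abs_add_le (∑ m ∈ Am, φ (F.eval m)) (∑ m ∈ Az, φ (F.eval m))
    have h3 : ∑ m ∈ Ap, ω (F.eval m) + ∑ m ∈ Am, ω (F.eval m) ≤ W := by
      rw [hWω, hsplit (fun m => ω (F.eval m))]
      have : 0 ≤ ∑ m ∈ Az, ω (F.eval m) := sum_nonneg fun _ _ => hω0 _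
      linarith
    have h4 := mul_le_mul_of_nonneg_left h3 (show 0 ≤ 2 * q * h by positivity)
    rw [mul_add] at h4
    linarith
  -- the lower bound for the main term
  have hWlow : H / (2 * L) ≤ W := by
    have h1 : ∀ m ∈ Ioc a b', 1 / (2 * L) ≤ wt (F.eval m + t).natAbs := by
      intro m hm
      obtain ⟨h2, h3⟩ := hv m hm
      unfold wt
      have hna : (((F.eval m + t).natAbs : ℕ) : ℝ) = ((F.eval m + t : ℤ) : ℝ) := by
        rw [Nat.cast_natAbs, abs_of_nonneg (by omega)]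
      have h4 : (2 : ℝ) ≤ ((F.eval m + t : ℤ) : ℝ) := by exact_mod_cast h2
      rw [hna]
      have h5 : ((F.eval m + t : ℤ) : ℝ) ≤ (x : ℝ) ^ 2 := by
        calc ((F.eval m + t : ℤ) : ℝ) ≤ H * (S ^ k * L ^ C) := h3
          _ ≤ (S * L ^ (C + 1)) * (S ^ k * L ^ C) := by gcongr
          _ = S ^ (k + 1) * L ^ (2 * C + 1) := by ring
          _ ≤ x * x := by
              rw [hSx]
              apply mul_le_mul_of_nonneg_left _ hx0.le
              exact ((hLL (by omega)).trans hLS).trans hSlex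
          _ = (x : ℝ) ^ 2 := by ring
      apply one_div_le_one_div_of_le (Real.log_pos (by linarith))
      have h6 := Real.log_le_log (by linarith) h5
      rw [Real.log_pow, ← hLx] at h6
      exact_mod_cast h6
    calc H / (2 * L) = ∑ _m ∈ Ioc a b', 1 / (2 * L) := by
          rw [sum_const, Int.card_Ioc, nsmul_eq_mul]
          have h2 : (((b' - a).toNat : ℕ) : ℝ) = H := by
            have h3 : (0 : ℤ) ≤ b' - a := by
              have : (0 : ℝ) ≤ ((b' - a : ℤ) : ℝ) := by push_cast; linarith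
              exact_mod_cast this
            have h4 : (((b' - a).toNat : ℕ) : ℤ) = b' - a := Int.toNat_of_nonneg h3
            have h5 : ((((b' - a).toNat : ℕ) : ℤ) : ℝ) = ((b' - a : ℤ) : ℝ) := by rw [h4]
            rw [Int.cast_natCast] at h5
            rw [h5, hHd]
            push_cast
            ring
          rw [h2]
          ring
      _ ≤ _ := sum_le_sum h1
  have hW0 : 0 < W := lt_of_lt_of_le (by positivity) hWlow
  refine htot.trans ?_
  have f1 : 3 * (H / L ^ e) ≤ (h * W) * (1 / (2 * L ^ U)) := by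
    have h1 : 1 / L ^ (2 * k + 3) * (H / (2 * L)) ≤ h * W := mul_le_mul hhlow hWlow (by positivity) hhpos.le
    calc 3 * (H / L ^ e) = (1 / L ^ (2 * k + 3) * (H / (2 * L))) * (6 / (L * L ^ U)) := by
          rw [he, show U + 2 * k + 5 = (2 * k + 3) + 1 + 1 + U by ring, pow_add, pow_add, pow_add, pow_one]
          have := (hLp0 (2 * k + 3)).ne'
          have := (hLp0 U).ne'
          field_simp
          norm_num
      _ ≤ (h * W) * (6 / (L * L ^ U)) := mul_le_mul_of_nonneg_right h1 (by positivity)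
      _ ≤ (h * W) * (1 / (2 * L ^ U)) := by
          apply mul_le_mul_of_nonneg_left _ (by positivity)
          rw [div_le_div_iff₀ (by positivity) (by positivity)]
          have := hLp0 U
          nlinarith
  have f2 : 18 * Z * h ≤ (h * W) * (1 / (2 * L ^ U)) := by
    have h1 : 36 * Z * L ^ U ≤ W := by
      refine le_trans ?_ hWlow
      rw [le_div_iff₀ (by positivity)]
      calc 36 * Z * L ^ U * (2 * L) = 72 * (Z * L ^ (U + 1)) := by ring
        _ ≤ L * (Z * L ^ (U + 1)) := by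
            apply mul_le_mul_of_nonneg_right (by linarith) (by positivity)
        _ = Z * L ^ (U + 2) := by ring
        _ ≤ H := hHZ
    have h2 : 18 * Z ≤ W * (1 / (2 * L ^ U)) := by
      rw [mul_one_div, le_div_iff₀ (by positivity)]
      linarith
    calc 18 * Z * h ≤ (W * (1 / (2 * L ^ U))) * h := mul_le_mul_of_nonneg_right h2 hhpos.le
      _ = _ := by ring
  have f3 : (2 * q + 1 / L ^ U) * (h * W) = 2 * q * h * W + ((h * W) * (1 / (2 * L ^ U)) + (h * W) * (1 / (2 * L ^ U))) := by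
    have := (hLp0 U).ne'
    field_simp
    ring
  rw [f3]
  linarith

end Pool.Agent.TH204.WR
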