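import Pool.Agent.TH204.WR.W5
import Pool.Agent.TH204.WR.W10

/-!
All windows, for all but few shifts `t`.
-/

set_option autoImplicit false

namespace Pool.Agent.TH204.WR

open Finset Filter Topology Polynomial
open Pool.Agent.H373R2.T7 (pz Vz lamz mem_pz Vz_ge Vz_inv_small)
open Pool.Agent.TH892.SW (gr wt wt_nonneg ff sq_ff Vz_pos)

open Classical in
/-- the exceptional set for the grid -/
lemma bad_grid (x g U C' B U1 z N0 M : ℕ) (G : ℕ → ℤ) (L R : ℝ) (hL : 10000 ≤ L) (hR : 0 < R)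
    (hTX : ∀ Y : ℕ, R * L ^ B ≤ Y → (Y : ℝ) ≤ x * L ^ C' →
      (((Icc (-(x : ℤ)) x).filter (fun t : ℤ => (Y : ℝ) / (R * L ^ U1) < |TT G N0 M Y (ff z) t|)).card : ℝ) ≤
        x / L ^ (U + 2 * g + 4))
    (hX2 : x * L ^ C' + 1 ≤ (x : ℝ) ^ 2) (hX0 : (0 : ℝ) < x) (hLX : L = Real.log x) :
    ∃ Bt : Finset ℤ, Bt ⊆ Icc (-(x : ℤ)) x ∧ (#Bt : ℝ) ≤ x / L ^ (U + 2) ∧ ∀ t ∈ Icc (-(x : ℤ)) x, t ∉ Bt →
      ∀ j : ℕ, R * L ^ B ≤ gr (L ^ g) j → (gr (L ^ g) j : ℝ) ≤ x * L ^ C' →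
        |TT G N0 M (gr (L ^ g) j) (ff z) t| ≤ gr (L ^ g) j * (1 / (R * L ^ U1)) := by
  have hL0 : 0 < L := by linarith
  have hL1 : 1 ≤ L := by linarith
  have hLp0 : ∀ n : ℕ, 0 < L ^ n := fun n => by positivity
  obtain ⟨J, hJ⟩ : ∃ J : ℕ, J = ⌊2 * (L ^ g) ^ 2 * L⌋₊ := ⟨_, rfl⟩
  obtain ⟨T0, hT0⟩ : ∃ T0, T0 = (range (J + 1)).filter (fun j : ℕ =>
    R * L ^ B ≤ gr (L ^ g) j ∧ (gr (L ^ g) j : ℝ) ≤ x * L ^ C') := ⟨_, rfl⟩
  refine ⟨T0.biUnion (fun j => (Icc (-(x : ℤ)) x).filter (fun t : ℤ => ((gr (L ^ g) j : ℕ) : ℝ) / (R * L ^ U1) <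
      |TT G N0 M (gr (L ^ g) j) (ff z) t|)), ?_, ?_, ?_⟩
  · exact biUnion_subset.2 fun p _ => filter_subset _ _
  · have h2 : (#T0 : ℝ) ≤ 2 * (L ^ g) ^ 2 * L + 1 := by
      have h3 : #T0 ≤ J + 1 := by
        rw [hT0]
        refine (card_filter_le _ _).trans ?_
        rw [card_range]
      calc (#T0 : ℝ) ≤ (J : ℝ) + 1 := by exact_mod_cast h3
        _ ≤ _ := by
            have : (J : ℝ) ≤ 2 * (L ^ g) ^ 2 * L := by rw [hJ]; exact Nat.floor_le (by positivity)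
            linarith
    have h1 : (#(T0.biUnion (fun j => (Icc (-(x : ℤ)) x).filter (fun t : ℤ => ((gr (L ^ g) j : ℕ) : ℝ) / (R * L ^ U1) <
      |TT G N0 M (gr (L ^ g) j) (ff z) t|))) : ℝ) ≤
        (#T0 : ℝ) * (x / L ^ (U + 2 * g + 4)) := by
      rw [← nsmul_eq_mul, ← sum_const]
      refine le_trans (Nat.cast_le.2 card_biUnion_le) ?_
      push_cast
      refine sum_le_sum fun j hj => ?_
      rw [hT0, mem_filter] at hj
      exact hTX (gr (L ^ g) j) hj.2.1 hj.2.2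
    refine h1.trans ?_
    calc (#T0 : ℝ) * (x / L ^ (U + 2 * g + 4)) ≤ (2 * (L ^ g) ^ 2 * L + 1) * (x / L ^ (U + 2 * g + 4)) :=
          mul_le_mul_of_nonneg_right h2 (by positivity)
      _ ≤ (L ^ (2 * g + 2)) * (x / L ^ (U + 2 * g + 4)) := by
          apply mul_le_mul_of_nonneg_right _ (by positivity)
          have h3 : L ^ (2 * g + 2) = (L ^ g) ^ 2 * L * L := by ring
          rw [h3]
          have h4 : 1 ≤ (L ^ g) ^ 2 * L := by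
            have : 1 ≤ (L ^ g) ^ 2 := one_le_pow₀ (one_le_pow₀ hL1)
            nlinarith
          nlinarith
      _ = x / L ^ (U + 2) := by
          have e : L ^ (U + 2 * g + 4) = L ^ (2 * g + 2) * L ^ (U + 2) := by ring
          rw [e]
          have h5 := (hLp0 (2 * g + 2)).ne'
          have h6 := (hLp0 (U + 2)).ne'
          field_simp
  · intro t ht htB j hj1 hj2
    by_contra hcon
    push Not at hcon
    apply htB
    rw [mem_biUnion]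
    refine ⟨j, ?_, ?_⟩
    · rw [hT0, mem_filter, mem_range]
      refine ⟨?_, hj1, hj2⟩
      show j < J + 1
      rw [Nat.lt_succ_iff, hJ]
      apply Nat.le_floor
      have h1 : Real.exp ((j : ℝ) / (L ^ g) ^ 2) < gr (L ^ g) j + 1 := Nat.lt_floor_add_one _
      have h2 : Real.exp ((j : ℝ) / (L ^ g) ^ 2) ≤ (x : ℝ) ^ 2 := by linarith
      rw [← Real.le_log_iff_exp_le (by positivity), Real.log_pow, ← hLX] at h2
      push_cast at h2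
      rw [div_le_iff₀ (by positivity)] at h2
      linarith
    · rw [mem_filter]
      refine ⟨ht, ?_⟩
      show ((gr (L ^ g) j : ℕ) : ℝ) / (R * L ^ U1) < _
      rw [mul_one_div] at hcon
      exact hcon

lemma Vz_le_one (z : ℕ) : Vz z ≤ 1 := by
  unfold Vz
  apply prod_le_one
  · intro p hp
    have hp2 : (2 : ℝ) ≤ p := by exact_mod_cast (mem_pz.1 hp).2.two_le
    rw [sub_nonneg, div_le_one (by linarith)]
    linarith
  · intro p hp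
    have : 0 ≤ 1 / (p : ℝ) := by positivity
    linarith

/-- the number of small shifts -/
lemma small_shifts (x : ℕ) (r : ℝ) (hr : 1 ≤ r) :
    (#((Icc (-(x : ℤ)) x).filter (fun t : ℤ => |(t : ℝ)| ≤ r)) : ℝ) ≤ 3 * r := by
  have h1 : (Icc (-(x : ℤ)) x).filter (fun t : ℤ => |(t : ℝ)| ≤ r) ⊆ Icc (-(⌊r⌋₊ : ℤ)) ⌊r⌋₊ := by
    intro t ht
    rw [mem_filter] at ht
    have h2 : t.natAbs ≤ ⌊r⌋₊ := by
      apply Nat.le_floor
      rw [Nat.cast_natAbs, Int.cast_abs]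
      exact ht.2
    rw [mem_Icc]
    omega
  have h2 := card_le_card h1
  rw [Int.card_Icc] at h2
  have h3 : (#((Icc (-(x : ℤ)) x).filter (fun t : ℤ => |(t : ℝ)| ≤ r)) : ℝ) ≤ 2 * (⌊r⌋₊ : ℝ) + 1 := by
    have h4 : #((Icc (-(x : ℤ)) x).filter (fun t : ℤ => |(t : ℝ)| ≤ r)) ≤ 2 * ⌊r⌋₊ + 1 := by omega
    exact_mod_cast h4
  have h4 := Nat.floor_le (show 0 ≤ r by linarith)
  linarith

theorem core (k : ℕ) (hk : 1 ≤ k) (F : ℤ[X]) (hF : F.natDegree = k + 1) (U C : ℕ) :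
    ∃ Bf E0 C1 : ℕ, ∀ E : ℕ, E0 ≤ E → ∃ X0 : ℕ, ∀ x : ℕ, X0 ≤ x → ∃ Bad : Finset ℤ, Bad ⊆ Icc (-(x : ℤ)) x ∧
    (#Bad : ℝ) ≤ x / Real.log x ^ U ∧ ∀ t ∈ Icc (-(x : ℤ)) x, t ∉ Bad →
    (∀ p : ℕ, p.Prime → rho F t p < p) →
    0 < hh F t ⌊Real.log x ^ E⌋₊ ∧
    ∀ b : ℕ, C1 ≤ b → ∀ a₁ b₁ : ℤ, Real.log x ^ Bf ≤ (b₁ : ℝ) - a₁ →
      Real.log x ^ (E * (C1 * b) + U + 2) ≤ (b₁ : ℝ) - a₁ →
      (∀ m ∈ Ioc a₁ b₁, 2 ≤ F.eval m + t ∧
        ((F.eval m + t : ℤ) : ℝ) ≤ ((b₁ : ℝ) - a₁) * (rt k x ^ k * Real.log x ^ C)) →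
      |(#((Ioc a₁ b₁).filter (fun m => (F.eval m + t).natAbs.Prime)) : ℝ) -
          hh F t ⌊Real.log x ^ E⌋₊ * ∑ m ∈ Ioc a₁ b₁, wt (F.eval m + t).natAbs| ≤
        (2 * (1 / 2) ^ b + 1 / Real.log x ^ U) *
          (hh F t ⌊Real.log x ^ E⌋₊ * ∑ m ∈ Ioc a₁ b₁, wt (F.eval m + t).natAbs) := by
  classical
  have hF' : (F.comp (-X)).natDegree = k + 1 := by
    rw [natDegree_comp, natDegree_neg, natDegree_X, mul_one, hF]
  obtain ⟨nP, A, hnP, hA, hgr1, hgr2, σ₁, σ₂, hσ₁, hσ₂, hgap⟩ := growthZ k hk F hF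
  obtain ⟨C1, y0, hC1, hy0, hwin⟩ := window_t (k + 1) (by omega)
  obtain ⟨e, he⟩ : ∃ e, e = U + 2 * k + 5 := ⟨_, rfl⟩
  obtain ⟨c1, hc1⟩ : ∃ c1, c1 = C + U + e + 4 := ⟨_, rfl⟩
  obtain ⟨g, hg⟩ : ∃ g, g = C + c1 * k + e + 2 := ⟨_, rfl⟩
  obtain ⟨B1, E1, hT1⟩ := TT_most k hk F hF (C + e + 1) (U + 2 * g + 4) c1 (2 * C + 2) (2 * C + 1)
  obtain ⟨B2, E2, hT2⟩ := TT_most k hk (F.comp (-X)) hF' (C + e + 1) (U + 2 * g + 4) c1 (2 * C + 2) (2 * C + 1)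
  obtain ⟨B, hB⟩ : ∃ B, B = max B1 B2 := ⟨_, rfl⟩
  refine ⟨B + c1 * k + e + 2, max E1 E2 + 1, C1, fun E hE => ?_⟩
  obtain ⟨X1, hX1⟩ := hT1 E (by omega)
  obtain ⟨X2, hX2⟩ := hT2 E (by omega)
  obtain ⟨X3, hX3⟩ := sq_ff E
  obtain ⟨X4, hX4⟩ := Vz_inv_small E
  have hev : ∀ᶠ x : ℕ in atTop, (10000 + (4 : ℝ) ^ (k + 2) + A * 2 ^ (k + 4) + 4 * nP + y0 +
      (2 * ((k + 1 : ℕ) : ℝ)) ^ (2 * (k + 1))) ≤ Real.log x ∧
      Real.log x ^ (c1 + 2 * C + 4 + U + 4) ≤ (x : ℝ) ^ ((1 : ℝ) / (k + 1)) := by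
    filter_upwards [evt_log_ge (10000 + (4 : ℝ) ^ (k + 2) + A * 2 ^ (k + 4) + 4 * nP + y0 +
      (2 * ((k + 1 : ℕ) : ℝ)) ^ (2 * (k + 1))),
      evt_log_pow (c1 + 2 * C + 4 + U + 4) ((1 : ℝ) / (k + 1)) (by positivity)] with x h1 h2
    exact ⟨h1, h2⟩
  obtain ⟨X5, hX5⟩ := eventually_atTop.1 hev
  refine ⟨max (max (max X1 X2) (max X3 X4)) (max X5 1), fun x hx => ?_⟩
  have g1 : X1 ≤ x := le_trans (le_trans (le_trans (le_max_left _ _) (le_max_left _ _)) (le_max_left _ _)) hx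
  have g2 : X2 ≤ x := le_trans (le_trans (le_trans (le_max_right _ _) (le_max_left _ _)) (le_max_left _ _)) hx
  have g3 : X3 ≤ x := le_trans (le_trans (le_trans (le_max_left _ _) (le_max_right _ _)) (le_max_left _ _)) hx
  have g4 : X4 ≤ x := le_trans (le_trans (le_trans (le_max_right _ _) (le_max_right _ _)) (le_max_left _ _)) hx
  have g5 : X5 ≤ x := le_trans (le_trans (le_max_left _ _) (le_max_right _ _)) hx
  have g6 : 1 ≤ x := le_trans (le_trans (le_max_right _ _) (le_max_right _ _)) hx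
  obtain ⟨hL, hLS⟩ := hX5 x g5
  have hSr : rt k x = (x : ℝ) ^ ((1 : ℝ) / (k + 1)) := rfl
  rw [← hSr] at hLS
  have hSx := rt_pow k x
  have hTX1 := hX1 x g1
  have hTX2 := hX2 x g2
  have hV' := hX4 x g4
  have hff' := hX3 x g3
  clear hT1 hT2 hX1 hX2 hX3 hX4 hX5 hev hx g1 g2 g3 g4 g5 hSr
  obtain ⟨L, hLd⟩ : ∃ L, L = Real.log x := ⟨_, rfl⟩
  rw [← hLd] at hL hLS hTX1 hTX2 hV' hff' ⊢
  obtain ⟨S, hS⟩ : ∃ S, S = rt k x := ⟨_, rfl⟩
  rw [← hS] at hLS hTX1 hTX2 hSx ⊢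
  obtain ⟨z, hz⟩ : ∃ z, z = ⌊L ^ E⌋₊ := ⟨_, rfl⟩
  rw [← hz] at hTX1 hTX2 ⊢
  obtain ⟨N0, hN0⟩ : ∃ N0, N0 = ⌈S / L ^ c1⌉₊ := ⟨_, rfl⟩
  obtain ⟨M, hM⟩ : ∃ M, M = ⌊S * L ^ (2 * C + 2)⌋₊ := ⟨_, rfl⟩
  rw [← hN0, ← hM] at hTX1 hTX2
  have q1 : (0 : ℝ) < 4 ^ (k + 2) := by positivity
  have q2 : (0 : ℝ) ≤ A * 2 ^ (k + 4) := by positivity
  have q3 : (0 : ℝ) ≤ nP := Nat.cast_nonneg _
  have q4 : (0 : ℝ) ≤ y0 := Nat.cast_nonneg _
  have q5 : (0 : ℝ) < (2 * ((k + 1 : ℕ) : ℝ)) ^ (2 * (k + 1)) := by positivity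
  have hL4 : 10000 ≤ L := by linarith
  have hL0 : 0 < L := by linarith
  have hL1 : 1 ≤ L := by linarith
  have hLp0 : ∀ n : ℕ, 0 < L ^ n := fun n => by positivity
  have hLp : ∀ n : ℕ, 1 ≤ L ^ n := fun n => one_le_pow₀ hL1
  have hLL : ∀ {i j : ℕ}, i ≤ j → L ^ i ≤ L ^ j := fun h => pow_le_pow_right₀ hL1 h
  have hxr : (1 : ℝ) ≤ x := by exact_mod_cast g6
  have hx0 : (0 : ℝ) < x := by linarith
  have hLS' : ∀ i : ℕ, i ≤ c1 + 2 * C + 4 + U + 4 → L ^ i ≤ S := fun i hi => (hLL hi).trans hLS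
  have hS1 : 1 ≤ S := (hLp 0).trans (hLS' 0 (by omega))
  have hS0 : 0 < S := by linarith
  have hSk0 : 0 < S ^ k := by positivity
  have hSx' : S ≤ x := by rw [← hSx]; exact le_self_pow₀ hS1 (by omega)
  -- z
  have hzle : (z : ℝ) ≤ L ^ E := by rw [hz]; exact Nat.floor_le (by positivity)
  have hLE : L ≤ L ^ E := le_self_pow₀ hL1 (by omega)
  have hzge : L ^ E - 1 ≤ z := by
    have := Nat.lt_floor_add_one (L ^ E)
    rw [← hz] at this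
    linarith
  have hzy : y0 ≤ z := by
    have : (y0 : ℝ) ≤ z := by linarith
    exact_mod_cast this
  have hz1 : 1 ≤ z := by omega
  have hV := hV' z hz1 hzle
  have hVpos := Vz_pos hz1
  have hVge : 1 / L ≤ Vz z := by
    rw [div_le_iff₀ hL0]
    have := mul_le_mul_of_nonneg_right hV hVpos.le
    rw [inv_mul_cancel₀ hVpos.ne'] at this
    linarith
  obtain ⟨hffb, -⟩ := hff' z hz1 hzle
  have hX2' : x * L ^ (2 * C + 1) + 1 ≤ (x : ℝ) ^ 2 := by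
    have h1 : L ^ (2 * C + 1) * 2 ≤ S := by
      calc L ^ (2 * C + 1) * 2 ≤ L ^ (2 * C + 1) * L := by
            apply mul_le_mul_of_nonneg_left _ (hLp0 _).le
            linarith
        _ = L ^ (2 * C + 2) := by ring
        _ ≤ S := hLS' _ (by omega)
    calc x * L ^ (2 * C + 1) + 1 ≤ x * L ^ (2 * C + 1) + x * L ^ (2 * C + 1) := by
          have := one_le_mul_of_one_le_of_one_le hxr (hLp (2 * C + 1))
          linarith
      _ = x * (L ^ (2 * C + 1) * 2) := by ring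
      _ ≤ x * x := by
          apply mul_le_mul_of_nonneg_left _ hx0.le
          linarith
      _ = (x : ℝ) ^ 2 := by ring
  have hBB1 : ∀ Y : ℝ, S ^ k * L ^ B ≤ Y → S ^ k * L ^ B1 ≤ Y := fun Y h =>
    le_trans (mul_le_mul_of_nonneg_left (hLL (by omega)) hSk0.le) h
  have hBB2 : ∀ Y : ℝ, S ^ k * L ^ B ≤ Y → S ^ k * L ^ B2 ≤ Y := fun Y h =>
    le_trans (mul_le_mul_of_nonneg_left (hLL (by omega)) hSk0.le) h
  obtain ⟨Bt1, hBs1, hBc1, hBg1⟩ := bad_grid x g U (2 * C + 1) B (C + e + 1) z N0 M (fun n => F.eval (n : ℤ)) L (S ^ k)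
    hL4 hSk0 (fun Y hY1 hY2 => hTX1 Y (hBB1 Y hY1) hY2) hX2' hx0 hLd
  obtain ⟨Bt2, hBs2, hBc2, hBg2⟩ := bad_grid x g U (2 * C + 1) B (C + e + 1) z N0 M
    (fun n => (F.comp (-X)).eval (n : ℤ)) L (S ^ k)
    hL4 hSk0 (fun Y hY1 hY2 => hTX2 Y (hBB2 Y hY1) hY2) hX2' hx0 hLd
  obtain ⟨Bs, hBs⟩ : ∃ Bs, Bs = (Icc (-(x : ℤ)) x).filter (fun t : ℤ => |(t : ℝ)| ≤ x / L ^ (U + 2)) := ⟨_, rfl⟩
  have hxL : 1 ≤ (x : ℝ) / L ^ (U + 2) := by
    rw [one_le_div (hLp0 _)]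
    exact (hLS' _ (by omega)).trans hSx'
  have hBsc : (#Bs : ℝ) ≤ 3 * (x / L ^ (U + 2)) := by
    rw [hBs]
    exact small_shifts x _ hxL
  refine ⟨Bt1 ∪ Bt2 ∪ Bs, ?_, ?_, ?_⟩
  · refine union_subset (union_subset hBs1 hBs2) ?_
    rw [hBs]; exact filter_subset _ _
  · have h1 : (#(Bt1 ∪ Bt2 ∪ Bs) : ℝ) ≤ #Bt1 + #Bt2 + #Bs := by
      have h2 := card_union_le (Bt1 ∪ Bt2) Bs
      have h3 := card_union_le Bt1 Bt2
      exact_mod_cast (by omega : #(Bt1 ∪ Bt2 ∪ Bs) ≤ #Bt1 + #Bt2 + #Bs)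
    refine h1.trans ?_
    have h2 : 5 * (x / L ^ (U + 2)) ≤ x / L ^ U := by
      have e1 : (x : ℝ) / L ^ U = L ^ 2 * (x / L ^ (U + 2)) := by
        rw [pow_add]
        have := (hLp0 U).ne'
        field_simp
      rw [e1]
      apply mul_le_mul_of_nonneg_right _ (by positivity)
      nlinarith
    linarith
  · intro t ht htB hrho
    rw [mem_union, mem_union, not_or, not_or] at htB
    obtain ⟨⟨hb1, hb2⟩, hb3⟩ := htB
    have hprod1 := prod_le_one' F t z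
    have hlow := V_low F t z (k + 1) (by omega) hF.le (fun p hp => hrho p (mem_pz.1 hp).2)
    have hhL : hh F t z ≤ L := by
      unfold hh
      calc (Vz z)⁻¹ * ∏ p ∈ pz z, (1 - (rho F t p : ℝ) / p) ≤ L * 1 :=
            mul_le_mul hV hprod1 (prod_nonneg' F t z) hL0.le
        _ = L := mul_one _
    have hhlow : 1 / L ^ (2 * k + 3) ≤ hh F t z := by
      have h1 : 1 ≤ (Vz z)⁻¹ := by
        rw [one_le_inv₀ hVpos]
        exact Vz_le_one z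
      have h2 : 1 / L ≤ (1 / (2 * ((k + 1 : ℕ) : ℝ))) ^ (2 * (k + 1)) := by
        rw [one_div_pow]
        apply one_div_le_one_div_of_le q5
        linarith
      have h3 : (1 / L) ^ (2 * (k + 1)) ≤ Vz z ^ (2 * (k + 1)) := pow_le_pow_left₀ (by positivity) hVge _
      calc 1 / L ^ (2 * k + 3) = 1 * (1 / L * (1 / L) ^ (2 * (k + 1))) := by
            rw [one_div_pow, one_mul, show 2 * k + 3 = 2 * (k + 1) + 1 by ring, pow_succ L (2 * (k + 1))]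
            field_simp
        _ ≤ (Vz z)⁻¹ * ((1 / (2 * ((k + 1 : ℕ) : ℝ))) ^ (2 * (k + 1)) * Vz z ^ (2 * (k + 1))) := by
            apply mul_le_mul h1 _ (by positivity) (by positivity)
            apply mul_le_mul h2 h3 (by positivity) (by positivity)
        _ ≤ hh F t z := by
            unfold hh
            exact mul_le_mul_of_nonneg_left hlow (by positivity)
    refine ⟨lt_of_lt_of_le (by positivity) hhlow, ?_⟩
    intro b hb a₁ b₁ hH1 hH2 hv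
    have hN0P : nP ≤ N0 := by
      have h1 : S / L ^ c1 ≤ N0 := by rw [hN0]; exact Nat.le_ceil _
      have h2 : L ≤ S / L ^ c1 := by
        rw [le_div_iff₀ (hLp0 _), ← pow_succ']
        exact hLS' _ (by omega)
      have : (nP : ℝ) ≤ N0 := by linarith
      exact_mod_cast this
    obtain ⟨hG1, hG2⟩ := hgap N0 hN0P
    refine hwin k C U B c1 e nP A F σ₁ σ₂ N0 M x z b t S L (L ^ (E * (C1 * b))) hk hF le_rfl he hc1 hgr1 hgr2
      hσ₁ hσ₂ hG1 hG2 hN0 hM hLd hSx (by linarith) (hLS' _ (by omega)) (fun y => hffb y) ?_ ?_ ?_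
      hb hzy (fun p hp => hrho p (mem_pz.1 hp).2) hhL hhlow ?_ a₁ b₁ hH1 ?_ hv
    · intro G hG j hj1 hj2
      rw [← hg] at hj1 hj2 ⊢
      rcases hG with rfl | rfl
      · exact hBg1 t ht hb1 j hj1 hj2
      · exact hBg2 t ht hb2 j hj1 hj2
    · exact abs_le.2 (mem_Icc.1 ht)
    · by_contra hcon
      push Not at hcon
      exact hb3 (by rw [hBs, mem_filter]; exact ⟨ht, hcon⟩)
    · rw [pow_mul L E]
      exact pow_le_pow_left₀ (Nat.cast_nonneg _) hzle _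
    · refine le_trans (le_of_eq ?_) hH2
      rw [← pow_add]
      congr 1

end Pool.Agent.TH204.WR
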