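import Pool.Agent.TH204.WR.W5
import Pool.Agent.TH204.WR.W12
import Pool.Agent.TH892.SW.S7

/-!
For all but few shifts the product of the local densities hardly depends on the cutoff.
-/

set_option autoImplicit false

namespace Pool.Agent.TH204.WR

open Finset Polynomial Filter
open Pool.Agent.H373R2.T7 (pz Vz lamz mem_pz Vz_ge)
open Pool.Agent.TH892.SW (gr grid Vz_pos)

lemma short_tail (F : ℤ[X]) (t : ℤ) (y z : ℕ) (hd : 1 ≤ F.natDegree) (hl : F.leadingCoeff.natAbs ≤ y)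
    (hl0 : F.leadingCoeff ≠ 0) (hy : 1 ≤ y) (hyz : y ≤ z) :
    |∑ p ∈ (Ioc y z).filter Nat.Prime, xp F t p| ≤ 2 * F.natDegree * (((z : ℝ) - y) / y) := by
  have hyr : (0 : ℝ) < y := by exact_mod_cast hy
  have hd0 : (0 : ℝ) ≤ F.natDegree := Nat.cast_nonneg _
  refine (abs_sum_le_sum_abs _ _).trans ?_
  have h1 : ∀ p ∈ (Ioc y z).filter Nat.Prime, |xp F t p| ≤ 2 * F.natDegree / y := by
    intro p hp
    rw [mem_filter, mem_Ioc] at hp
    refine (xp_le F t p hp.2 hd (by omega) hl0).trans ?_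
    apply div_le_div_of_nonneg_left (by positivity) hyr
    exact_mod_cast hp.1.1.le
  refine (sum_le_sum h1).trans ?_
  rw [sum_const, nsmul_eq_mul]
  have h2 : (#((Ioc y z).filter Nat.Prime) : ℝ) ≤ (z : ℝ) - y := by
    have : #((Ioc y z).filter Nat.Prime) ≤ z - y := by
      refine (card_filter_le _ _).trans ?_
      rw [Nat.card_Ioc]
    have h3 : ((#((Ioc y z).filter Nat.Prime) : ℕ) : ℝ) ≤ ((z - y : ℕ) : ℝ) := by exact_mod_cast this
    rwa [Nat.cast_sub hyz] at h3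
  calc (#((Ioc y z).filter Nat.Prime) : ℝ) * (2 * F.natDegree / y) ≤ ((z : ℝ) - y) * (2 * F.natDegree / y) :=
        mul_le_mul_of_nonneg_right h2 (by positivity)
    _ = _ := by ring

/-- all cutoffs -/
theorem tail_all (F : ℤ[X]) (hd : 1 ≤ F.natDegree) (A U : ℕ) : ∃ E0 : ℕ, ∀ E : ℕ, E0 ≤ E → ∃ X0 : ℕ, ∀ x : ℕ, X0 ≤ x →
    ∃ Bt : Finset ℤ, Bt ⊆ Icc (-(x : ℤ)) x ∧ (#Bt : ℝ) ≤ x / Real.log x ^ U ∧ ∀ t ∈ Icc (-(x : ℤ)) x, t ∉ Bt →
    ∀ z : ℕ, ⌊Real.log x ^ E⌋₊ ≤ z → z ^ 3 ≤ x →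
      |∑ p ∈ (Ioc ⌊Real.log x ^ E⌋₊ z).filter Nat.Prime, xp F t p| ≤ 1 / Real.log x ^ A := by
  classical
  have hF0 : F ≠ 0 := by
    intro h
    rw [h, natDegree_zero] at hd
    omega
  have hl0 : F.leadingCoeff ≠ 0 := leadingCoeff_ne_zero.2 hF0
  refine ⟨2 * (A + 1) + 2 * (A + 1) + U + 6, fun E hE => ?_⟩
  obtain ⟨X1, hX1⟩ := eventually_atTop.1 (evt_log_ge (1000 + 64 * (F.natDegree : ℝ) ^ 2 + 64 * F.natDegree + F.leadingCoeff.natAbs))
  refine ⟨max X1 1, fun x hx => ?_⟩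
  have hL := hX1 x ((le_max_left _ _).trans hx)
  have hx1 : 1 ≤ x := (le_max_right _ _).trans hx
  clear hX1
  obtain ⟨L, hLd⟩ : ∃ L, L = Real.log x := ⟨_, rfl⟩
  rw [← hLd] at hL ⊢
  obtain ⟨y, hy⟩ : ∃ y, y = ⌊L ^ E⌋₊ := ⟨_, rfl⟩
  rw [← hy]
  obtain ⟨d, hdd⟩ : ∃ d : ℝ, d = ((F.natDegree : ℕ) : ℝ) := ⟨_, rfl⟩
  have hd1 : 1 ≤ d := by rw [hdd]; exact_mod_cast hd
  rw [← hdd] at hL
  have hlc0 : (0 : ℝ) ≤ (F.leadingCoeff.natAbs : ℝ) := Nat.cast_nonneg _
  have hd20 : 0 ≤ 64 * d ^ 2 := by positivity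
  have hL1000 : 1000 ≤ L := by linarith
  have hL0 : 0 < L := by linarith
  have hL1 : 1 ≤ L := by linarith
  have hLp0 : ∀ n : ℕ, 0 < L ^ n := fun n => by positivity
  have hLp : ∀ n : ℕ, 1 ≤ L ^ n := fun n => one_le_pow₀ hL1
  have hLL : ∀ {i j : ℕ}, i ≤ j → L ^ i ≤ L ^ j := fun h => pow_le_pow_right₀ hL1 h
  have hxr : (1 : ℝ) ≤ x := by exact_mod_cast hx1
  have hx0 : (0 : ℝ) < x := by linarith
  have hyle : (y : ℝ) ≤ L ^ E := by rw [hy]; exact Nat.floor_le (by positivity)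
  have hLE : L ≤ L ^ E := le_self_pow₀ hL1 (by omega)
  have hyge : L ^ E / 2 ≤ y := by
    have := Nat.lt_floor_add_one (L ^ E)
    rw [← hy] at this
    linarith
  have hyge2 : L ^ (E - 1) ≤ y := by
    have e : L ^ E = L ^ (E - 1) * L := by rw [← pow_succ]; congr 1; omega
    have := hLp0 (E - 1)
    nlinarith
  have hyr : (1 : ℝ) ≤ y := (hLp _).trans hyge2
  have hy1 : 1 ≤ y := by exact_mod_cast hyr
  have hylc : F.leadingCoeff.natAbs ≤ y := by
    have h1 : L ≤ L ^ (E - 1) := le_self_pow₀ hL1 (by omega)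
    have : ((F.leadingCoeff.natAbs : ℕ) : ℝ) ≤ y := by linarith
    exact_mod_cast this
  obtain ⟨γ, hγ⟩ : ∃ γ, γ = L ^ (A + 1) := ⟨_, rfl⟩
  have hγL : L ≤ γ := by rw [hγ]; exact le_self_pow₀ hL1 (by omega)
  have hγ2 : 2 ≤ γ := by linarith
  have hγ0 : 0 < γ := by linarith
  obtain ⟨J, hJ⟩ : ∃ J : ℕ, J = ⌊γ ^ 2 * L⌋₊ := ⟨_, rfl⟩
  obtain ⟨T0, hT0⟩ : ∃ T0, T0 = (range (J + 1)).filter (fun j : ℕ => y ≤ gr γ j ∧ (gr γ j) ^ 3 ≤ x) := ⟨_, rfl⟩
  obtain ⟨τ, hτ⟩ : ∃ τ : ℝ, τ = 1 / L ^ (A + 1) := ⟨_, rfl⟩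
  have hτ0 : 0 < τ := by rw [hτ]; positivity
  set bad : ℕ → Finset ℤ := fun j => (Icc (-(x : ℤ)) x).filter (fun t : ℤ =>
    τ < |∑ p ∈ (Ioc y (gr γ j)).filter Nat.Prime, xp F t p|) with hbad
  refine ⟨T0.biUnion bad, ?_, ?_, ?_⟩
  · exact biUnion_subset.2 fun p _ => filter_subset _ _
  · have h1 : ∀ j ∈ T0, (#(bad j) : ℝ) ≤ 16 * d ^ 2 * (x / y) * L ^ (2 * (A + 1)) := by
      intro j hj
      rw [hT0, mem_filter] at hj
      have h2 := tail_second F x y (gr γ j) hd hylc hl0 hy1 hx1 hj.2.2 hj.2.1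
      rw [← hdd] at h2
      have h3 : (#(bad j) : ℝ) * τ ^ 2 ≤ ∑ t ∈ Icc (-(x : ℤ)) x, (∑ p ∈ (Ioc y (gr γ j)).filter Nat.Prime, xp F t p) ^ 2 := by
        calc (#(bad j) : ℝ) * τ ^ 2 = ∑ t ∈ bad j, τ ^ 2 := by rw [sum_const, nsmul_eq_mul]
          _ ≤ ∑ t ∈ bad j, (∑ p ∈ (Ioc y (gr γ j)).filter Nat.Prime, xp F t p) ^ 2 := by
              refine sum_le_sum fun t ht => ?_
              rw [hbad, mem_filter] at ht
              rw [← sq_abs (∑ p ∈ (Ioc y (gr γ j)).filter Nat.Prime, xp F t p)]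
              exact pow_le_pow_left₀ hτ0.le ht.2.le 2
          _ ≤ _ := sum_le_sum_of_subset_of_nonneg (filter_subset _ _) (fun _ _ _ => sq_nonneg _)
      have h4 := h3.trans h2
      rw [← le_div_iff₀ (by positivity)] at h4
      refine h4.trans (le_of_eq ?_)
      rw [hτ, one_div_pow, ← pow_mul, div_div_eq_mul_div, div_one, mul_comm (A + 1) 2]
    have h2 : (#T0 : ℝ) ≤ 2 * L ^ (2 * (A + 1) + 1) := by
      have h3 : #T0 ≤ J + 1 := by
        rw [hT0]
        refine (card_filter_le _ _).trans ?_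
        rw [card_range]
      have h4 : (J : ℝ) ≤ γ ^ 2 * L := by rw [hJ]; exact Nat.floor_le (by positivity)
      have h5 : γ ^ 2 * L = L ^ (2 * (A + 1) + 1) := by rw [hγ]; ring
      have h6 := hLp (2 * (A + 1) + 1)
      calc (#T0 : ℝ) ≤ (J : ℝ) + 1 := by exact_mod_cast h3
        _ ≤ _ := by linarith
    have h3 : (#(T0.biUnion bad) : ℝ) ≤ (#T0 : ℝ) * (16 * d ^ 2 * (x / y) * L ^ (2 * (A + 1))) := by
      rw [← nsmul_eq_mul, ← sum_const]
      refine le_trans (Nat.cast_le.2 card_biUnion_le) ?_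
      push_cast
      exact sum_le_sum h1
    refine h3.trans ?_
    have h4 : (x : ℝ) / y ≤ x / L ^ (E - 1) := div_le_div_of_nonneg_left hx0.le (hLp0 _) hyge2
    calc (#T0 : ℝ) * (16 * d ^ 2 * (x / y) * L ^ (2 * (A + 1)))
        ≤ (2 * L ^ (2 * (A + 1) + 1)) * (16 * d ^ 2 * (x / L ^ (E - 1)) * L ^ (2 * (A + 1))) := by gcongr
      _ = (32 * d ^ 2) * (x * (L ^ (2 * (A + 1) + 2 * (A + 1) + 1) / L ^ (E - 1))) := by ring
      _ ≤ L * (x * (L ^ (2 * (A + 1) + 2 * (A + 1) + 1) / L ^ (E - 1))) := by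
          apply mul_le_mul_of_nonneg_right _ (by positivity)
          linarith
      _ = x * (L ^ (2 * (A + 1) + 2 * (A + 1) + 2) / L ^ (E - 1)) := by ring
      _ ≤ x * (1 / L ^ U) := by
          apply mul_le_mul_of_nonneg_left _ hx0.le
          rw [div_le_div_iff₀ (hLp0 _) (hLp0 _), one_mul, ← pow_add]
          exact hLL (by omega)
      _ = x / L ^ U := by ring
  · intro t ht htB z hyz hz
    have hz1 : 1 ≤ z := by omega
    have hzr : (1 : ℝ) ≤ z := by exact_mod_cast hz1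
    have hyzr : (y : ℝ) ≤ z := by exact_mod_cast hyz
    obtain ⟨j, hj1, hj2, hj3⟩ := grid γ hγ2 z hz1
    have hγ4 : (4 : ℝ) ≤ γ ^ 2 := by nlinarith
    have hy8 : (8 : ℝ) ≤ y := by
      have h1 : L ≤ L ^ (E - 1) := le_self_pow₀ hL1 (by omega)
      linarith
    have hzγ : (z : ℝ) / γ ^ 2 ≤ z / 4 := div_le_div_of_nonneg_left (by linarith) (by norm_num) hγ4
    have hdA : 8 * d * (1 / γ ^ 2 + 1 / y) ≤ 1 / (2 * L ^ A) := by
      have h1 : 1 / γ ^ 2 ≤ 1 / L ^ (A + 1) := by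
        apply one_div_le_one_div_of_le (hLp0 _)
        rw [hγ, ← pow_mul]
        exact hLL (by omega)
      have h2 : 1 / (y : ℝ) ≤ 1 / L ^ (A + 1) := by
        apply one_div_le_one_div_of_le (hLp0 _)
        exact (hLL (by omega)).trans hyge2
      have h3 : 32 * d ≤ L := by linarith
      calc 8 * d * (1 / γ ^ 2 + 1 / y) ≤ 8 * d * (1 / L ^ (A + 1) + 1 / L ^ (A + 1)) := by gcongr
        _ = (32 * d) * (1 / (2 * L ^ (A + 1))) := by field_simp; norm_num
        _ ≤ L * (1 / (2 * L ^ (A + 1))) := mul_le_mul_of_nonneg_right h3 (by positivity)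
        _ = 1 / (2 * L ^ A) := by
            rw [pow_succ]
            have := (hLp0 A).ne'
            field_simp
    rcases Nat.lt_or_ge (gr γ j) y with hlt | hge
    · -- close to `y`
      have h1 := short_tail F t y z hd hylc hl0 hy1 hyz
      rw [← hdd] at h1
      have hltr : (gr γ j : ℝ) ≤ y := by exact_mod_cast hlt.le
      have h2 : (z : ℝ) ≤ 2 * y := by linarith
      have h3 : ((z : ℝ) - y) / y ≤ 2 * (1 / γ ^ 2 + 1 / y) := by
        rw [div_le_iff₀ (by linarith)]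
        have h4 : (z : ℝ) - y ≤ z / γ ^ 2 + 1 := by linarith
        have h5 : (z : ℝ) / γ ^ 2 ≤ 2 * y / γ ^ 2 := div_le_div_of_nonneg_right h2 (by positivity)
        have h6 : 2 * (1 / γ ^ 2 + 1 / (y : ℝ)) * y = 2 * y / γ ^ 2 + 2 := by
          field_simp
        rw [h6]
        linarith
      have h4 : 2 * d * (((z : ℝ) - y) / y) ≤ 2 * d * (2 * (1 / γ ^ 2 + 1 / y)) :=
        mul_le_mul_of_nonneg_left h3 (by linarith)
      have h5 : 2 * d * (2 * (1 / γ ^ 2 + 1 / (y : ℝ))) ≤ 8 * d * (1 / γ ^ 2 + 1 / y) := by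
        have : 0 ≤ d * (1 / γ ^ 2 + 1 / (y : ℝ)) := by positivity
        linarith
      have h6 : 1 / (2 * L ^ A) ≤ 1 / L ^ A := by
        apply one_div_le_one_div_of_le (hLp0 _)
        have := hLp0 A
        linarith
      linarith
    · have hger : (y : ℝ) ≤ gr γ j := by exact_mod_cast hge
      have hg1 : 1 ≤ gr γ j := by omega
      have hjT : j ∈ T0 := by
        rw [hT0, mem_filter, mem_range]
        refine ⟨?_, hge, le_trans (Nat.pow_le_pow_left hj2 3) hz⟩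
        rw [Nat.lt_succ_iff, hJ]
        apply Nat.le_floor
        refine hj1.trans ?_
        apply mul_le_mul_of_nonneg_left _ (by positivity)
        rw [hLd]
        apply Real.log_le_log (by linarith)
        have : z ≤ x := le_trans (Nat.le_self_pow (by norm_num) z) hz
        exact_mod_cast this
      have h1 : |∑ p ∈ (Ioc y (gr γ j)).filter Nat.Prime, xp F t p| ≤ τ := by
        by_contra hcon
        push Not at hcon
        apply htB
        rw [mem_biUnion]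
        exact ⟨j, hjT, by rw [hbad, mem_filter]; exact ⟨ht, hcon⟩⟩
      have h2 := short_tail F t (gr γ j) z hd (by omega) hl0 hg1 hj2
      rw [← hdd] at h2
      have hsplit : ∑ p ∈ (Ioc y z).filter Nat.Prime, xp F t p =
          ∑ p ∈ (Ioc y (gr γ j)).filter Nat.Prime, xp F t p + ∑ p ∈ (Ioc (gr γ j) z).filter Nat.Prime, xp F t p := by
        rw [← Ioc_union_Ioc_eq_Ioc hge hj2, filter_union, sum_union]
        apply disjoint_filter_filter
        rw [disjoint_left]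
        intro a ha hb
        rw [mem_Ioc] at ha hb
        omega
      rw [hsplit]
      refine (abs_add_le _ _).trans ?_
      have hg0 : (0 : ℝ) < gr γ j := by linarith
      have h3 : (z : ℝ) ≤ 2 * gr γ j := by linarith
      have h4 : ((z : ℝ) - gr γ j) / gr γ j ≤ 2 * (1 / γ ^ 2 + 1 / y) := by
        rw [div_le_iff₀ hg0]
        have h5 : (z : ℝ) / γ ^ 2 ≤ 2 * gr γ j / γ ^ 2 := div_le_div_of_nonneg_right h3 (by positivity)
        have h6 : 2 * gr γ j / γ ^ 2 + 1 ≤ 2 * (1 / γ ^ 2 + 1 / (y : ℝ)) * gr γ j := by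
          have h7 : 1 ≤ (gr γ j : ℝ) / y := by
            rw [one_le_div (by linarith)]; exact hger
          have h8 : 2 * (1 / γ ^ 2 + 1 / (y : ℝ)) * gr γ j = 2 * gr γ j / γ ^ 2 + 2 * (gr γ j / y) := by ring
          rw [h8]
          linarith
        linarith
      have h5 : 2 * d * (((z : ℝ) - gr γ j) / gr γ j) ≤ 2 * d * (2 * (1 / γ ^ 2 + 1 / y)) :=
        mul_le_mul_of_nonneg_left h4 (by linarith)
      have h6 : 2 * d * (2 * (1 / γ ^ 2 + 1 / (y : ℝ))) ≤ 8 * d * (1 / γ ^ 2 + 1 / y) := by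
        have : 0 ≤ d * (1 / γ ^ 2 + 1 / (y : ℝ)) := by positivity
        linarith
      have h7 : τ ≤ 1 / (2 * L ^ A) := by
        rw [hτ]
        apply one_div_le_one_div_of_le (by positivity)
        rw [pow_succ]
        have := hLp0 A
        nlinarith
      have h8 : 1 / (2 * L ^ A) + 1 / (2 * L ^ A) = 1 / L ^ A := by
        have := (hLp0 A).ne'
        field_simp
        norm_num
      linarith

/-- the product over a range of primes -/
lemma hh_mul (F : ℤ[X]) (t : ℤ) (y z : ℕ) (hyz : y ≤ z) :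
    hh F t z = hh F t y * ∏ p ∈ (Ioc y z).filter Nat.Prime, (1 - xp F t p) := by
  have hu : pz z = pz y ∪ (Ioc y z).filter Nat.Prime := by
    ext p
    rw [mem_union, mem_filter, mem_Ioc, mem_pz, mem_pz]
    constructor
    · rintro ⟨h1, h2⟩
      rcases Nat.lt_or_ge y p with h3 | h3
      · right; exact ⟨⟨h3, h1⟩, h2⟩
      · left; exact ⟨h3, h2⟩
    · rintro (⟨h1, h2⟩ | ⟨⟨h1, h2⟩, h3⟩)
      · exact ⟨by omega, h2⟩
      · exact ⟨h2, h3⟩
  have hdis : Disjoint (pz y) ((Ioc y z).filter Nat.Prime) := by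
    rw [disjoint_left]
    intro p hp hq
    rw [mem_filter, mem_Ioc] at hq
    rw [mem_pz] at hp
    omega
  have h1 : ∀ p : ℕ, p.Prime → (1 - 1 / (p : ℝ))⁻¹ * (1 - (rho F t p : ℝ) / p) = 1 - xp F t p := by
    intro p hp
    have hp2 : (2 : ℝ) ≤ p := by exact_mod_cast hp.two_le
    unfold xp
    have h3 : (p : ℝ) - 1 ≠ 0 := by linarith
    have h4 : (p : ℝ) ≠ 0 := by linarith
    have h5 : 1 - 1 / (p : ℝ) = ((p : ℝ) - 1) / p := by field_simp
    rw [h5]
    field_simp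
    ring
  unfold hh Vz
  rw [hu, prod_union hdis, prod_union hdis, mul_inv, ← prod_inv_distrib, ← prod_inv_distrib]
  have h2 : (∏ p ∈ (Ioc y z).filter Nat.Prime, (1 - 1 / (p : ℝ))⁻¹) * ∏ p ∈ (Ioc y z).filter Nat.Prime, (1 - (rho F t p : ℝ) / p) =
      ∏ p ∈ (Ioc y z).filter Nat.Prime, (1 - xp F t p) := by
    rw [← prod_mul_distrib]
    apply prod_congr rfl
    intro p hp
    exact h1 p (mem_filter.1 hp).2
  rw [← h2]
  ring

/-- the product does not depend much on the cutoff -/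
lemma hh_close (F : ℤ[X]) (t : ℤ) (y z : ℕ) (hd : 1 ≤ F.natDegree) (hl : F.leadingCoeff.natAbs ≤ y)
    (hl0 : F.leadingCoeff ≠ 0) (hyz : y ≤ z) (κ : ℝ) (hy : 8 * (F.natDegree : ℝ) ^ 2 ≤ κ * y)
    (hy4 : 4 * F.natDegree ≤ y) (hκ1 : 2 * κ ≤ 1)
    (ht : |∑ p ∈ (Ioc y z).filter Nat.Prime, xp F t p| ≤ κ) :
    |hh F t z - hh F t y| ≤ 4 * κ * hh F t y := by
  have hκ0 : 0 ≤ κ := (abs_nonneg _).trans ht
  have hd1 : (1 : ℝ) ≤ F.natDegree := by exact_mod_cast hd
  have hy1 : 1 ≤ y := by omega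
  have hyr : (0 : ℝ) < y := by exact_mod_cast hy1
  have hhy := hh_nonneg F t y hy1
  set P := (Ioc y z).filter Nat.Prime with hP
  have hxp : ∀ p ∈ P, |xp F t p| ≤ 1 / 2 ∧ (xp F t p) ^ 2 ≤ 4 * (F.natDegree : ℝ) ^ 2 * (1 / (p : ℝ) ^ 2) := by
    intro p hp
    rw [hP, mem_filter, mem_Ioc] at hp
    have h1 := xp_le F t p hp.2 hd (by omega) hl0
    have hp0 : (0 : ℝ) < p := by exact_mod_cast hp.2.pos
    constructor
    · refine h1.trans ?_
      rw [div_le_div_iff₀ hp0 (by norm_num)]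
      have : ((4 * F.natDegree : ℕ) : ℝ) ≤ p := by exact_mod_cast (by omega : 4 * F.natDegree ≤ p)
      push_cast at this
      linarith
    · rw [← sq_abs]
      refine (pow_le_pow_left₀ (abs_nonneg _) h1 2).trans (le_of_eq ?_)
      ring
  have hpos : ∀ p ∈ P, 0 < 1 - xp F t p := by
    intro p hp
    have := (abs_le.1 (hxp p hp).1).2
    linarith
  have hprod : ∏ p ∈ P, (1 - xp F t p) = Real.exp (∑ p ∈ P, Real.log (1 - xp F t p)) := by
    rw [Real.exp_sum]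
    apply prod_congr rfl
    intro p hp
    rw [Real.exp_log (hpos p hp)]
  have hlog : |∑ p ∈ P, Real.log (1 - xp F t p)| ≤ 2 * κ := by
    have h1 : ∀ p ∈ P, |xp F t p + Real.log (1 - xp F t p)| ≤ 8 * (F.natDegree : ℝ) ^ 2 * (1 / (p : ℝ) ^ 2) := by
      intro p hp
      obtain ⟨h2, h3⟩ := hxp p hp
      have h4 := Real.abs_log_sub_add_sum_range_le (x := xp F t p) (by linarith) 1
      simp only [sum_range_one, zero_add, pow_one, Nat.cast_zero, div_one] at h4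
      refine h4.trans ?_
      have h5 : |xp F t p| ^ (1 + 1) = (xp F t p) ^ 2 := by norm_num
      rw [h5, div_le_iff₀ (by linarith)]
      have h6 : 0 ≤ 8 * (F.natDegree : ℝ) ^ 2 * (1 / (p : ℝ) ^ 2) := by positivity
      have h7 : 8 * (F.natDegree : ℝ) ^ 2 * (1 / (p : ℝ) ^ 2) * (1 / 2) ≤ 8 * (F.natDegree : ℝ) ^ 2 * (1 / (p : ℝ) ^ 2) * (1 - |xp F t p|) :=
        mul_le_mul_of_nonneg_left (by linarith) h6
      linarith
    have h2 : ∑ p ∈ P, Real.log (1 - xp F t p) = ∑ p ∈ P, (xp F t p + Real.log (1 - xp F t p)) - ∑ p ∈ P, xp F t p := by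
      rw [sum_add_distrib]; ring
    rw [h2]
    refine (abs_sub _ _).trans ?_
    have h3 : |∑ p ∈ P, (xp F t p + Real.log (1 - xp F t p))| ≤ 8 * (F.natDegree : ℝ) ^ 2 * (1 / y) := by
      refine (abs_sum_le_sum_abs _ _).trans ((sum_le_sum h1).trans ?_)
      rw [← mul_sum]
      apply mul_le_mul_of_nonneg_left _ (by positivity)
      have h5 : ∑ p ∈ P, 1 / (p : ℝ) ^ 2 ≤ ∑ n ∈ Ioc y z, (1 / ((n : ℝ) - 1) - 1 / n) := by
        rw [hP]
        calc ∑ p ∈ (Ioc y z).filter Nat.Prime, 1 / (p : ℝ) ^ 2 ≤ ∑ n ∈ Ioc y z, 1 / (n : ℝ) ^ 2 :=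
              sum_le_sum_of_subset_of_nonneg (filter_subset _ _) (fun _ _ _ => by positivity)
          _ ≤ _ := by
              refine sum_le_sum fun n hn => ?_
              rw [mem_Ioc] at hn
              have h6 : (2 : ℝ) ≤ n := by exact_mod_cast (by omega : 2 ≤ n)
              have h7 : (n : ℝ) - 1 ≠ 0 := by linarith
              have h8 : (n : ℝ) ≠ 0 := by linarith
              rw [div_sub_div _ _ h7 h8, div_le_div_iff₀ (by positivity) (by apply mul_pos <;> linarith)]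
              nlinarith
      refine h5.trans ?_
      have h6 : ∀ z : ℕ, y ≤ z → ∑ n ∈ Ioc y z, (1 / ((n : ℝ) - 1) - 1 / n) = 1 / (y : ℝ) - 1 / z := by
        intro z hz
        induction z, hz using Nat.le_induction with
        | base => simp
        | succ z hz ih =>
          rw [sum_Ioc_succ_top hz, ih]
          push_cast
          ring
      rw [h6 z hyz]
      have : 0 ≤ 1 / (z : ℝ) := by positivity
      linarith
    have h4 : 8 * (F.natDegree : ℝ) ^ 2 * (1 / y) ≤ κ := by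
      rw [mul_one_div, div_le_iff₀ hyr]
      exact hy
    linarith
  have h1 := Real.abs_exp_sub_one_le (x := ∑ p ∈ P, Real.log (1 - xp F t p)) (by linarith)
  rw [hh_mul F t y z hyz, ← hP, hprod]
  have h2 : hh F t y * Real.exp (∑ p ∈ P, Real.log (1 - xp F t p)) - hh F t y =
      (Real.exp (∑ p ∈ P, Real.log (1 - xp F t p)) - 1) * hh F t y := by ring
  rw [h2, abs_mul, abs_of_nonneg hhy]
  apply mul_le_mul_of_nonneg_right _ hhy
  linarith

end Pool.Agent.TH204.WR
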