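import Pool.Agent.TH204.WR.W11
import Pool.Agent.TH204.WR.W13

/-!
The two forms of the theorem.
-/

set_option autoImplicit false

namespace Pool.Agent.TH204.WR

open Finset Polynomial Filter Topology
open Pool.Agent.TH892.SW (wt wt_nonneg)
open Pool.Agent.H373R2.T7 (pz Vz)

/-- replacing the constant by a nearby one -/
lemma swap_const (P M h0 h1 δ κ : ℝ) (hM : 0 ≤ M) (h00 : 0 < h0) (hκ : 4 * κ ≤ 1 / 2) (hδ : 0 ≤ δ)
    (hP : |P - h0 * M| ≤ δ * (h0 * M)) (hh : |h1 - h0| ≤ 4 * κ * h0) :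
    0 < h1 ∧ |P - h1 * M| ≤ (2 * δ + 8 * κ) * (h1 * M) := by
  have hκ0 : 0 ≤ κ := by
    by_contra hc
    push Not at hc
    have := (abs_nonneg _).trans hh
    nlinarith
  have h2 := (abs_le.1 hh)
  have h3 : h0 ≤ 2 * h1 := by nlinarith
  refine ⟨by linarith, ?_⟩
  have h4 : |P - h1 * M| ≤ |P - h0 * M| + |h1 - h0| * M := by
    have e : P - h1 * M = (P - h0 * M) - (h1 - h0) * M := by ring
    rw [e]
    refine (abs_sub _ _).trans ?_
    rw [abs_mul, abs_of_nonneg hM]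
  have h5 : |h1 - h0| * M ≤ 4 * κ * h0 * M := mul_le_mul_of_nonneg_right hh hM
  have h6 : h0 * M ≤ 2 * h1 * M := mul_le_mul_of_nonneg_right h3 hM
  calc |P - h1 * M| ≤ δ * (h0 * M) + 4 * κ * h0 * M := by linarith
    _ = (δ + 4 * κ) * (h0 * M) := by ring
    _ ≤ (δ + 4 * κ) * (2 * h1 * M) := mul_le_mul_of_nonneg_left h6 (by linarith)
    _ = _ := by ring

/-- the length of the windows for the second form -/
lemma len_aux (L l : ℝ) (U E C1 b' k1 : ℕ) (hl1 : 1 ≤ l) (hLl : Real.exp l = L)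
    (hk1 : k1 = E * (C1 * (C1 + 1 + 2 * (U + 2))) + (U + 2) + 2)
    (hb' : b' = C1 + ⌈2 * ((U : ℝ) + 2) * l⌉₊) :
    L ^ (E * (C1 * b') + (U + 2) + 2) ≤ Real.exp (k1 * l ^ 2) ∧
      (1 / 2 : ℝ) ^ b' ≤ 1 / L ^ (U + 1) := by
  have hU0 : (0 : ℝ) ≤ (U : ℝ) := Nat.cast_nonneg _
  have hC0 : (0 : ℝ) ≤ (C1 : ℝ) := Nat.cast_nonneg _
  have hE0 : (0 : ℝ) ≤ (E : ℝ) := Nat.cast_nonneg _
  have hb'1 : (b' : ℝ) ≤ C1 + (2 * ((U : ℝ) + 2) * l + 1) := by
    rw [hb']; push_cast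
    have := Nat.ceil_lt_add_one (show 0 ≤ 2 * ((U : ℝ) + 2) * l by positivity)
    linarith
  have hb'2 : 2 * ((U : ℝ) + 2) * l ≤ b' := by
    rw [hb']; push_cast
    have := Nat.le_ceil (2 * ((U : ℝ) + 2) * l)
    linarith
  have hpowL : ∀ n : ℕ, L ^ n = Real.exp (n * l) := by
    intro n
    rw [Real.exp_nat_mul, hLl]
  constructor
  · rw [hpowL]
    apply Real.exp_le_exp.2
    have h3 : ((E * (C1 * b') + (U + 2) + 2 : ℕ) : ℝ) ≤ (k1 : ℝ) * l := by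
      rw [hk1]
      push_cast
      have h6 : (C1 : ℝ) + (2 * ((U : ℝ) + 2) * l + 1) ≤ (C1 + 1 + 2 * ((U : ℝ) + 2)) * l := by
        have h7 : (C1 : ℝ) * 1 ≤ C1 * l := mul_le_mul_of_nonneg_left hl1 hC0
        have e : (C1 + 1 + 2 * ((U : ℝ) + 2)) * l = C1 * l + l + 2 * ((U : ℝ) + 2) * l := by ring
        rw [e]
        linarith
      have h5 : (E : ℝ) * (C1 * b') ≤ E * (C1 * ((C1 + 1 + 2 * ((U : ℝ) + 2)) * l)) :=
        mul_le_mul_of_nonneg_left (mul_le_mul_of_nonneg_left (hb'1.trans h6) hC0) hE0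
      have h8 : (((U : ℝ) + 2) + 2) * 1 ≤ (((U : ℝ) + 2) + 2) * l :=
        mul_le_mul_of_nonneg_left hl1 (by linarith)
      calc (E : ℝ) * (C1 * b') + (U + 2) + 2 ≤ E * (C1 * ((C1 + 1 + 2 * ((U : ℝ) + 2)) * l)) + (((U : ℝ) + 2) + 2) * l := by
            linarith
        _ = _ := by ring
    calc ((E * (C1 * b') + (U + 2) + 2 : ℕ) : ℝ) * l ≤ (k1 : ℝ) * l * l :=
          mul_le_mul_of_nonneg_right h3 (by linarith)
      _ = (k1 : ℝ) * l ^ 2 := by ring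
  · rw [one_div_pow]
    apply one_div_le_one_div_of_le
    · rw [hpowL]
      exact Real.exp_pos _
    rw [hpowL]
    have h4 : (2 : ℝ) ^ b' = Real.exp (b' * Real.log 2) := by
      rw [Real.exp_nat_mul, Real.exp_log (by norm_num)]
    rw [h4]
    apply Real.exp_le_exp.2
    have h5 : (0.6 : ℝ) ≤ Real.log 2 := by have := Real.log_two_gt_d9; linarith
    have h6 : (2 * ((U : ℝ) + 2) * l) * 0.6 ≤ b' * Real.log 2 :=
      mul_le_mul hb'2 h5 (by norm_num) (Nat.cast_nonneg _)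
    push_cast
    have h7 : 0 ≤ (U : ℝ) * l := mul_nonneg hU0 (by linarith)
    have e : (2 * ((U : ℝ) + 2) * l) * 0.6 = 1.2 * (U * l) + 2.4 * l := by ring
    have e2 : ((U : ℝ) + 1) * l = U * l + l := by ring
    rw [e] at h6
    rw [e2]
    linarith

theorem both (k : ℕ) (hk : 1 ≤ k) (F : ℤ[X]) (hF : F.natDegree = k + 1) (U C : ℕ) (ε : ℝ) (hε : 0 < ε) :
    ∃ B X0 : ℕ, ∀ x : ℕ, X0 ≤ x → ∃ Bad : Finset ℤ, Bad ⊆ Icc (-(x : ℤ)) x ∧
    (#Bad : ℝ) ≤ x / Real.log x ^ U ∧ ∀ t ∈ Icc (-(x : ℤ)) x, t ∉ Bad →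
    (∀ p : ℕ, p.Prime → rho F t p < p) →
    ∀ z : ℕ, Real.log x ^ B ≤ z → z ^ 3 ≤ x → 0 < hh F t z ∧
    ∀ a₁ b₁ : ℤ, a₁ < b₁ →
      (∀ m ∈ Ioc a₁ b₁, 2 ≤ F.eval m + t ∧
        ((F.eval m + t : ℤ) : ℝ) ≤ ((b₁ : ℝ) - a₁) * (rt k x ^ k * Real.log x ^ C)) →
      (Real.log x ^ B ≤ (b₁ : ℝ) - a₁ →
        |(#((Ioc a₁ b₁).filter (fun m => (F.eval m + t).natAbs.Prime)) : ℝ) -
          hh F t z * ∑ m ∈ Ioc a₁ b₁, wt (F.eval m + t).natAbs| ≤
        ε * (hh F t z * ∑ m ∈ Ioc a₁ b₁, wt (F.eval m + t).natAbs)) ∧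
      (Real.exp (B * Real.log (Real.log x) ^ 2) ≤ (b₁ : ℝ) - a₁ →
        |(#((Ioc a₁ b₁).filter (fun m => (F.eval m + t).natAbs.Prime)) : ℝ) -
          hh F t z * ∑ m ∈ Ioc a₁ b₁, wt (F.eval m + t).natAbs| ≤
        (hh F t z * ∑ m ∈ Ioc a₁ b₁, wt (F.eval m + t).natAbs) / Real.log x ^ U) := by
  classical
  have hF0 : F ≠ 0 := by
    rintro rfl
    rw [natDegree_zero] at hF
    omega
  have hl0 : F.leadingCoeff ≠ 0 := leadingCoeff_ne_zero.2 hF0
  obtain ⟨Bf, E0, C1, hcore⟩ := core k hk F hF (U + 2) C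
  obtain ⟨E1, htail⟩ := tail_all F (by omega) (U + 2) (U + 2)
  obtain ⟨E, hE⟩ : ∃ E, E = E0 + E1 + U + 4 := ⟨_, rfl⟩
  obtain ⟨X1, hX1⟩ := hcore E (by omega)
  obtain ⟨X2, hX2⟩ := htail E (by omega)
  obtain ⟨b0, hb0⟩ := exists_pow_lt_of_lt_one (show (0 : ℝ) < ε / 8 by positivity) (show (1 / 2 : ℝ) < 1 by norm_num)
  obtain ⟨b, hb⟩ : ∃ b, b = max b0 C1 := ⟨_, rfl⟩
  have hbε : (1 / 2 : ℝ) ^ b ≤ ε / 8 :=
    (pow_le_pow_of_le_one (by norm_num) (by norm_num) (by omega)).trans hb0.le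
  obtain ⟨k0, hk0⟩ : ∃ k0, k0 = E * (C1 * b) + (U + 2) + 2 := ⟨_, rfl⟩
  obtain ⟨k1, hk1⟩ : ∃ k1, k1 = E * (C1 * (C1 + 1 + 2 * (U + 2))) + (U + 2) + 2 := ⟨_, rfl⟩
  obtain ⟨X3, hX3⟩ := eventually_atTop.1 (evt_log_ge (max (20 / ε)
    (100 + 16 * (F.natDegree : ℝ) ^ 2 + 8 * F.natDegree + F.leadingCoeff.natAbs)))
  refine ⟨Bf + k0 + k1 + E, max (max X1 X2) X3, fun x hx => ?_⟩
  obtain ⟨Bad1, hB1, hB2, hB3⟩ := hX1 x (le_trans (le_trans (le_max_left _ _) (le_max_left _ _)) hx)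
  obtain ⟨Bad2, hT1, hT2, hT3⟩ := hX2 x (le_trans (le_trans (le_max_right _ _) (le_max_left _ _)) hx)
  have hL := hX3 x (le_trans (le_max_right _ _) hx)
  clear hX1 hX2 hX3 hcore htail hx
  generalize Real.log x = L at *
  have hLε : 20 / ε ≤ L := (le_max_left _ _).trans hL
  have hLc : 100 + 16 * (F.natDegree : ℝ) ^ 2 + 8 * F.natDegree + F.leadingCoeff.natAbs ≤ L := (le_max_right _ _).trans hL
  have q1 : (0 : ℝ) ≤ (F.natDegree : ℝ) ^ 2 := by positivity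
  have q2 : (0 : ℝ) ≤ F.natDegree := Nat.cast_nonneg _
  have q3 : (0 : ℝ) ≤ F.leadingCoeff.natAbs := Nat.cast_nonneg _
  have hL100 : 100 ≤ L := by linarith
  have hL0 : 0 < L := by linarith
  have hL1 : 1 ≤ L := by linarith
  have hLp0 : ∀ n : ℕ, 0 < L ^ n := fun n => by positivity
  have hLL : ∀ {i j : ℕ}, i ≤ j → L ^ i ≤ L ^ j := fun h => pow_le_pow_right₀ hL1 h
  obtain ⟨y, hy⟩ : ∃ y, y = ⌊L ^ E⌋₊ := ⟨_, rfl⟩
  rw [← hy] at hB3 hT3
  obtain ⟨κ, hκ⟩ : ∃ κ : ℝ, κ = 1 / L ^ (U + 2) := ⟨_, rfl⟩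
  have hκ0 : 0 < κ := by rw [hκ]; exact one_div_pos.2 (hLp0 _)
  have hκL : κ ≤ 1 / L := by
    rw [hκ]
    exact one_div_le_one_div_of_le hL0 (le_self_pow₀ hL1 (by omega))
  have hκ1 : 1 / L ≤ 1 / 100 := one_div_le_one_div_of_le (by norm_num) hL100
  have hyge : L ^ E - 1 ≤ y := by
    have := Nat.lt_floor_add_one (L ^ E)
    rw [← hy] at this
    linarith
  have hyge' : L * L ^ (U + 2) ≤ y := by
    have h1 : L ^ (U + 3) * L ≤ L ^ E := by
      rw [← pow_succ]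
      exact hLL (by omega)
    have h2 : L * L ^ (U + 2) = L ^ (U + 3) := by rw [← pow_succ']
    have h3 : L ^ (U + 3) * 2 ≤ L ^ (U + 3) * L := mul_le_mul_of_nonneg_left (by linarith) (hLp0 _).le
    have h4 : 1 ≤ L ^ (U + 3) := one_le_pow₀ hL1
    rw [h2]
    linarith
  have hyL : L ≤ y := by
    have h1 : L * 1 ≤ L * L ^ (U + 2) := mul_le_mul_of_nonneg_left (one_le_pow₀ hL1) hL0.le
    linarith
  have hlc : F.leadingCoeff.natAbs ≤ y := by
    have : (F.leadingCoeff.natAbs : ℝ) ≤ y := by linarith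
    exact_mod_cast this
  have hy4 : 4 * F.natDegree ≤ y := by
    have : (4 : ℝ) * F.natDegree ≤ y := by linarith
    exact_mod_cast this
  have hy8 : 8 * (F.natDegree : ℝ) ^ 2 ≤ κ * y := by
    have h1 : κ * (L * L ^ (U + 2)) ≤ κ * y := mul_le_mul_of_nonneg_left hyge' hκ0.le
    have h2 : κ * (L * L ^ (U + 2)) = L := by
      rw [hκ]
      have := (hLp0 (U + 2)).ne'
      field_simp
    linarith
  refine ⟨Bad1 ∪ Bad2, union_subset hB1 hT1, ?_, fun t ht htB hrho => ?_⟩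
  · have h1 : (#(Bad1 ∪ Bad2) : ℝ) ≤ #Bad1 + #Bad2 := by exact_mod_cast card_union_le _ _
    have h2 : 2 * (x / L ^ (U + 2)) ≤ x / L ^ U := by
      have e1 : (x : ℝ) / L ^ U = L ^ 2 * (x / L ^ (U + 2)) := by
        rw [pow_add]
        have := (hLp0 U).ne'
        field_simp
      rw [e1]
      apply mul_le_mul_of_nonneg_right _ (by positivity)
      have h3 : (100 : ℝ) * 100 ≤ L * L := mul_le_mul hL100 hL100 (by norm_num) hL0.le
      rw [sq]
      linarith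
    linarith
  · rw [mem_union, not_or] at htB
    obtain ⟨hh0, hwin⟩ := hB3 t ht htB.1 hrho
    intro z hz hz3
    have hyz : y ≤ z := by
      rw [hy]
      apply Nat.floor_le_of_le
      exact (hLL (by omega)).trans hz
    have htl := hT3 t ht htB.2 z hyz hz3
    rw [← hκ] at htl
    have hcl := hh_close F t y z (by omega) hlc hl0 hyz κ hy8 hy4 (by linarith) htl
    have hh1 : 0 < hh F t z := by
      have := (swap_const 0 0 (hh F t y) (hh F t z) 0 κ le_rfl hh0 (by linarith) le_rfl (by simp) hcl).1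
      exact this
    refine ⟨hh1, fun a₁ b₁ hab hv => ?_⟩
    have hM : 0 ≤ ∑ m ∈ Ioc a₁ b₁, wt (F.eval m + t).natAbs := sum_nonneg fun i _ => wt_nonneg _
    have hhM : 0 ≤ hh F t z * ∑ m ∈ Ioc a₁ b₁, wt (F.eval m + t).natAbs := mul_nonneg hh1.le hM
    constructor
    · intro hBB
      have h1 := hwin b (by omega) a₁ b₁ ((hLL (by omega)).trans hBB) ((hLL (by omega)).trans hBB) hv
      have h2 := (swap_const _ _ _ _ _ κ hM hh0 (by linarith) (by positivity) h1 hcl).2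
      refine h2.trans (mul_le_mul_of_nonneg_right ?_ hhM)
      rw [← hκ]
      have h4 : 1 / L ≤ ε / 20 := by
        rw [div_le_div_iff₀ hL0 (by norm_num)]
        rw [div_le_iff₀ hε] at hLε
        linarith
      linarith
    · intro hBB
      set l := Real.log L with hl
      have hl1 : 1 ≤ l := by
        rw [hl, Real.le_log_iff_exp_le hL0]
        have := Real.exp_one_lt_d9
        linarith
      have hLl : Real.exp l = L := Real.exp_log hL0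
      obtain ⟨b', hb'⟩ : ∃ b', b' = C1 + ⌈2 * ((U : ℝ) + 2) * l⌉₊ := ⟨_, rfl⟩
      obtain ⟨hlen, hhalf⟩ := len_aux L l U E C1 b' k1 hl1 hLl hk1 hb'
      have hll : l ≤ l ^ 2 := le_self_pow₀ hl1 (by norm_num)
      have hl2 : (0 : ℝ) ≤ l ^ 2 := by positivity
      have hw1 : L ^ Bf ≤ (b₁ : ℝ) - a₁ := by
        refine le_trans ?_ hBB
        have e : L ^ Bf = Real.exp (Bf * l) := by rw [Real.exp_nat_mul, hLl]
        rw [e]
        apply Real.exp_le_exp.2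
        apply mul_le_mul _ hll (by linarith) (Nat.cast_nonneg _)
        exact_mod_cast (by omega : Bf ≤ Bf + k0 + k1 + E)
      have hw2 : L ^ (E * (C1 * b') + (U + 2) + 2) ≤ (b₁ : ℝ) - a₁ := by
        refine hlen.trans (le_trans ?_ hBB)
        apply Real.exp_le_exp.2
        apply mul_le_mul_of_nonneg_right _ hl2
        exact_mod_cast (by omega : k1 ≤ Bf + k0 + k1 + E)
      have h1 := hwin b' (by omega) a₁ b₁ hw1 hw2 hv
      have h2 := (swap_const _ _ _ _ _ κ hM hh0 (by linarith) (by positivity) h1 hcl).2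
      refine h2.trans ?_
      have hlast : 2 * (2 * (1 / 2 : ℝ) ^ b' + 1 / L ^ (U + 2)) + 8 * κ ≤ 1 / L ^ U := by
        have h3' : κ ≤ 1 / L ^ (U + 1) := by
          rw [hκ]
          exact one_div_le_one_div_of_le (hLp0 _) (hLL (by omega))
        have h4 : 14 * (1 / L ^ (U + 1)) ≤ 1 / L ^ U := by
          rw [mul_one_div, div_le_div_iff₀ (hLp0 _) (hLp0 _), pow_succ, one_mul, mul_comm]
          exact mul_le_mul_of_nonneg_left (by linarith) (hLp0 U).le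
        rw [← hκ]
        linarith
      calc _ ≤ (1 / L ^ U) * (hh F t z * ∑ m ∈ Ioc a₁ b₁, wt (F.eval m + t).natAbs) :=
            mul_le_mul_of_nonneg_right hlast hhM
        _ = _ := by ring

end Pool.Agent.TH204.WR
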