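import Pool.Agent.TH204.WR.W1

/-!
Autocorrelations by additive characters modulo `R`; autocorrelations at multiples.
-/

set_option autoImplicit false

namespace Pool.Agent.TH204.WR

open Finset
open Pool.Agent.W110.HV (cor cor_sq ES ES_cor orth mul_conj_norm)
open Pool.Agent.Helper112 (ee ls_ee_add ls_conj_ee ls_ee_zero ls_norm_ee ls_ee_int ls_ee_nat_mul)
open Pool.Agent.TH892.SW (rc rc_cor rc_zero rc_big div_sq)

/-- the exponential sum of `f` over `[1,Y]` -/
noncomputable def EE (Y : ℕ) (f : ℤ → ℝ) (α : ℝ) : ℂ := ES 1 (Y : ℤ) (fun n => (f n : ℂ)) α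

lemma fourier_rc (Y R : ℕ) (hR : 0 < R) (f : ℤ → ℝ) (h : ℤ) (hh : |h| + Y ≤ R) :
    ∑ b ∈ range R, ((‖EE Y f ((b : ℝ) / R)‖ ^ 2 : ℝ) : ℂ) * ee (-(h * ((b : ℝ) / R))) =
      R * (rc Y f h : ℂ) := by
  set I := Icc (-((Y : ℤ) - 1)) ((Y : ℤ) - 1) with hI
  have e1 : ∀ b ∈ range R, ((‖EE Y f ((b : ℝ) / R)‖ ^ 2 : ℝ) : ℂ) * ee (-(h * ((b : ℝ) / R))) =
      ∑ h' ∈ I, (rc Y f h' : ℂ) * ee (((h' - h : ℤ) : ℝ) * ((b : ℝ) / R)) := by
    intro b _
    rw [← mul_conj_norm]
    unfold EE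
    rw [← ES_cor]
    unfold ES
    rw [sum_mul]
    refine sum_congr rfl fun h' _ => ?_
    rw [rc_cor, mul_assoc, ← ls_ee_add]
    congr 2
    push_cast
    ring
  rw [sum_congr rfl e1, sum_comm]
  have e2 : ∀ h' ∈ I, ∑ b ∈ range R, (rc Y f h' : ℂ) * ee (((h' - h : ℤ) : ℝ) * ((b : ℝ) / R)) =
      if h' = h then R * (rc Y f h : ℂ) else 0 := by
    intro h' hh'
    rw [← mul_sum, orth R hR]
    by_cases hc : h' = h
    · rw [if_pos hc, hc, sub_self, if_pos (dvd_zero _)]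
      ring
    · rw [if_neg hc, if_neg, mul_zero]
      intro hd
      have h3 : h' - h ≠ 0 := sub_ne_zero.2 hc
      have h4 := Int.le_of_dvd (b := |h' - h|) (by positivity) ((dvd_abs _ _).2 hd)
      have h5 : |h' - h| ≤ |h'| + |h| := abs_sub _ _
      rw [hI, mem_Icc] at hh'
      have h6 : |h'| ≤ (Y : ℤ) - 1 := abs_le.2 hh'
      linarith
  rw [sum_congr rfl e2]
  by_cases hc : h ∈ I
  · rw [sum_ite_eq' I h, if_pos hc]
  · rw [sum_ite_eq' I h, if_neg hc, rc_big Y f h hc]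
    simp

lemma sum_rc_le {ι : Type*} (Y R : ℕ) (hR : 0 < R) (f : ℤ → ℝ) (S : Finset ι) (φ : ι → ℤ)
    (hφ : ∀ i ∈ S, |φ i| + Y ≤ R) :
    (R : ℝ) * |∑ i ∈ S, rc Y f (φ i)| ≤
      ∑ b ∈ range R, ‖EE Y f ((b : ℝ) / R)‖ ^ 2 * ‖∑ i ∈ S, ee (-(φ i * ((b : ℝ) / R)))‖ := by
  have h1 : (R : ℂ) * ((∑ i ∈ S, rc Y f (φ i) : ℝ) : ℂ) =
      ∑ b ∈ range R, ((‖EE Y f ((b : ℝ) / R)‖ ^ 2 : ℝ) : ℂ) * ∑ i ∈ S, ee (-(φ i * ((b : ℝ) / R))) := by
    simp_rw [mul_sum]
    rw [sum_comm]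
    push_cast
    rw [mul_sum]
    refine sum_congr rfl fun i hi => ?_
    rw [← fourier_rc Y R hR f (φ i) (hφ i hi)]
    push_cast
    rfl
  have h2 : (R : ℝ) * |∑ i ∈ S, rc Y f (φ i)| = ‖(R : ℂ) * ((∑ i ∈ S, rc Y f (φ i) : ℝ) : ℂ)‖ := by
    rw [norm_mul, Complex.norm_natCast, Complex.norm_real, Real.norm_eq_abs]
  rw [h2, h1]
  refine (norm_sum_le _ _).trans (sum_le_sum fun b _ => ?_)
  rw [norm_mul, Complex.norm_real, Real.norm_of_nonneg (by positivity)]

lemma norm_sq_geom (J : ℕ) (θ : ℝ) :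
    ((‖∑ j ∈ range J, ee (j * θ)‖ ^ 2 : ℝ) : ℂ) =
      ∑ j ∈ range J, ∑ j' ∈ range J, ee (-(((j' : ℝ) - j) * θ)) := by
  rw [← mul_conj_norm, map_sum, sum_mul_sum]
  refine sum_congr rfl fun j _ => sum_congr rfl fun j' _ => ?_
  rw [ls_conj_ee, ← ls_ee_add]
  congr 1
  ring

lemma sq_rc (Y R J : ℕ) (hR : 0 < R) (f : ℤ → ℝ) (w : ℤ) (hw : |w| * J + Y ≤ R) :
    ∑ b ∈ range R, ‖EE Y f ((b : ℝ) / R)‖ ^ 2 * ‖∑ j ∈ range J, ee (j * (w * ((b : ℝ) / R)))‖ ^ 2 =
      R * ∑ j ∈ range J, ∑ j' ∈ range J, rc Y f (w * ((j' : ℤ) - j)) := by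
  have h1 : (((∑ b ∈ range R, ‖EE Y f ((b : ℝ) / R)‖ ^ 2 *
      ‖∑ j ∈ range J, ee (j * (w * ((b : ℝ) / R)))‖ ^ 2 : ℝ)) : ℂ) =
      ((R * ∑ j ∈ range J, ∑ j' ∈ range J, rc Y f (w * ((j' : ℤ) - j)) : ℝ) : ℂ) := by
    have e1 : ∀ b ∈ range R, (((‖EE Y f ((b : ℝ) / R)‖ ^ 2 *
        ‖∑ j ∈ range J, ee (j * (w * ((b : ℝ) / R)))‖ ^ 2 : ℝ)) : ℂ) =
        ∑ j ∈ range J, ∑ j' ∈ range J, ((‖EE Y f ((b : ℝ) / R)‖ ^ 2 : ℝ) : ℂ) *
          ee (-(((w * ((j' : ℤ) - j) : ℤ) : ℝ) * ((b : ℝ) / R))) := by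
      intro b _
      rw [Complex.ofReal_mul, norm_sq_geom, mul_sum]
      refine sum_congr rfl fun j _ => ?_
      rw [mul_sum]
      refine sum_congr rfl fun j' _ => ?_
      congr 3
      push_cast
      ring
    rw [Complex.ofReal_sum, sum_congr rfl e1, sum_comm]
    push_cast
    rw [mul_sum]
    refine sum_congr rfl fun j hj => ?_
    rw [sum_comm, mul_sum]
    refine sum_congr rfl fun j' hj' => ?_
    have h2 := fourier_rc Y R hR f (w * ((j' : ℤ) - j)) (by
      rw [abs_mul]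
      rw [mem_range] at hj hj'
      have h3 : |(j' : ℤ) - j| ≤ J := by
        rw [abs_le]
        constructor <;> omega
      have h4 := mul_le_mul_of_nonneg_left h3 (abs_nonneg w)
      linarith)
    rw [← h2]
    push_cast
    rfl
  exact_mod_cast h1

/-- the correlations weighted with the divisor function -/
lemma div_rc (Y : ℕ) (f : ℤ → ℝ) (Z Q : ℝ) (hsup : ∀ α : ℝ, ‖EE Y f α‖ ≤ Z)
    (hQ : ∑ u ∈ Icc (1 : ℤ) Y, f u ^ 2 ≤ Q) :
    ∑ h ∈ (Icc (-((Y : ℤ) - 1)) ((Y : ℤ) - 1)).filter (fun h => h ≠ 0),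
      (h.natAbs.divisors.card : ℝ) * |rc Y f h| ≤
      √(2 * (Y * (1 + Real.log Y) ^ 4)) * √(Z ^ 2 * Q) := by
  set I := Icc (-((Y : ℤ) - 1)) ((Y : ℤ) - 1) with hI
  have h5 := Real.sum_mul_le_sqrt_mul_sqrt (I.filter (fun h => h ≠ 0))
    (fun h : ℤ => (h.natAbs.divisors.card : ℝ)) (fun h => |rc Y f h|)
  refine h5.trans ?_
  apply mul_le_mul _ _ (Real.sqrt_nonneg _) (Real.sqrt_nonneg _)
  · apply Real.sqrt_le_sqrt
    have h6 := div_sq Y
    have h7 : ∑ h ∈ I.filter (fun h => h ≠ 0), (h.natAbs.divisors.card : ℝ) ^ 2 ≤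
        ∑ j ∈ ({1, -1} : Finset ℤ) ×ˢ Icc 1 Y, ((j.2.divisors.card : ℕ) : ℝ) ^ 2 := by
      have h8 : ∀ h ∈ I.filter (fun h => h ≠ 0), (h.natAbs.divisors.card : ℝ) ^ 2 =
          (fun j : ℤ × ℕ => ((j.2.divisors.card : ℕ) : ℝ) ^ 2) (h.sign, h.natAbs) := by
        intro h _; rfl
      rw [sum_congr rfl h8, ← sum_image (s := I.filter (fun h => h ≠ 0)) (g := fun h : ℤ => (h.sign, h.natAbs))
        (f := fun j : ℤ × ℕ => ((j.2.divisors.card : ℕ) : ℝ) ^ 2)]
      · apply sum_le_sum_of_subset_of_nonneg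
        · intro j hj
          rw [mem_image] at hj
          obtain ⟨h, hh, rfl⟩ := hj
          rw [mem_filter, hI, mem_Icc] at hh
          rw [mem_product, mem_insert, mem_singleton, mem_Icc]
          refine ⟨?_, by omega, by omega⟩
          rcases lt_trichotomy h 0 with h9 | h9 | h9
          · right; exact Int.sign_eq_neg_one_of_neg h9
          · exact absurd h9 hh.2
          · left; exact Int.sign_eq_one_of_pos h9
        · intro _ _ _; positivity
      · intro h _ h' _ he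
        rw [Prod.mk.injEq] at he
        rw [← Int.sign_mul_natAbs h, ← Int.sign_mul_natAbs h', he.1, he.2]
    refine h7.trans ?_
    rw [sum_product]
    simp only []
    rw [sum_const, show #({1, -1} : Finset ℤ) = 2 from rfl, nsmul_eq_mul]
    push_cast
    linarith
  · apply Real.sqrt_le_sqrt
    have h6 := cor_sq 1 (Y : ℤ) (fun n => (f n : ℂ)) (fun n => (f n : ℂ)) Z hsup
    have h7 : ∑ h ∈ I.filter (fun h => h ≠ 0), |rc Y f h| ^ 2 ≤
        ∑ h ∈ Icc (-((Y : ℤ) - 1)) ((Y : ℤ) - 1), ‖cor 1 (Y : ℤ) (fun n => (f n : ℂ)) (fun n => (f n : ℂ)) h‖ ^ 2 := by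
      calc ∑ h ∈ I.filter (fun h => h ≠ 0), |rc Y f h| ^ 2 ≤ ∑ h ∈ I, |rc Y f h| ^ 2 :=
            sum_le_sum_of_subset_of_nonneg (filter_subset _ _) (fun _ _ _ => by positivity)
        _ = _ := by
            refine sum_congr rfl fun h _ => ?_
            rw [rc_cor, Complex.norm_real, Real.norm_eq_abs]
    have hZ : 0 ≤ Z := (norm_nonneg _).trans (hsup 0)
    refine h7.trans (h6.trans ?_)
    apply mul_le_mul_of_nonneg_left _ (sq_nonneg _)
    refine le_trans (le_of_eq ?_) hQ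
    refine sum_congr rfl fun u _ => ?_
    rw [Complex.norm_real, Real.norm_eq_abs, sq_abs]

/-- the correlations at the multiples of `w δ` for all `δ ≤ D` -/
lemma mult_rc (Y D J w : ℕ) (hw : 1 ≤ w) (f : ℤ → ℝ) (Z Q : ℝ) (hsup : ∀ α : ℝ, ‖EE Y f α‖ ≤ Z)
    (hQ : ∑ u ∈ Icc (1 : ℤ) Y, f u ^ 2 ≤ Q) :
    ∑ δ ∈ Icc 1 D, ∑ j ∈ range J, ∑ j' ∈ range J, rc Y f (((w * δ : ℕ) : ℤ) * ((j' : ℤ) - j)) ≤
      D * (J * Q) + J * (√(2 * (Y * (1 + Real.log Y) ^ 4)) * √(Z ^ 2 * Q)) := by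
  classical
  have hZ : 0 ≤ Z := (norm_nonneg _).trans (hsup 0)
  set I := Icc (-((Y : ℤ) - 1)) ((Y : ℤ) - 1) with hI
  set Sg := √(2 * (Y * (1 + Real.log Y) ^ 4)) * √(Z ^ 2 * Q) with hSg
  -- one `j`
  have key : ∀ j ∈ range J, ∑ δ ∈ Icc 1 D, ∑ j' ∈ range J, rc Y f (((w * δ : ℕ) : ℤ) * ((j' : ℤ) - j)) ≤
      D * Q + Sg := by
    intro j hj
    rw [← sum_product']
    set P := Icc 1 D ×ˢ range J with hP
    set hf : ℕ × ℕ → ℤ := fun p => ((w * p.1 : ℕ) : ℤ) * ((p.2 : ℤ) - j) with hhf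
    show ∑ p ∈ P, rc Y f (hf p) ≤ _
    rw [← sum_filter_add_sum_filter_not P (fun p => hf p = 0)]
    have hz : ∀ p ∈ P, hf p = 0 → p.2 = j := by
      intro p hp h0
      rw [hP, mem_product, mem_Icc] at hp
      rw [hhf] at h0
      simp only at h0
      rcases mul_eq_zero.1 h0 with h1 | h1
      · exfalso
        have h2 : w * p.1 = 0 := by exact_mod_cast h1
        have h3 : 0 < w * p.1 := Nat.mul_pos (by omega) (by omega)
        omega
      · omega
    have h2 : ∑ p ∈ P.filter (fun p => hf p = 0), rc Y f (hf p) ≤ D * Q := by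
      have e2 : ∀ p ∈ P.filter (fun p => hf p = 0), rc Y f (hf p) = ∑ u ∈ Icc (1 : ℤ) Y, f u ^ 2 := by
        intro p hp
        rw [(mem_filter.1 hp).2, rc_zero]
      rw [sum_congr rfl e2, sum_const, nsmul_eq_mul]
      have h3 : ((P.filter (fun p => hf p = 0)).card : ℝ) ≤ D := by
        have h4 : (P.filter (fun p => hf p = 0)).card ≤ (Icc 1 D).card := by
          refine card_le_card_of_injOn (fun p => p.1) ?_ ?_
          · intro p hp
            rw [mem_coe, mem_filter, hP, mem_product] at hp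
            exact hp.1.1
          · intro p hp q hq hpq
            rw [mem_coe, mem_filter] at hp hq
            have h6 := hz p hp.1 hp.2
            have h7 := hz q hq.1 hq.2
            apply Prod.ext
            · exact hpq
            · rw [h6, h7]
        rw [Nat.card_Icc, Nat.add_sub_cancel] at h4
        exact_mod_cast h4
      calc _ ≤ (D : ℝ) * ∑ u ∈ Icc (1 : ℤ) Y, f u ^ 2 :=
            mul_le_mul_of_nonneg_right h3 (sum_nonneg fun _ _ => sq_nonneg _)
        _ ≤ D * Q := mul_le_mul_of_nonneg_left hQ (by positivity)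
    have h3 : ∑ p ∈ P.filter (fun p => ¬ hf p = 0), rc Y f (hf p) ≤
        ∑ h ∈ I.filter (fun h => h ≠ 0), (h.natAbs.divisors.card : ℝ) * |rc Y f h| := by
      have h4 : ∑ p ∈ P.filter (fun p => ¬ hf p = 0), rc Y f (hf p) ≤
          ∑ p ∈ P.filter (fun p => hf p ∈ I.filter (fun h => h ≠ 0)), |rc Y f (hf p)| := by
        calc ∑ p ∈ P.filter (fun p => ¬ hf p = 0), rc Y f (hf p)
            ≤ ∑ p ∈ P.filter (fun p => ¬ hf p = 0), |rc Y f (hf p)| := sum_le_sum fun _ _ => le_abs_self _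
          _ = ∑ p ∈ P.filter (fun p => hf p ∈ I.filter (fun h => h ≠ 0)), |rc Y f (hf p)| := by
              symm
              apply sum_subset
              · intro p hp
                rw [mem_filter] at hp ⊢
                exact ⟨hp.1, (mem_filter.1 hp.2).2⟩
              · intro p hp hp2
                rw [mem_filter] at hp
                rw [rc_big, abs_zero]
                intro h5
                exact hp2 (mem_filter.2 ⟨hp.1, mem_filter.2 ⟨h5, hp.2⟩⟩)
      refine h4.trans ?_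
      rw [← sum_fiberwise_of_maps_to (s := P.filter (fun p => hf p ∈ I.filter (fun h => h ≠ 0)))
        (t := I.filter (fun h => h ≠ 0)) (g := hf) (fun p hp => (mem_filter.1 hp).2)]
      refine sum_le_sum fun h hh => ?_
      calc ∑ p ∈ (P.filter (fun p => hf p ∈ I.filter (fun h => h ≠ 0))).filter (fun p => hf p = h), |rc Y f (hf p)|
          = ∑ p ∈ (P.filter (fun p => hf p ∈ I.filter (fun h => h ≠ 0))).filter (fun p => hf p = h), |rc Y f h| := by
            refine sum_congr rfl fun p hp => ?_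
            rw [(mem_filter.1 hp).2]
        _ = (((P.filter (fun p => hf p ∈ I.filter (fun h => h ≠ 0))).filter (fun p => hf p = h)).card : ℝ) * |rc Y f h| := by
            rw [sum_const, nsmul_eq_mul]
        _ ≤ (h.natAbs.divisors.card : ℝ) * |rc Y f h| := by
            apply mul_le_mul_of_nonneg_right _ (abs_nonneg _)
            have hh0 := (mem_filter.1 hh).2
            have h5 : ((P.filter (fun p => hf p ∈ I.filter (fun h => h ≠ 0))).filter (fun p => hf p = h)).card ≤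
                h.natAbs.divisors.card := by
              refine card_le_card_of_injOn (fun p => p.1) ?_ ?_
              · intro p hp
                rw [mem_coe, mem_filter] at hp
                rw [mem_coe, Nat.mem_divisors]
                refine ⟨?_, by omega⟩
                rw [← Int.natCast_dvd]
                rw [← hp.2, hhf]
                refine ⟨(w : ℤ) * ((p.2 : ℤ) - j), ?_⟩
                push_cast
                ring
              · intro p hp q hq hpq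
                rw [mem_coe, mem_filter, mem_filter, hP, mem_product, mem_Icc] at hp hq
                simp only at hpq
                have h6 : hf p = hf q := by rw [hp.2, hq.2]
                rw [hhf] at h6
                simp only at h6
                rw [hpq] at h6
                have h7 : ((w * q.1 : ℕ) : ℤ) ≠ 0 := by
                  have h8 : 0 < w * q.1 := Nat.mul_pos (by omega) (by omega)
                  exact_mod_cast h8.ne'
                have h8 := mul_left_cancel₀ h7 h6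
                apply Prod.ext
                · exact hpq
                · omega
            exact_mod_cast h5
    have h4 := div_rc Y f Z Q hsup hQ
    linarith
  have h1 : ∑ δ ∈ Icc 1 D, ∑ j ∈ range J, ∑ j' ∈ range J, rc Y f (((w * δ : ℕ) : ℤ) * ((j' : ℤ) - j)) =
      ∑ j ∈ range J, ∑ δ ∈ Icc 1 D, ∑ j' ∈ range J, rc Y f (((w * δ : ℕ) : ℤ) * ((j' : ℤ) - j)) := sum_comm
  rw [h1]
  refine (sum_le_sum key).trans (le_of_eq ?_)
  rw [sum_const, card_range, nsmul_eq_mul]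
  ring

end Pool.Agent.TH204.WR
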