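import Pool.Agent.TH204.WR.W2
import Pool.Agent.H373R2.NB.Weyl

/-!
The second moment over `k` by the inverse theorem for Weyl sums.
-/

set_option autoImplicit false

namespace Pool.Agent.TH204.WR

open Finset
open Pool.Agent.W110.HV (cor cor_sq ES ES_cor orth mul_conj_norm)
open Pool.Agent.Helper112 (ee ls_ee_add ls_conj_ee ls_ee_zero ls_norm_ee ls_ee_int ls_ee_nat_mul)
open Pool.Agent.TH892.SW (rc rc_cor rc_zero rc_big div_sq)
open Pool.Agent.H373R2.NB (Ph IW IW_all)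

lemma ee_same (x : ℝ) : Pool.Agent.Helper602.MK.ee x = ee x := rfl

lemma ee_re (x : ℝ) : (ee x).re = Real.cos (2 * Real.pi * x) := by
  unfold ee
  have : (2 * Real.pi * x * Complex.I : ℂ) = ((2 * Real.pi * x : ℝ) : ℂ) * Complex.I := by push_cast; ring
  rw [this, Complex.exp_ofReal_mul_I_re]

/-- near an integer the geometric sum is large -/
lemma geom_large (J : ℕ) (θ : ℝ) (a : ℤ) (η : ℝ) (h : |θ - a| ≤ η) (hη : 8 * (J : ℝ) * η ≤ 1) :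
    (J : ℝ) ^ 2 ≤ 4 * ‖∑ j ∈ range J, ee (j * θ)‖ ^ 2 := by
  have hη0 : 0 ≤ η := (abs_nonneg _).trans h
  have h1 : ∀ j ∈ range J, (1 / 2 : ℝ) ≤ (ee (j * θ)).re := by
    intro j hj
    rw [mem_range] at hj
    have hjr : (j : ℝ) ≤ J := by exact_mod_cast hj.le
    have e1 : ee (j * θ) = ee (j * (θ - a)) := by
      have : (j : ℝ) * θ = j * (θ - a) + ((j * a : ℤ) : ℝ) := by push_cast; ring
      rw [this, ls_ee_add, ls_ee_int, mul_one]
    rw [e1, ee_re]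
    set x : ℝ := 2 * Real.pi * (j * (θ - a)) with hx
    have hx1 : |x| ≤ 1 := by
      rw [hx, abs_mul, abs_of_pos (by positivity : (0 : ℝ) < 2 * Real.pi), abs_mul, abs_of_nonneg (Nat.cast_nonneg j)]
      have h2 : (j : ℝ) * |θ - a| ≤ 1 / 8 := by
        have h3 : (j : ℝ) * |θ - a| ≤ J * η := mul_le_mul hjr h (abs_nonneg _) (Nat.cast_nonneg _)
        linarith
      have h3 := Real.pi_lt_d2
      have h4 : 2 * Real.pi * ((j : ℝ) * |θ - a|) ≤ 2 * Real.pi * (1 / 8) :=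
        mul_le_mul_of_nonneg_left h2 (by positivity)
      linarith
    have h2 := Real.one_sub_sq_div_two_le_cos (x := x)
    have h3 : x ^ 2 ≤ 1 := by
      rw [← sq_abs]
      exact pow_le_one₀ (abs_nonneg _) hx1
    linarith
  have h2 : (J : ℝ) * (1 / 2) ≤ (∑ j ∈ range J, ee (j * θ)).re := by
    rw [Complex.re_sum]
    calc (J : ℝ) * (1 / 2) = ∑ _j ∈ range J, (1 / 2 : ℝ) := by rw [sum_const, card_range, nsmul_eq_mul]
      _ ≤ _ := sum_le_sum h1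
  have h3 := Complex.re_le_norm (∑ j ∈ range J, ee (j * θ))
  have h4 : (J : ℝ) * (1 / 2) ≤ ‖∑ j ∈ range J, ee (j * θ)‖ := h2.trans h3
  have h5 := pow_le_pow_left₀ (by positivity) h4 2
  nlinarith

lemma geom_neg (J : ℕ) (θ : ℝ) : ‖∑ j ∈ range J, ee (j * (-θ))‖ = ‖∑ j ∈ range J, ee (j * θ)‖ := by
  have h1 : ∑ j ∈ range J, ee (j * (-θ)) = (starRingEnd ℂ) (∑ j ∈ range J, ee (j * θ)) := by
    rw [map_sum]
    refine sum_congr rfl fun j _ => ?_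
    rw [ls_conj_ee]
    congr 1
    ring
  rw [h1, RCLike.norm_conj]

/-- Weyl sums are small or bounded by a sum of Fejer kernels at the multiples of the leading coefficient -/
lemma weyl_one (k : ℕ) (hk : 1 ≤ k) : ∃ c m : ℕ, 1 ≤ c ∧ ∀ (M N J : ℕ) (u α : ℝ) (φ : ℕ → ℝ),
    1 ≤ M → N ≤ M → 1 ≤ J → 1 ≤ u → Ph k α φ → 8 * (J : ℝ) * (c * u ^ m) ≤ (M : ℝ) ^ k →
    ‖∑ n ∈ range N, ee (φ n)‖ ≤ M / u + M * ∑ q ∈ Icc 1 ⌊c * u ^ m⌋₊,
      4 / (J : ℝ) ^ 2 * ‖∑ j ∈ range J, ee (j * (q * α))‖ ^ 2 := by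
  obtain ⟨c, m0, hc, hI⟩ := IW_all k hk
  refine ⟨c, m0 + k, hc, fun M N J u α φ hM hNM hJ hu hφ hJM => ?_⟩
  have hM0 : (0 : ℝ) < M := by exact_mod_cast hM
  have hu0 : 0 < u := by linarith
  have hJ0 : (0 : ℝ) < J := by exact_mod_cast hJ
  have hc1 : (1 : ℝ) ≤ c := by exact_mod_cast hc
  have hpos : ∀ q ∈ Icc 1 ⌊(c : ℝ) * u ^ (m0 + k)⌋₊, 0 ≤ 4 / (J : ℝ) ^ 2 * ‖∑ j ∈ range J, ee (j * (q * α))‖ ^ 2 :=
    fun q _ => by positivity
  have hsum0 := sum_nonneg hpos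
  rcases le_or_gt ‖∑ n ∈ range N, ee (φ n)‖ (M / u) with hle | hgt
  · have : 0 ≤ (M : ℝ) * ∑ q ∈ Icc 1 ⌊(c : ℝ) * u ^ (m0 + k)⌋₊, 4 / (J : ℝ) ^ 2 * ‖∑ j ∈ range J, ee (j * (q * α))‖ ^ 2 :=
      mul_nonneg hM0.le hsum0
    linarith
  · have htriv : ‖∑ n ∈ range N, ee (φ n)‖ ≤ N := by
      refine (norm_sum_le _ _).trans (le_of_eq ?_)
      simp [ls_norm_ee]
    have hNu : (M : ℝ) / u ≤ N := by linarith
    have hN0 : (0 : ℝ) < N := lt_of_lt_of_le (by positivity) hNu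
    have hN1 : 1 ≤ N := by exact_mod_cast hN0
    have hNMr : (N : ℝ) ≤ M := by exact_mod_cast hNM
    have hbig : (N : ℝ) ≤ u * ‖∑ n ∈ range N, ee (φ n)‖ := by
      rw [div_lt_iff₀ hu0] at hgt
      linarith
    obtain ⟨q, hq1, hq2, a, ha⟩ := hI N u α φ hN1 hu hφ hbig
    have hpw : u ^ m0 ≤ u ^ (m0 + k) := pow_le_pow_right₀ hu (by omega)
    have hqP : q ∈ Icc 1 ⌊(c : ℝ) * u ^ (m0 + k)⌋₊ := by
      rw [mem_Icc]
      refine ⟨hq1, Nat.le_floor (hq2.trans ?_)⟩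
      exact mul_le_mul_of_nonneg_left hpw (by linarith)
    have hη : (c : ℝ) * u ^ m0 / (N : ℝ) ^ k ≤ c * u ^ (m0 + k) / (M : ℝ) ^ k := by
      have h1 : ((M : ℝ) / u) ^ k ≤ (N : ℝ) ^ k := pow_le_pow_left₀ (by positivity) hNu k
      have h2 : (c : ℝ) * u ^ m0 / (N : ℝ) ^ k ≤ c * u ^ m0 / ((M : ℝ) / u) ^ k :=
        div_le_div_of_nonneg_left (by positivity) (by positivity) h1
      refine h2.trans (le_of_eq ?_)
      rw [div_pow, pow_add]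
      field_simp
    have h8 : 8 * (J : ℝ) * (c * u ^ (m0 + k) / (M : ℝ) ^ k) ≤ 1 := by
      rw [mul_div_assoc', div_le_one (by positivity)]
      exact hJM
    have h3 := geom_large J (q * α) a _ (ha.trans hη) h8
    have h4 : (1 : ℝ) ≤ 4 / (J : ℝ) ^ 2 * ‖∑ j ∈ range J, ee (j * (q * α))‖ ^ 2 := by
      rw [div_mul_eq_mul_div, le_div_iff₀ (by positivity), one_mul]
      exact h3
    have h5 := single_le_sum hpos hqP
    have h6 : (M : ℝ) * 1 ≤ M * ∑ q ∈ Icc 1 ⌊(c : ℝ) * u ^ (m0 + k)⌋₊, 4 / (J : ℝ) ^ 2 * ‖∑ j ∈ range J, ee (j * (q * α))‖ ^ 2 :=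
      mul_le_mul_of_nonneg_left (h4.trans h5) hM0.le
    have h7 : 0 ≤ (M : ℝ) / u := by positivity
    linarith

/-- **The second moment.** -/
theorem second_weyl (k : ℕ) (hk : 1 ≤ k) : ∃ c m : ℕ, 1 ≤ c ∧
    ∀ (A : ℤ) (N0 M Y D J : ℕ) (G : ℕ → ℤ) (f : ℤ → ℝ) (Z Q u : ℝ) (I : Finset ℤ),
    A ≠ 0 → 1 ≤ M → 1 ≤ J → 1 ≤ u → 8 * (J : ℝ) * (c * u ^ m) ≤ (M : ℝ) ^ k →
    (∀ n δ, N0 ≤ n → n + δ ≤ M → D < δ → (Y : ℤ) ≤ |G (n + δ) - G n|) →
    (∀ (δ : ℕ) (γ : ℝ), Ph k (γ * ((A : ℝ) * δ)) (fun n => γ * ((G (N0 + n + δ) - G (N0 + n) : ℤ) : ℝ))) →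
    (∀ α : ℝ, ‖EE Y f α‖ ≤ Z) → (∑ y ∈ Icc (1 : ℤ) Y, f y ^ 2 ≤ Q) →
    ∑ t ∈ I, TT G N0 M Y f t ^ 2 ≤
      ((M : ℝ) + 1) * Q + 2 * (D * (M / u * Q) + M * ((c * u ^ m) * (4 / (J : ℝ) ^ 2 *
        (D * (J * Q) + J * (√(2 * (Y * (1 + Real.log Y) ^ 4)) * √(Z ^ 2 * Q)))))) := by
  obtain ⟨c, m, hc, hW⟩ := weyl_one k hk
  refine ⟨c, m, hc, fun A N0 M Y D J G f Z Q u I hA hM hJ hu hJM hgap hPh hsup hQ => ?_⟩
  have hM0 : (0 : ℝ) < M := by exact_mod_cast hM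
  have hu0 : 0 < u := by linarith
  have hJ0 : (0 : ℝ) < J := by exact_mod_cast hJ
  have hc1 : (1 : ℝ) ≤ c := by exact_mod_cast hc
  have hQ0 : 0 ≤ Q := (sum_nonneg fun _ _ => sq_nonneg _).trans hQ
  have hrc0 : rc Y f 0 ≤ Q := by rw [rc_zero]; exact hQ
  have hrc00 : 0 ≤ rc Y f 0 := by rw [rc_zero]; exact sum_nonneg fun _ _ => sq_nonneg _
  set P := ⌊(c : ℝ) * u ^ m⌋₊ with hP
  have hPr : (P : ℝ) ≤ c * u ^ m := Nat.floor_le (by positivity)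
  have hA1 : 1 ≤ A.natAbs := Int.natAbs_pos.2 hA
  set Sg := √(2 * (Y * (1 + Real.log Y) ^ 4)) * √(Z ^ 2 * Q) with hSg
  have hSg0 : 0 ≤ Sg := by positivity
  refine (second_diff G N0 M Y f I).trans ?_
  -- restrict the differences
  have h1 : ∑ δ ∈ Icc 1 M, ∑ n ∈ Icc N0 (M - δ), rc Y f (G (n + δ) - G n) =
      ∑ δ ∈ Icc 1 (min D M), ∑ n ∈ Icc N0 (M - δ), rc Y f (G (n + δ) - G n) := by
    symm
    apply sum_subset
    · exact Icc_subset_Icc_right (min_le_right _ _)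
    · intro δ hδ hδ2
      rw [mem_Icc] at hδ
      apply sum_eq_zero
      intro n hn
      rw [mem_Icc] at hn
      have h2 : D < δ := by
        by_contra hcon
        apply hδ2
        rw [mem_Icc]
        exact ⟨hδ.1, le_min (by omega) hδ.2⟩
      have h3 := hgap n δ hn.1 (by omega) h2
      apply rc_big
      rw [mem_Icc]
      rintro ⟨h4, h5⟩
      have h6 : |G (n + δ) - G n| ≤ (Y : ℤ) - 1 := abs_le.2 ⟨h4, h5⟩
      linarith
  rw [h1]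
  set D' := min D M with hD'
  have hD'D : (D' : ℝ) ≤ D := by exact_mod_cast min_le_left _ _
  -- the modulus
  obtain ⟨R, hR0, hRY, hR1, hR2⟩ : ∃ R : ℕ, 0 < R ∧ Y ≤ R ∧
      (∀ δ ∈ Icc 1 D', ∀ n ∈ Icc N0 (M - δ), |G (n + δ) - G n| + Y ≤ (R : ℤ)) ∧
      (∀ δ ∈ Icc 1 D', ∀ q ∈ Icc 1 P, |(((q * A.natAbs) * δ : ℕ) : ℤ)| * J + Y ≤ R) := by
    refine ⟨1 + Y + (∑ δ ∈ Icc 1 D', ∑ n ∈ Icc N0 (M - δ), (G (n + δ) - G n).natAbs) + (P * A.natAbs) * D' * J, by omega, by omega, ?_, ?_⟩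
    · intro δ hδ n hn
      have h3 : (G (n + δ) - G n).natAbs ≤ ∑ δ ∈ Icc 1 D', ∑ n ∈ Icc N0 (M - δ), (G (n + δ) - G n).natAbs := by
        have h4 := single_le_sum (f := fun n => (G (n + δ) - G n).natAbs) (fun i _ => Nat.zero_le _) hn
        have h5 := single_le_sum (f := fun δ => ∑ n ∈ Icc N0 (M - δ), (G (n + δ) - G n).natAbs) (fun i _ => Nat.zero_le _) hδ
        exact h4.trans h5
      rw [← Int.natCast_natAbs]
      have h6 : (G (n + δ) - G n).natAbs + Y ≤ 1 + Y + (∑ δ ∈ Icc 1 D', ∑ n ∈ Icc N0 (M - δ), (G (n + δ) - G n).natAbs) + (P * A.natAbs) * D' * J := by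
        have : 0 ≤ (P * A.natAbs) * D' * J := Nat.zero_le _
        omega
      exact_mod_cast h6
    · intro δ hδ q hq
      rw [mem_Icc] at hδ hq
      have h3 : ((q * A.natAbs) * δ) * J ≤ (P * A.natAbs) * D' * J :=
        Nat.mul_le_mul_right _ (Nat.mul_le_mul (Nat.mul_le_mul_right _ hq.2) hδ.2)
      rw [abs_of_nonneg (Int.natCast_nonneg _)]
      have h6 : ((q * A.natAbs) * δ) * J + Y ≤ 1 + Y + (∑ δ ∈ Icc 1 D', ∑ n ∈ Icc N0 (M - δ), (G (n + δ) - G n).natAbs) + (P * A.natAbs) * D' * J := by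
        omega
      exact_mod_cast h6
  have hRr : (0 : ℝ) < R := by exact_mod_cast hR0
  set F : ℕ → ℕ → ℝ := fun q δ => ∑ j ∈ range J, ∑ j' ∈ range J, rc Y f ((((q * A.natAbs) * δ : ℕ) : ℤ) * ((j' : ℤ) - j)) with hF
  have hpars : ∑ b ∈ range R, ‖EE Y f ((b : ℝ) / R)‖ ^ 2 = R * rc Y f 0 := by
    have h3 := sq_rc Y R 1 hR0 f 0 (by
      rw [abs_zero, zero_mul, zero_add]
      exact_mod_cast hRY)
    simpa [ls_ee_zero] using h3
  -- one difference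
  have hone : ∀ δ ∈ Icc 1 D', ∑ n ∈ Icc N0 (M - δ), rc Y f (G (n + δ) - G n) ≤
      M / u * Q + M * ∑ q ∈ Icc 1 P, 4 / (J : ℝ) ^ 2 * F q δ := by
    intro δ hδ
    have hδ' := mem_Icc.1 hδ
    have hδM : δ ≤ M := hδ'.2.trans (min_le_right _ _)
    have h3 := sum_rc_le Y R hR0 f (Icc N0 (M - δ)) (fun n => G (n + δ) - G n) (hR1 δ hδ)
    have h4 : ∀ b ∈ range R, ‖∑ n ∈ Icc N0 (M - δ), ee (-(((G (n + δ) - G n : ℤ) : ℝ) * ((b : ℝ) / R)))‖ ≤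
        M / u + M * ∑ q ∈ Icc 1 P, 4 / (J : ℝ) ^ 2 *
          ‖∑ j ∈ range J, ee (j * (((((q * A.natAbs) * δ : ℕ) : ℤ) : ℝ) * ((b : ℝ) / R)))‖ ^ 2 := by
      intro b _
      have e1 : Icc N0 (M - δ) = Ico N0 (M - δ + 1) := by
        ext n; rw [mem_Icc, mem_Ico]; omega
      have e2 : ∑ n ∈ Icc N0 (M - δ), ee (-(((G (n + δ) - G n : ℤ) : ℝ) * ((b : ℝ) / R))) =
          ∑ i ∈ range (M - δ + 1 - N0), ee ((-((b : ℝ) / R)) * ((G (N0 + i + δ) - G (N0 + i) : ℤ) : ℝ)) := by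
        rw [e1, sum_Ico_eq_sum_range]
        refine sum_congr rfl fun i _ => ?_
        congr 1
        ring
      rw [e2]
      have h5 := hW M (M - δ + 1 - N0) J u _ _ hM (by omega) hJ hu (hPh δ (-((b : ℝ) / R))) hJM
      refine h5.trans (le_of_eq ?_)
      congr 2
      refine sum_congr rfl fun q _ => ?_
      have e4 : ‖∑ j ∈ range J, ee (j * (q * (-((b : ℝ) / R) * ((A : ℝ) * δ))))‖ =
          ‖∑ j ∈ range J, ee (j * (((((q * A.natAbs) * δ : ℕ) : ℤ) : ℝ) * ((b : ℝ) / R)))‖ := by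
        rcases lt_or_gt_of_ne hA with hneg | hpos
        · have e3 : (A : ℝ) = -((A.natAbs : ℕ) : ℝ) := by
            rw [Nat.cast_natAbs, abs_of_neg hneg]
            push_cast
            ring
          congr 1
          refine sum_congr rfl fun j _ => ?_
          congr 1
          rw [Int.cast_natCast, Nat.cast_mul, Nat.cast_mul, e3]
          ring
        · have e3 : (A : ℝ) = ((A.natAbs : ℕ) : ℝ) := by
            rw [Nat.cast_natAbs, abs_of_pos hpos]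
          rw [← geom_neg]
          congr 1
          refine sum_congr rfl fun j _ => ?_
          congr 1
          rw [Int.cast_natCast, Nat.cast_mul, Nat.cast_mul, e3]
          ring
      rw [e4]
    have h5 : ∑ b ∈ range R, ‖EE Y f ((b : ℝ) / R)‖ ^ 2 * ‖∑ n ∈ Icc N0 (M - δ), ee (-(((G (n + δ) - G n : ℤ) : ℝ) * ((b : ℝ) / R)))‖ ≤
        R * (M / u * rc Y f 0 + M * ∑ q ∈ Icc 1 P, 4 / (J : ℝ) ^ 2 * F q δ) := by
      refine (sum_le_sum fun b hb => mul_le_mul_of_nonneg_left (h4 b hb) (by positivity)).trans (le_of_eq ?_)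
      simp_rw [mul_add]
      rw [sum_add_distrib]
      congr 1
      · rw [← sum_mul, hpars]; ring
      · simp_rw [mul_sum]
        rw [sum_comm]
        refine sum_congr rfl fun q hq => ?_
        have h6 := sq_rc Y R J hR0 f (((q * A.natAbs) * δ : ℕ) : ℤ) (hR2 δ hδ q hq)
        have h7 : ∑ b ∈ range R, ‖EE Y f ((b : ℝ) / R)‖ ^ 2 * (M * (4 / (J : ℝ) ^ 2 *
            ‖∑ j ∈ range J, ee (j * (((((q * A.natAbs) * δ : ℕ) : ℤ) : ℝ) * ((b : ℝ) / R)))‖ ^ 2)) =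
            (M * (4 / (J : ℝ) ^ 2)) * ∑ b ∈ range R, ‖EE Y f ((b : ℝ) / R)‖ ^ 2 *
            ‖∑ j ∈ range J, ee (j * (((((q * A.natAbs) * δ : ℕ) : ℤ) : ℝ) * ((b : ℝ) / R)))‖ ^ 2 := by
          rw [mul_sum]
          refine sum_congr rfl fun b _ => ?_
          ring
        rw [h7, h6]
        simp only [hF]
        ring
    have h6 : (R : ℝ) * (∑ n ∈ Icc N0 (M - δ), rc Y f (G (n + δ) - G n)) ≤
        R * (M / u * rc Y f 0 + M * ∑ q ∈ Icc 1 P, 4 / (J : ℝ) ^ 2 * F q δ) := by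
      refine le_trans ?_ (h3.trans h5)
      exact mul_le_mul_of_nonneg_left (le_abs_self _) hRr.le
    have h7 := le_of_mul_le_mul_left h6 hRr
    have h8 : (M : ℝ) / u * rc Y f 0 ≤ M / u * Q := mul_le_mul_of_nonneg_left hrc0 (by positivity)
    linarith
  have hsumF : ∀ q ∈ Icc 1 P, ∑ δ ∈ Icc 1 D', F q δ ≤ D * (J * Q) + J * Sg := by
    intro q hq
    rw [mem_Icc] at hq
    have h3 := mult_rc Y D' J (q * A.natAbs) (Nat.mul_pos (by omega) hA1) f Z Q hsup hQ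
    refine h3.trans ?_
    have h4 : (D' : ℝ) * (J * Q) ≤ D * (J * Q) := mul_le_mul_of_nonneg_right hD'D (by positivity)
    linarith
  have hfin : ∑ δ ∈ Icc 1 D', ∑ n ∈ Icc N0 (M - δ), rc Y f (G (n + δ) - G n) ≤
      D * (M / u * Q) + M * ((c * u ^ m) * (4 / (J : ℝ) ^ 2 * (D * (J * Q) + J * Sg))) := by
    refine (sum_le_sum hone).trans ?_
    rw [sum_add_distrib, sum_const, Nat.card_Icc, Nat.add_sub_cancel, nsmul_eq_mul, ← mul_sum, sum_comm]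
    have h3 : (D' : ℝ) * (M / u * Q) ≤ D * (M / u * Q) := mul_le_mul_of_nonneg_right hD'D (by positivity)
    have h4 : ∑ q ∈ Icc 1 P, ∑ δ ∈ Icc 1 D', 4 / (J : ℝ) ^ 2 * F q δ ≤
        (c * u ^ m) * (4 / (J : ℝ) ^ 2 * (D * (J * Q) + J * Sg)) := by
      have h5 : ∀ q ∈ Icc 1 P, ∑ δ ∈ Icc 1 D', 4 / (J : ℝ) ^ 2 * F q δ ≤ 4 / (J : ℝ) ^ 2 * (D * (J * Q) + J * Sg) := by
        intro q hq
        rw [← mul_sum]
        exact mul_le_mul_of_nonneg_left (hsumF q hq) (by positivity)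
      refine (sum_le_sum h5).trans ?_
      rw [sum_const, Nat.card_Icc, Nat.add_sub_cancel, nsmul_eq_mul]
      exact mul_le_mul_of_nonneg_right hPr (by positivity)
    have h5 := mul_le_mul_of_nonneg_left h4 hM0.le
    linarith
  have h9 : ((M : ℝ) + 1) * rc Y f 0 ≤ (M + 1) * Q := mul_le_mul_of_nonneg_left hrc0 (by positivity)
  linarith

end Pool.Agent.TH204.WR
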