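import Pool.Agent.H373R2.NB.Weyl

/-!
Growth of integer polynomials on the natural numbers, and the phases of their differences.
-/

set_option autoImplicit false

namespace Pool.Agent.TH204.WR

open Finset Polynomial Filter
open Pool.Agent.H373R2.NB (Ph Ph_poly)

/-- top coefficients of a Taylor shift -/
lemma taylor_top (d : ℕ) (f : ℤ[X]) (hf : f.natDegree ≤ d + 1) (h : ℤ) (j : ℕ) (hj : d ≤ j) :
    (taylor h f).coeff j = f.coeff j + (if j = d then ((d : ℤ) + 1) * f.coeff (d + 1) * h else 0) := by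
  rw [taylor_coeff]
  have h1 : (hasseDeriv j f).natDegree < 2 := by
    have := natDegree_hasseDeriv_le f j
    omega
  rw [eval_eq_sum_range' h1, sum_range_succ, sum_range_succ, sum_range_zero, hasseDeriv_coeff, hasseDeriv_coeff]
  rcases eq_or_ne j d with h2 | h2
  · subst h2
    rw [if_pos rfl, zero_add, zero_add, Nat.choose_self, add_comm 1 j, Nat.choose_succ_self_right]
    push_cast
    ring
  · rw [if_neg h2]
    have h3 : f.coeff (1 + j) = 0 := coeff_eq_zero_of_natDegree_lt (by omega)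
    rw [h3, zero_add, zero_add, Nat.choose_self]
    push_cast
    ring

/-- the phases of the differences -/
lemma Ph_diff (k : ℕ) (P : ℤ[X]) (hP : P.natDegree = k + 1) (N0 δ : ℕ) (γ : ℝ) :
    Ph k (γ * (((((k + 1).factorial : ℤ) * P.leadingCoeff : ℤ) : ℝ) * δ))
      (fun n => γ * ((P.eval ((N0 + n + δ : ℕ) : ℤ) - P.eval ((N0 + n : ℕ) : ℤ) : ℤ) : ℝ)) := by
  set g : ℤ[X] := taylor ((N0 + δ : ℕ) : ℤ) P - taylor (N0 : ℤ) P with hg
  have hc := taylor_top k P hP.le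
  have hgd : g.natDegree ≤ k := by
    rw [natDegree_le_iff_coeff_eq_zero]
    intro j hj
    rw [hg, coeff_sub, hc _ j (by omega), hc _ j (by omega), if_neg (by omega), if_neg (by omega)]
    ring
  have hgc : g.coeff k = ((k : ℤ) + 1) * P.leadingCoeff * δ := by
    rw [hg, coeff_sub, hc _ k le_rfl, hc _ k le_rfl, if_pos rfl, if_pos rfl]
    have : P.leadingCoeff = P.coeff (k + 1) := by rw [leadingCoeff, hP]
    rw [this]
    push_cast
    ring
  have h1 := Ph_poly k g hgd γ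
  have h2 : (fun n : ℕ => γ * ((g.eval (n : ℤ) : ℤ) : ℝ)) = fun n : ℕ =>
      γ * ((P.eval ((N0 + n + δ : ℕ) : ℤ) - P.eval ((N0 + n : ℕ) : ℤ) : ℤ) : ℝ) := by
    funext n
    rw [hg, eval_sub, taylor_eval, taylor_eval]
    have e1 : (n : ℤ) + ((N0 + δ : ℕ) : ℤ) = ((N0 + n + δ : ℕ) : ℤ) := by push_cast; ring
    have e2 : (n : ℤ) + (N0 : ℤ) = ((N0 + n : ℕ) : ℤ) := by push_cast; ring
    rw [e1, e2]
  have h3 : γ * ((k.factorial : ℝ) * (g.coeff k : ℤ)) =
      γ * (((((k + 1).factorial : ℤ) * P.leadingCoeff : ℤ) : ℝ) * δ) := by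
    rw [hgc, Nat.factorial_succ]
    push_cast
    ring
  rw [h2, h3] at h1
  exact h1

/-- polynomials with a positive coefficient at the top are eventually nonnegative -/
lemma ev_nonneg (S : ℤ[X]) (e : ℕ) (he : 1 ≤ e) (hd : S.natDegree ≤ e) (hc : 0 < S.coeff e) :
    ∀ᶠ n : ℕ in atTop, 0 ≤ S.eval (n : ℤ) := by
  have hdeg : S.natDegree = e := by
    apply le_antisymm hd
    exact le_natDegree_of_ne_zero hc.ne'
  set R := S.map (Int.castRingHom ℝ) with hR
  have hinj : Function.Injective (Int.castRingHom ℝ) := Int.cast_injective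
  have hRd : R.natDegree = e := by rw [hR, natDegree_map_eq_of_injective hinj, hdeg]
  have hRl : 0 < R.leadingCoeff := by
    rw [leadingCoeff, hRd, hR, coeff_map]
    simpa using hc
  have h1 : Tendsto (fun x => R.eval x) atTop atTop := by
    apply R.tendsto_atTop_of_leadingCoeff_nonneg _ hRl.le
    rw [← natDegree_pos_iff_degree_pos]
    omega
  have h2 := (h1.comp (tendsto_natCast_atTop_atTop (R := ℝ))).eventually_ge_atTop 0
  filter_upwards [h2] with n hn
  simp only [Function.comp] at hn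
  have h3 : R.eval ((n : ℕ) : ℝ) = ((S.eval (n : ℤ) : ℤ) : ℝ) := by
    have := eval_intCast_map (Int.castRingHom ℝ) S (n : ℤ)
    simpa [hR] using this
  rw [h3] at hn
  exact_mod_cast hn

/-- growth of a polynomial of degree `k + 1 ≥ 2` -/
theorem growth (k : ℕ) (hk : 1 ≤ k) (P : ℤ[X]) (hP : P.natDegree = k + 1) : ∃ nP : ℕ, ∃ σ : ℤ, (σ = 1 ∨ σ = -1) ∧
    ∀ n : ℕ, nP ≤ n → (n : ℤ) ^ k ≤ σ * (P.eval ((n : ℤ) + 1) - P.eval (n : ℤ)) ∧
      (n : ℤ) ^ (k + 1) ≤ 2 * (σ * P.eval (n : ℤ)) ∧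
      σ * P.eval (n : ℤ) ≤ (P.leadingCoeff.natAbs + 1) * (n : ℤ) ^ (k + 1) := by
  have hP0 : P ≠ 0 := by
    intro h
    rw [h, natDegree_zero] at hP
    omega
  have hl : P.leadingCoeff ≠ 0 := leadingCoeff_ne_zero.2 hP0
  have hlc : P.leadingCoeff = P.coeff (k + 1) := by rw [leadingCoeff, hP]
  obtain ⟨σ, hσ, hσa⟩ : ∃ σ : ℤ, (σ = 1 ∨ σ = -1) ∧ σ * P.leadingCoeff = P.leadingCoeff.natAbs := by
    rcases lt_or_gt_of_ne hl with h | h
    · exact ⟨-1, Or.inr rfl, by omega⟩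
    · exact ⟨1, Or.inl rfl, by omega⟩
  have hab : 1 ≤ (P.leadingCoeff.natAbs : ℤ) := by
    have := Int.natAbs_pos.2 hl
    omega
  -- the three polynomials
  have hc := taylor_top k P hP.le 1
  have e1 := ev_nonneg (C σ * (taylor 1 P - P) - X ^ k) k hk (by
    rw [natDegree_le_iff_coeff_eq_zero]
    intro j hj
    rw [coeff_sub, coeff_C_mul, coeff_sub, hc j (by omega), if_neg (by omega), coeff_X_pow, if_neg (by omega)]
    ring) (by
    rw [coeff_sub, coeff_C_mul, coeff_sub, hc k le_rfl, if_pos rfl, coeff_X_pow, if_pos rfl, ← hlc]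
    have e : σ * (P.coeff k + ((k : ℤ) + 1) * P.leadingCoeff * 1 - P.coeff k) - 1 =
        ((k : ℤ) + 1) * (σ * P.leadingCoeff) - 1 := by ring
    rw [e, hσa]
    have : (1 : ℤ) ≤ k := by exact_mod_cast hk
    nlinarith)
  have e2 := ev_nonneg (C (2 * σ) * P - X ^ (k + 1)) (k + 1) (by omega) (by
    rw [natDegree_le_iff_coeff_eq_zero]
    intro j hj
    rw [coeff_sub, coeff_C_mul, coeff_eq_zero_of_natDegree_lt (by omega : P.natDegree < j), coeff_X_pow,
      if_neg (by omega)]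
    ring) (by
    rw [coeff_sub, coeff_C_mul, coeff_X_pow, if_pos rfl, ← hlc, mul_assoc, hσa]
    linarith)
  have e3 := ev_nonneg (C ((P.leadingCoeff.natAbs : ℤ) + 1) * X ^ (k + 1) - C σ * P) (k + 1) (by omega) (by
    rw [natDegree_le_iff_coeff_eq_zero]
    intro j hj
    rw [coeff_sub, coeff_C_mul, coeff_C_mul, coeff_eq_zero_of_natDegree_lt (by omega : P.natDegree < j), coeff_X_pow,
      if_neg (by omega)]
    ring) (by
    rw [coeff_sub, coeff_C_mul, coeff_C_mul, coeff_X_pow, if_pos rfl, ← hlc, hσa]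
    linarith)
  obtain ⟨nP, hnP⟩ := eventually_atTop.1 (e1.and (e2.and e3))
  refine ⟨nP, σ, hσ, fun n hn => ?_⟩
  obtain ⟨h1, h2, h3⟩ := hnP n hn
  simp only [eval_sub, eval_mul, eval_C, eval_pow, eval_X, taylor_eval] at h1 h2 h3
  refine ⟨by linarith, by linarith, by linarith⟩

/-- the gaps -/
lemma gap (k : ℕ) (P : ℤ[X]) (nP : ℕ) (σ : ℤ) 
    (h : ∀ n : ℕ, nP ≤ n → (n : ℤ) ^ k ≤ σ * (P.eval ((n : ℤ) + 1) - P.eval (n : ℤ))) (N0 : ℕ) (hN : nP ≤ N0)
    (n δ : ℕ) (hn : N0 ≤ n) : (δ : ℤ) * (N0 : ℤ) ^ k ≤ σ * (P.eval ((n + δ : ℕ) : ℤ) - P.eval (n : ℤ)) := by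
  induction δ with
  | zero => simp
  | succ δ ih =>
    have h1 := h (n + δ) (by omega)
    have h2 : (N0 : ℤ) ^ k ≤ ((n + δ : ℕ) : ℤ) ^ k := by
      apply pow_le_pow_left₀ (by positivity)
      exact_mod_cast (by omega : N0 ≤ n + δ)
    have e : ((n + (δ + 1) : ℕ) : ℤ) = ((n + δ : ℕ) : ℤ) + 1 := by push_cast; ring
    rw [e]
    push_cast at h1 h2 ih ⊢
    linarith

end Pool.Agent.TH204.WR
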