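import Pool.Agent.TH204.WR.W3
import Pool.Agent.TH204.WR.W4
import Pool.Agent.TH892.SW.S5

/-!
For all but few `t` the sum of the difference function over the values `P n + t` in `[1,Y]` is small.
-/

set_option autoImplicit false

namespace Pool.Agent.TH204.WR

open Finset Filter
open Pool.Agent.H373R2.T7 (pz Vz lamz)
open Pool.Agent.W110.HV (ES)
open Pool.Agent.TH892.SW (ff sup_ff sq_ff)

lemma evt_log_pow (k : ℕ) (s : ℝ) (hs : 0 < s) : ∀ᶠ x : ℕ in atTop,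
    Real.log x ^ k ≤ (x : ℝ) ^ s := by
  have h := (isLittleO_log_rpow_rpow_atTop (k : ℝ) hs).bound (show (0:ℝ) < 1 by norm_num)
  have h2 := tendsto_natCast_atTop_atTop (R := ℝ) |>.eventually h
  filter_upwards [h2, eventually_ge_atTop 1] with x hx hx1
  have hx1' : (1:ℝ) ≤ x := by exact_mod_cast hx1
  have hl : 0 ≤ Real.log x := Real.log_nonneg hx1'
  rw [Real.rpow_natCast, Real.norm_of_nonneg (by positivity), Real.norm_of_nonneg (by positivity),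
    one_mul] at hx
  exact hx

lemma evt_log_ge (M : ℝ) : ∀ᶠ x : ℕ in atTop, M ≤ Real.log x :=
  (Real.tendsto_log_atTop.comp tendsto_natCast_atTop_atTop).eventually_ge_atTop M

/-- the root of order `k + 1` -/
noncomputable def rt (k X : ℕ) : ℝ := (X : ℝ) ^ ((1 : ℝ) / (k + 1))

lemma rt_pow (k X : ℕ) : rt k X ^ (k + 1) = X := by
  unfold rt
  rw [← Real.rpow_natCast, ← Real.rpow_mul (Nat.cast_nonneg X)]
  push_cast
  rw [one_div, inv_mul_cancel₀ (by positivity), Real.rpow_one]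

lemma rt_nonneg (k X : ℕ) : 0 ≤ rt k X := by
  unfold rt
  positivity

/-- arithmetic of the second moment -/
lemma arith_T (k c m c1 c2 W a B A' : ℕ) (S L Y M D J Q Sg : ℝ) (hc : 1 ≤ c)
    (ha : a = c1 * k + c2 + 3 + W) (hB : c2 + 3 + W ≤ B) (hA' : 2 * (m * a) + c2 + 5 + W ≤ A')
    (hL : 5000 * (c : ℝ) ^ 2 * 2 ^ k ≤ L) (hSL : L ^ (2 * (m * a) + c2 + c1 * k + 3 + W) ≤ S) (hk : 1 ≤ k)
    (hY : S ^ k * L ^ B ≤ Y) (hM1 : S / 2 ≤ M) (hM2 : M + 1 ≤ 2 * (S * L ^ c2)) (hM3 : M ≤ S * L ^ c2)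
    (hD0 : 0 ≤ D) (hD : D * S ^ k ≤ Y * L ^ (c1 * k)) (hJ : M ^ k ≤ 16 * (c * (L ^ a) ^ m) * J) (hJ0 : 0 < J)
    (hQ0 : 0 ≤ Q) (hQ : Q ≤ 36 * (Y * L ^ 2)) (hSg0 : 0 ≤ Sg) (hSg : Sg ≤ Y ^ 2 * (L ^ 4 / L ^ A')) :
    (M + 1) * Q + 2 * (D * (M / (L ^ a) * Q) + M * ((c * (L ^ a) ^ m) * (4 / J ^ 2 * (D * (J * Q) + J * Sg)))) ≤
      (Y ^ 2 * (S / S ^ k)) / L ^ W := by
  have hc1 : (1 : ℝ) ≤ c := by exact_mod_cast hc
  have h2k : (1 : ℝ) ≤ 2 ^ k := one_le_pow₀ (by norm_num)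
  have hcc : (1 : ℝ) ≤ (c : ℝ) ^ 2 * 2 ^ k := one_le_mul_of_one_le_of_one_le (one_le_pow₀ hc1) h2k
  have hL1 : 1 ≤ L := by nlinarith
  have hL0 : 0 < L := by linarith
  have hLp0 : ∀ n : ℕ, 0 < L ^ n := fun n => by positivity
  have hLp : ∀ n : ℕ, 1 ≤ L ^ n := fun n => one_le_pow₀ hL1
  have hS1 : 1 ≤ S := (hLp _).trans hSL
  have hS0 : 0 < S := by linarith
  have hSk0 : 0 < S ^ k := by positivity
  have hY0 : 0 < Y := lt_of_lt_of_le (by positivity) hY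
  have hM0 : 0 < M := lt_of_lt_of_le (by positivity) hM1
  set T := Y ^ 2 * (S / S ^ k) with hT
  have hT0 : 0 < T := by positivity
  set V := L * L ^ W with hV
  have hV0 : 0 < V := by positivity
  have hMDQ : D * (M * Q) ≤ 36 * T * L ^ (c1 * k + c2 + 2) := by
    have h1 : D ≤ Y * L ^ (c1 * k) / S ^ k := by rw [le_div_iff₀ hSk0]; exact hD
    calc D * (M * Q) ≤ (Y * L ^ (c1 * k) / S ^ k) * ((S * L ^ c2) * (36 * (Y * L ^ 2))) := by gcongr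
      _ = 36 * T * L ^ (c1 * k + c2 + 2) := by rw [hT, pow_add, pow_add]; ring
  have t1 : (M + 1) * Q ≤ 72 * T / V := by
    have h1 : S * Y * L ^ B ≤ T := by
      have : S * Y * L ^ B = (S ^ k * L ^ B) * (Y * (S / S ^ k)) := by field_simp
      rw [this]
      calc (S ^ k * L ^ B) * (Y * (S / S ^ k)) ≤ Y * (Y * (S / S ^ k)) := by gcongr
        _ = T := by rw [hT]; ring
    have h2 : L ^ (c2 + 2) * V ≤ L ^ B := by
      calc L ^ (c2 + 2) * V = L ^ (c2 + 3 + W) := by rw [hV]; ring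
        _ ≤ L ^ B := pow_le_pow_right₀ hL1 hB
    rw [le_div_iff₀ hV0]
    calc (M + 1) * Q * V ≤ (2 * (S * L ^ c2)) * (36 * (Y * L ^ 2)) * V := by gcongr
      _ = 72 * (S * Y * (L ^ (c2 + 2) * V)) := by rw [pow_add]; ring
      _ ≤ 72 * (S * Y * L ^ B) := by gcongr
      _ ≤ 72 * T := by linarith
  have t2 : D * (M / (L ^ a) * Q) ≤ 36 * T / V := by
    have h1 : D * (M / (L ^ a) * Q) = D * (M * Q) / L ^ a := by ring
    rw [h1, div_le_div_iff₀ (hLp0 a) hV0]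
    have h2 : L ^ (c1 * k + c2 + 2) * V = L ^ a := by
      rw [hV, ha]; ring
    calc D * (M * Q) * V ≤ 36 * T * L ^ (c1 * k + c2 + 2) * V := by gcongr
      _ = 36 * T * (L ^ (c1 * k + c2 + 2) * V) := by ring
      _ = 36 * T * L ^ a := by rw [h2]
  set w := (c : ℝ) * (L ^ a) ^ m with hw
  have hw0 : 0 < w := by positivity
  have hw2 : w ^ 2 = (c : ℝ) ^ 2 * L ^ (2 * (m * a)) := by
    rw [hw, mul_pow, ← pow_mul, ← pow_mul]
    congr 2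
    ring
  have hwJ : w / J ≤ 16 * 2 ^ k * w ^ 2 / S ^ k := by
    rw [div_le_div_iff₀ hJ0 hSk0]
    have h1 : S ^ k ≤ 2 ^ k * M ^ k := by
      rw [← mul_pow]
      apply pow_le_pow_left₀ hS0.le
      linarith
    calc w * S ^ k ≤ w * (2 ^ k * M ^ k) := by gcongr
      _ ≤ w * (2 ^ k * (16 * w * J)) := by gcongr
      _ = 16 * 2 ^ k * w ^ 2 * J := by ring
  have e34 : M * (w * (4 / J ^ 2 * (D * (J * Q) + J * Sg))) = 4 * (w / J) * (D * (M * Q)) + 4 * (w / J) * (M * Sg) := by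
    field_simp
  have t3 : 4 * (w / J) * (D * (M * Q)) ≤ 2304 * (c ^ 2 * 2 ^ k) * T / V := by
    rw [le_div_iff₀ hV0]
    have h1 : L ^ (2 * (m * a)) * L ^ (c1 * k + c2 + 2) * V ≤ S ^ k := by
      calc L ^ (2 * (m * a)) * L ^ (c1 * k + c2 + 2) * V = L ^ (2 * (m * a) + c2 + c1 * k + 3 + W) := by
            rw [hV]; ring
        _ ≤ S := hSL
        _ ≤ S ^ k := le_self_pow₀ hS1 (by omega)
    calc 4 * (w / J) * (D * (M * Q)) * V ≤ 4 * (16 * 2 ^ k * w ^ 2 / S ^ k) * (36 * T * L ^ (c1 * k + c2 + 2)) * V := by gcongr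
      _ = 2304 * (c ^ 2 * 2 ^ k) * T * ((L ^ (2 * (m * a)) * L ^ (c1 * k + c2 + 2) * V) / S ^ k) := by rw [hw2]; ring
      _ ≤ 2304 * (c ^ 2 * 2 ^ k) * T * 1 := by
          apply mul_le_mul_of_nonneg_left _ (by positivity)
          rw [div_le_one hSk0]; exact h1
      _ = _ := mul_one _
  have t4 : 4 * (w / J) * (M * Sg) ≤ 64 * (c ^ 2 * 2 ^ k) * T / V := by
    rw [le_div_iff₀ hV0]
    have h1 : L ^ (2 * (m * a)) * L ^ c2 * L ^ 4 * V ≤ L ^ A' := by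
      calc L ^ (2 * (m * a)) * L ^ c2 * L ^ 4 * V = L ^ (2 * (m * a) + c2 + 5 + W) := by
            rw [hV]; ring
        _ ≤ L ^ A' := pow_le_pow_right₀ hL1 hA'
    calc 4 * (w / J) * (M * Sg) * V ≤ 4 * (16 * 2 ^ k * w ^ 2 / S ^ k) * ((S * L ^ c2) * (Y ^ 2 * (L ^ 4 / L ^ A'))) * V := by gcongr
      _ = 64 * (c ^ 2 * 2 ^ k) * T * ((L ^ (2 * (m * a)) * L ^ c2 * L ^ 4 * V) / L ^ A') := by rw [hw2, hT]; ring
      _ ≤ 64 * (c ^ 2 * 2 ^ k) * T * 1 := by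
          apply mul_le_mul_of_nonneg_left _ (by positivity)
          rw [div_le_one (hLp0 A')]; exact h1
      _ = _ := mul_one _
  rw [e34]
  have hfin : 72 * T / V + 2 * (36 * T / V + (2304 * (c ^ 2 * 2 ^ k) * T / V + 64 * (c ^ 2 * 2 ^ k) * T / V)) ≤ T / L ^ W := by
    have e1 : 72 * T / V + 2 * (36 * T / V + (2304 * (c ^ 2 * 2 ^ k) * T / V + 64 * (c ^ 2 * 2 ^ k) * T / V)) =
        (144 + 4736 * (c ^ 2 * 2 ^ k)) * (T / V) := by ring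
    have e2 : T / L ^ W = L * (T / V) := by
      rw [hV]
      have := (hLp0 W).ne'
      field_simp
    rw [e1, e2]
    apply mul_le_mul_of_nonneg_right _ (by positivity)
    linarith
  linarith

open Polynomial in
theorem TT_most (k : ℕ) (hk : 1 ≤ k) (P : ℤ[X]) (hP : P.natDegree = k + 1) (U1 U2 c1 c2 C : ℕ) :
    ∃ B E1 : ℕ, ∀ E : ℕ, E1 ≤ E → ∃ X0 : ℕ, ∀ x : ℕ, X0 ≤ x → ∀ Y : ℕ,
    rt k x ^ k * Real.log x ^ B ≤ Y → (Y : ℝ) ≤ x * Real.log x ^ C →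
    (((Icc (-(x : ℤ)) x).filter (fun t : ℤ => (Y : ℝ) / (rt k x ^ k * Real.log x ^ U1) <
      |TT (fun n => P.eval (n : ℤ)) ⌈rt k x / Real.log x ^ c1⌉₊ ⌊rt k x * Real.log x ^ c2⌋₊ Y
        (ff ⌊Real.log x ^ E⌋₊) t|)).card : ℝ) ≤ x / Real.log x ^ U2 := by
  classical
  obtain ⟨c, m, hc, hsec⟩ := second_weyl k hk
  obtain ⟨nP, σ, hσ, hgr⟩ := growth k hk P hP
  obtain ⟨W, hW⟩ : ∃ W, W = 2 * U1 + U2 := ⟨_, rfl⟩
  obtain ⟨a, ha⟩ : ∃ a, a = c1 * k + c2 + 3 + W := ⟨_, rfl⟩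
  obtain ⟨A, hA⟩ : ∃ A, A = 2 * (m * a) + c2 + 5 + W := ⟨_, rfl⟩
  obtain ⟨B, hB⟩ : ∃ B, B = c2 + 3 + W := ⟨_, rfl⟩
  obtain ⟨B0, hB0⟩ := sup_ff A
  refine ⟨B, B0 + 2, fun E hE => ?_⟩
  obtain ⟨N1, hN1⟩ := hB0 (E + 1)
  obtain ⟨N2, hN2⟩ := sq_ff (E + 1)
  obtain ⟨e1, he1⟩ : ∃ e1, e1 = 2 * (m * a) + c2 + c1 * k + 3 + W + C + c1 := ⟨_, rfl⟩
  have hev : ∀ᶠ x : ℕ in atTop, (5000 * (c : ℝ) ^ 2 * 2 ^ k + 2 ^ (A + E + B0 + 20) + N1 + N2 + nP + 10) ≤ Real.log x ∧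
      Real.log x ^ e1 ≤ (x : ℝ) ^ ((1 : ℝ) / (k + 1)) := by
    filter_upwards [evt_log_ge (5000 * (c : ℝ) ^ 2 * 2 ^ k + 2 ^ (A + E + B0 + 20) + N1 + N2 + nP + 10),
      evt_log_pow e1 ((1 : ℝ) / (k + 1)) (by positivity)] with x h1 h2
    exact ⟨h1, h2⟩
  obtain ⟨X0, hX0⟩ := eventually_atTop.1 hev
  refine ⟨max X0 1, fun x hx Y hY1 hY2 => ?_⟩
  obtain ⟨hL, hLS⟩ := hX0 x ((le_max_left _ _).trans hx)
  have hx1 : 1 ≤ x := (le_max_right _ _).trans hx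
  have hSr : rt k x = (x : ℝ) ^ ((1 : ℝ) / (k + 1)) := rfl
  rw [← hSr] at hLS
  have hSp := rt_pow k x
  clear hev hX0 hSr
  generalize hSd : rt k x = S at *
  generalize hLd : Real.log x = L at *
  obtain ⟨z, hz⟩ : ∃ z, z = ⌊L ^ E⌋₊ := ⟨_, rfl⟩
  have hc1 : (1 : ℝ) ≤ c := by exact_mod_cast hc
  have h2k : (1 : ℝ) ≤ 2 ^ k := one_le_pow₀ (by norm_num)
  have hN1r : (0 : ℝ) ≤ N1 := Nat.cast_nonneg _
  have hN2r : (0 : ℝ) ≤ N2 := Nat.cast_nonneg _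
  have hnPr : (0 : ℝ) ≤ nP := Nat.cast_nonneg _
  have h5000 : (0 : ℝ) ≤ 5000 * (c : ℝ) ^ 2 * 2 ^ k := by positivity
  have h2p : (0 : ℝ) < 2 ^ (A + E + B0 + 20) := by positivity
  have hp20 : ∀ a b : ℕ, a + b ≤ A + E + B0 + 20 → (2 : ℝ) ^ a * 2 ^ b ≤ L := by
    intro a b hab
    rw [← pow_add]
    have := pow_le_pow_right₀ (show (1 : ℝ) ≤ 2 by norm_num) hab
    linarith
  have hL1024 : 1024 ≤ L := by
    have := hp20 10 0 (by omega)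
    norm_num at this
    exact this
  have hL0 : 0 < L := by linarith
  have hL1 : 1 ≤ L := by linarith
  have hLp0 : ∀ n : ℕ, 0 < L ^ n := fun n => by positivity
  have hLp : ∀ n : ℕ, 1 ≤ L ^ n := fun n => one_le_pow₀ hL1
  have hLL : ∀ {i j : ℕ}, i ≤ j → L ^ i ≤ L ^ j := fun h => pow_le_pow_right₀ hL1 h
  have hxr : (1 : ℝ) ≤ x := by exact_mod_cast hx1
  have hx0 : (0 : ℝ) < x := by linarith
  have hLS' : ∀ i : ℕ, i ≤ e1 → L ^ i ≤ S := fun i hi => (hLL hi).trans hLS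
  have hLS1 : L ≤ S := by simpa using hLS' 1 (by omega)
  have hS1 : 1 ≤ S := hL1.trans hLS1
  have hS0 : 0 < S := by linarith
  have hSx : S ≤ x := by rw [← hSp]; exact le_self_pow₀ hS1 (by omega)
  have hSk1 : S ≤ S ^ k := le_self_pow₀ hS1 (by omega)
  have hSk0 : 0 < S ^ k := by positivity
  have hSY : S ^ k ≤ Y := by
    refine le_trans ?_ hY1
    exact le_mul_of_one_le_right hSk0.le (hLp B)
  have hYS : S ≤ Y := hSk1.trans hSY
  have hY0 : (0 : ℝ) < Y := by linarith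
  have hYn : 1 ≤ Y := by exact_mod_cast (hS1.trans hYS)
  -- log Y
  obtain ⟨ℓ, hℓ⟩ : ∃ ℓ, ℓ = Real.log Y := ⟨_, rfl⟩
  have hlogS : L ≤ 2 * (k * Real.log S) := by
    have h1 : L = (k + 1) * Real.log S := by
      rw [← hLd, ← hSp, Real.log_pow]
      push_cast; ring
    have h2 : 0 ≤ Real.log S := Real.log_nonneg hS1
    have h3 : (1 : ℝ) ≤ k := by exact_mod_cast hk
    rw [h1]
    have h4 := mul_nonneg (sub_nonneg.2 h3) h2
    linarith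
  have hℓ1 : L / 2 ≤ ℓ := by
    have h1 := Real.log_le_log hSk0 hSY
    rw [Real.log_pow, ← hℓ] at h1
    linarith
  have hℓ2 : ℓ ≤ 2 * L := by
    have h1 : (Y : ℝ) ≤ (x : ℝ) ^ 2 := by
      calc (Y : ℝ) ≤ x * L ^ C := hY2
        _ ≤ x * x := by
            apply mul_le_mul_of_nonneg_left _ hx0.le
            exact (hLS' C (by omega)).trans hSx
        _ = (x : ℝ) ^ 2 := by ring
    have h2 := Real.log_le_log hY0 h1
    rw [Real.log_pow, hLd, ← hℓ] at h2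
    exact_mod_cast h2
  have hℓ0 : 0 < ℓ := by linarith
  have hYN : (N1 : ℝ) + N2 ≤ Y := by
    have : L ≤ Y := hLS1.trans hYS
    linarith
  have hYN1 : N1 ≤ Y := by
    have : (N1 : ℝ) ≤ Y := by linarith
    exact_mod_cast this
  have hYN2 : N2 ≤ Y := by
    have : (N2 : ℝ) ≤ Y := by linarith
    exact_mod_cast this
  -- z
  have hzle : (z : ℝ) ≤ L ^ E := by rw [hz]; exact Nat.floor_le (by positivity)
  have hLE2 : 2 ≤ L ^ E := by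
    have : L ≤ L ^ E := le_self_pow₀ hL1 (by omega)
    linarith
  have hzge : L ^ E / 2 ≤ z := by
    have := Nat.lt_floor_add_one (L ^ E)
    rw [← hz] at this
    linarith
  have hz1 : 1 ≤ z := by
    have : (1 : ℝ) ≤ z := by linarith
    exact_mod_cast this
  have hzB : ℓ ^ B0 ≤ z := by
    calc ℓ ^ B0 ≤ (2 * L) ^ B0 := pow_le_pow_left₀ hℓ0.le hℓ2 _
      _ = 2 ^ B0 * L ^ B0 := mul_pow _ _ _
      _ ≤ (L / 2) * L ^ B0 := by
          apply mul_le_mul_of_nonneg_right _ (hLp0 _).le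
          have := hp20 B0 1 (by omega)
          linarith
      _ ≤ (L * L / 2) * L ^ B0 := by
          apply mul_le_mul_of_nonneg_right _ (hLp0 _).le
          have := mul_le_mul_of_nonneg_left hL1 hL0.le
          linarith
      _ = L ^ (B0 + 2) / 2 := by ring
      _ ≤ L ^ E / 2 := by
          have := hLL hE
          linarith
      _ ≤ z := hzge
  have hzE : (z : ℝ) ≤ ℓ ^ (E + 1) := by
    calc (z : ℝ) ≤ L ^ E := hzle
      _ ≤ (2 * ℓ) ^ E := pow_le_pow_left₀ hL0.le (by linarith) _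
      _ = 2 ^ E * ℓ ^ E := mul_pow _ _ _
      _ ≤ ℓ * ℓ ^ E := by
          apply mul_le_mul_of_nonneg_right _ (by positivity)
          have := hp20 E 1 (by omega)
          linarith
      _ = ℓ ^ (E + 1) := by ring
  have hsup := hN1 Y hYN1 z (by rw [← hℓ]; exact hzB) (by rw [← hℓ]; exact hzE)
  obtain ⟨-, hsq⟩ := hN2 Y hYN2 z hz1 (by rw [← hℓ]; exact hzE)
  rw [← hℓ] at hsup hsq
  -- the ranges
  obtain ⟨N0, hN0⟩ : ∃ N0, N0 = ⌈S / L ^ c1⌉₊ := ⟨_, rfl⟩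
  obtain ⟨M, hM⟩ : ∃ M, M = ⌊S * L ^ c2⌋₊ := ⟨_, rfl⟩
  have hN0r : S / L ^ c1 ≤ N0 := by rw [hN0]; exact Nat.le_ceil _
  have hN0L : L ≤ N0 := by
    refine le_trans ?_ hN0r
    rw [le_div_iff₀ (hLp0 _), ← pow_succ']
    exact hLS' _ (by omega)
  have hN0P : nP ≤ N0 := by
    have : (nP : ℝ) ≤ N0 := by linarith
    exact_mod_cast this
  have hN01 : 1 ≤ N0 := by
    have : (1 : ℝ) ≤ N0 := by linarith
    exact_mod_cast this
  have hM3 : (M : ℝ) ≤ S * L ^ c2 := by rw [hM]; exact Nat.floor_le (by positivity)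
  have hSLc : S ≤ S * L ^ c2 := le_mul_of_one_le_right hS0.le (hLp c2)
  have hM1 : S / 2 ≤ M := by
    have := Nat.lt_floor_add_one (S * L ^ c2)
    rw [← hM] at this
    linarith
  have hM2 : (M : ℝ) + 1 ≤ 2 * (S * L ^ c2) := by linarith
  have hMr1 : (1 : ℝ) ≤ M := by linarith
  have hMn : 1 ≤ M := by exact_mod_cast hMr1
  -- D
  obtain ⟨D, hD⟩ : ∃ D, D = Y / N0 ^ k := ⟨_, rfl⟩
  have hN0k : 0 < N0 ^ k := Nat.pow_pos hN01
  have hDS : (D : ℝ) * S ^ k ≤ Y * L ^ (c1 * k) := by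
    have h1 : D * N0 ^ k ≤ Y := by rw [hD]; exact Nat.div_mul_le_self _ _
    have h2 : (D : ℝ) * (N0 : ℝ) ^ k ≤ Y := by exact_mod_cast h1
    have h3 : S ≤ N0 * L ^ c1 := (div_le_iff₀ (hLp0 _)).1 hN0r
    calc (D : ℝ) * S ^ k ≤ D * (N0 * L ^ c1) ^ k := by gcongr
      _ = (D * (N0 : ℝ) ^ k) * L ^ (c1 * k) := by rw [mul_pow, ← pow_mul]; ring
      _ ≤ Y * L ^ (c1 * k) := by gcongr
  have hgap : ∀ n δ, N0 ≤ n → n + δ ≤ M → D < δ →
      (Y : ℤ) ≤ |(fun n : ℕ => P.eval (n : ℤ)) (n + δ) - (fun n : ℕ => P.eval (n : ℤ)) n| := by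
    intro n δ hn _ hδ
    have h1 := gap k P nP σ (fun n hn => (hgr n hn).1) N0 hN0P n δ hn
    have h2 : Y < δ * N0 ^ k := by
      rw [hD, Nat.div_lt_iff_lt_mul hN0k] at hδ
      exact hδ
    have h3 : (Y : ℤ) < (δ : ℤ) * (N0 : ℤ) ^ k := by exact_mod_cast h2
    have h4 : σ * (P.eval ((n + δ : ℕ) : ℤ) - P.eval (n : ℤ)) ≤ |P.eval ((n + δ : ℕ) : ℤ) - P.eval (n : ℤ)| := by
      rcases hσ with h | h
      · rw [h, one_mul]; exact le_abs_self _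
      · rw [h, neg_one_mul]; exact neg_le_abs _
    show (Y : ℤ) ≤ |P.eval ((n + δ : ℕ) : ℤ) - P.eval (n : ℤ)|
    linarith
  -- J
  obtain ⟨w, hw⟩ : ∃ w, w = (c : ℝ) * (L ^ a) ^ m := ⟨_, rfl⟩
  have hw1 : 1 ≤ w := by
    rw [hw]
    exact one_le_mul_of_one_le_of_one_le hc1 (one_le_pow₀ (hLp a))
  have hw0 : 0 < w := by linarith
  obtain ⟨J, hJ⟩ : ∃ J, J = ⌊(M : ℝ) ^ k / (8 * w)⌋₊ := ⟨_, rfl⟩
  have hMw : 8 * w ≤ (M : ℝ) ^ k := by
    have h1 : L ^ (m * a + 1) ≤ S := hLS' _ (by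
      rw [he1]
      have : m * a ≤ 2 * (m * a) := by omega
      omega)
    have h2 : w * L ≤ c * S := by
      calc w * L = c * L ^ (m * a + 1) := by rw [hw, ← pow_mul, mul_comm a m, pow_succ]; ring
        _ ≤ c * S := by gcongr
    have h3 : 16 * w * c ≤ w * L := by
      have h5 : 16 * (c : ℝ) ≤ L := by
        have h6 : (c : ℝ) ≤ (c : ℝ) ^ 2 := le_self_pow₀ hc1 two_ne_zero
        have h7 : (c : ℝ) ^ 2 ≤ (c : ℝ) ^ 2 * 2 ^ k := le_mul_of_one_le_right (by positivity) h2k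
        have h8 : 5000 * (c : ℝ) ^ 2 * 2 ^ k = 5000 * ((c : ℝ) ^ 2 * 2 ^ k) := by ring
        linarith
      calc 16 * w * c = w * (16 * c) := by ring
        _ ≤ w * L := by gcongr
    have h4 : 16 * w ≤ S := by
      have h6 : c * (16 * w) ≤ c * S := by linarith
      exact le_of_mul_le_mul_left h6 (by linarith)
    have h5 : (M : ℝ) ≤ (M : ℝ) ^ k := le_self_pow₀ hMr1 (by omega)
    linarith
  have hJle : (J : ℝ) ≤ (M : ℝ) ^ k / (8 * w) := by rw [hJ]; exact Nat.floor_le (by positivity)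
  have hJge1 : 1 ≤ J := by
    rw [hJ]
    apply Nat.le_floor
    rw [Nat.cast_one, le_div_iff₀ (by positivity), one_mul]
    exact hMw
  have hJr1 : (1 : ℝ) ≤ J := by exact_mod_cast hJge1
  have hJM : 8 * (J : ℝ) * (c * (L ^ a) ^ m) ≤ (M : ℝ) ^ k := by
    rw [← hw]
    rw [le_div_iff₀ (by positivity)] at hJle
    linarith
  have hJge : (M : ℝ) ^ k ≤ 16 * (c * (L ^ a) ^ m) * J := by
    rw [← hw]
    have h1 : (M : ℝ) ^ k / (8 * w) < J + 1 := by rw [hJ]; exact Nat.lt_floor_add_one _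
    rw [div_lt_iff₀ (by positivity)] at h1
    have h2 := mul_le_mul_of_nonneg_left hJr1 hw0.le
    have h3 : ((J : ℝ) + 1) * (8 * w) = 8 * (w * J) + 8 * w := by ring
    have h4 : 16 * w * J = 16 * (w * J) := by ring
    rw [h3] at h1
    rw [h4]
    linarith
  have hlc : P.leadingCoeff ≠ 0 := by
    apply leadingCoeff_ne_zero.2
    intro h
    rw [h, natDegree_zero] at hP
    omega
  have hsecond := hsec (((k + 1).factorial : ℤ) * P.leadingCoeff) N0 M Y D J (fun n => P.eval (n : ℤ)) (ff z)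
    (Y / ℓ ^ A) (9 * Y * ℓ ^ 2) (L ^ a) (Icc (-(x : ℤ)) x)
    (mul_ne_zero (by exact_mod_cast (Nat.factorial_ne_zero _)) hlc) hMn hJge1 (hLp a) hJM hgap
    (fun δ γ => Ph_diff k P hP N0 δ γ) hsup hsq
  rw [← hℓ] at hsecond
  have hQ0 : 0 ≤ 9 * (Y : ℝ) * ℓ ^ 2 := by positivity
  have hQ : 9 * (Y : ℝ) * ℓ ^ 2 ≤ 36 * (Y * L ^ 2) := by
    calc 9 * (Y : ℝ) * ℓ ^ 2 ≤ 9 * Y * (2 * L) ^ 2 := by gcongr
      _ = _ := by ring
  have hSg : √(2 * (Y * (1 + ℓ) ^ 4)) * √((Y / ℓ ^ A) ^ 2 * (9 * Y * ℓ ^ 2)) ≤ Y ^ 2 * (L ^ 4 / L ^ A) := by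
    rw [← Real.sqrt_mul (by positivity)]
    rw [show (Y : ℝ) ^ 2 * (L ^ 4 / L ^ A) = √((Y ^ 2 * (L ^ 4 / L ^ A)) ^ 2) by
      rw [Real.sqrt_sq (by positivity)]]
    apply Real.sqrt_le_sqrt
    have h3 : 1 / ℓ ^ A ≤ 2 ^ A / L ^ A := by
      rw [← div_pow, div_eq_mul_inv 2 L, ← one_div_pow]
      apply pow_le_pow_left₀ (by positivity)
      rw [← div_eq_mul_inv, div_le_div_iff₀ hℓ0 hL0]
      linarith
    have h1ℓ : 1 + ℓ ≤ 4 * L := by linarith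
    calc 2 * (Y * (1 + ℓ) ^ 4) * ((Y / ℓ ^ A) ^ 2 * (9 * Y * ℓ ^ 2))
        = 18 * (Y : ℝ) ^ 4 * (1 + ℓ) ^ 4 * ℓ ^ 2 * (1 / ℓ ^ A) ^ 2 := by ring
      _ ≤ 18 * (Y : ℝ) ^ 4 * (4 * L) ^ 4 * (2 * L) ^ 2 * (2 ^ A / L ^ A) ^ 2 := by gcongr
      _ = (Y ^ 2 * (L ^ 3 / L ^ A)) ^ 2 * (18432 * (2 ^ A) ^ 2) := by ring
      _ ≤ (Y ^ 2 * (L ^ 3 / L ^ A)) ^ 2 * L ^ 2 := by
          apply mul_le_mul_of_nonneg_left _ (by positivity)
          have h4 := hp20 A 8 (by omega)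
          calc 18432 * ((2 : ℝ) ^ A) ^ 2 ≤ 65536 * ((2 : ℝ) ^ A) ^ 2 := by
                apply mul_le_mul_of_nonneg_right (by norm_num) (by positivity)
            _ = (2 ^ A * 2 ^ 8) ^ 2 := by ring
            _ ≤ L ^ 2 := pow_le_pow_left₀ (by positivity) h4 2
      _ = (Y ^ 2 * (L ^ 4 / L ^ A)) ^ 2 := by ring
  have harith := arith_T k c m c1 c2 W a B A S L Y M D J (9 * Y * ℓ ^ 2)
    (√(2 * (Y * (1 + ℓ) ^ 4)) * √((Y / ℓ ^ A) ^ 2 * (9 * Y * ℓ ^ 2))) hc ha hB.ge hA.ge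
    (by linarith) (hLS' _ (by omega)) hk hY1 hM1 hM2 hM3 (Nat.cast_nonneg _) hDS hJge
    (by linarith) hQ0 hQ (by positivity) hSg
  have hT := hsecond.trans harith
  -- Chebyshev
  rw [← hz, ← hN0, ← hM]
  obtain ⟨τ, hτ⟩ : ∃ τ : ℝ, τ = Y / (S ^ k * L ^ U1) := ⟨_, rfl⟩
  have hτ0 : 0 < τ := by rw [hτ]; positivity
  rw [← hτ]
  obtain ⟨Fs, hFs⟩ : ∃ Fs, Fs = (Icc (-(x : ℤ)) x).filter (fun t : ℤ => τ < |TT (fun n => P.eval (n : ℤ)) N0 M Y (ff z) t|) := ⟨_, rfl⟩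
  rw [← hFs]
  have hch : (Fs.card : ℝ) * τ ^ 2 ≤ ∑ t ∈ Icc (-(x : ℤ)) x, TT (fun n => P.eval (n : ℤ)) N0 M Y (ff z) t ^ 2 := by
    calc (Fs.card : ℝ) * τ ^ 2 = ∑ t ∈ Fs, τ ^ 2 := by rw [sum_const, nsmul_eq_mul]
      _ ≤ ∑ t ∈ Fs, TT (fun n => P.eval (n : ℤ)) N0 M Y (ff z) t ^ 2 := by
          refine sum_le_sum fun t ht => ?_
          rw [hFs, mem_filter] at ht
          rw [← sq_abs (TT _ N0 M Y (ff z) t)]
          exact pow_le_pow_left₀ hτ0.le ht.2.le 2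
      _ ≤ _ := by
          rw [hFs]
          exact sum_le_sum_of_subset_of_nonneg (filter_subset _ _) (fun _ _ _ => sq_nonneg _)
  have h6 : (Fs.card : ℝ) * τ ^ 2 ≤ (Y ^ 2 * (S / S ^ k)) / L ^ W := hch.trans hT
  rw [← le_div_iff₀ (by positivity)] at h6
  refine h6.trans (le_of_eq ?_)
  rw [hτ, hW, ← hSp]
  have := (hLp0 U1).ne'
  have := (hLp0 U2).ne'
  have := hSk0.ne'
  rw [pow_add L, two_mul, pow_add L, pow_succ S k]
  field_simp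

end Pool.Agent.TH204.WR
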