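import Pool.Agent.TH204.WR.W1
import Pool.Agent.TH204.WR.W4
import Pool.Agent.TH892.SW.S7

/-!
From a grid of cutoffs to all windows.
-/

set_option autoImplicit false

namespace Pool.Agent.TH204.WR

open Finset
open Pool.Agent.TH892.SW (gr grid)

/-- a sequence with gaps at least `g` on `[N0, ∞)`, in the direction `σ` -/
def Gap (G : ℕ → ℤ) (σ : ℤ) (N0 g : ℕ) : Prop :=
  ∀ n δ : ℕ, N0 ≤ n → (δ : ℤ) * (g : ℤ) ≤ σ * (G (n + δ) - G n)

lemma gap_card (G : ℕ → ℤ) (σ : ℤ) (hσ : σ = 1 ∨ σ = -1) (N0 g : ℕ) (hg : 1 ≤ g) (hG : Gap G σ N0 g)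
    (t : ℤ) (T : Finset ℕ) (a b : ℤ) (hT : ∀ n ∈ T, N0 ≤ n ∧ a < G n + t ∧ G n + t ≤ b) (hab : a ≤ b) :
    (#T : ℝ) ≤ ((b : ℝ) - a) / g + 1 := by
  have hgr : (0 : ℝ) < g := by exact_mod_cast hg
  have habr : (a : ℝ) ≤ b := by exact_mod_cast hab
  rcases T.eq_empty_or_nonempty with h0 | h0
  · rw [h0]
    simp only [card_empty, Nat.cast_zero]
    have : 0 ≤ ((b : ℝ) - a) / g := div_nonneg (by linarith) hgr.le
    linarith
  · set x := T.min' h0 with hx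
    set y := T.max' h0 with hy
    have hxT : x ∈ T := min'_mem _ _
    have hyT : y ∈ T := max'_mem _ _
    have hxy : x ≤ y := min'_le _ _ hyT
    have h1 : #T ≤ y - x + 1 := by
      have h2 : T ⊆ Icc x y := fun n hn => mem_Icc.2 ⟨min'_le _ _ hn, le_max' _ _ hn⟩
      have h3 := card_le_card h2
      rw [Nat.card_Icc] at h3
      omega
    have h2 := hG x (y - x) (hT x hxT).1
    rw [Nat.add_sub_cancel' hxy] at h2
    have h3 : σ * (G y - G x) ≤ b - a := by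
      have h4 := hT x hxT
      have h5 := hT y hyT
      rcases hσ with h | h
      · rw [h]; linarith
      · rw [h]; linarith
    have h4 : (((y - x : ℕ) : ℤ) : ℝ) * ((g : ℤ) : ℝ) ≤ ((b - a : ℤ) : ℝ) := by exact_mod_cast h2.trans h3
    push_cast at h4
    have h5 : ((y - x : ℕ) : ℝ) ≤ ((b : ℝ) - a) / g := by
      rw [le_div_iff₀ hgr]
      exact_mod_cast h4
    calc (#T : ℝ) ≤ ((y - x + 1 : ℕ) : ℝ) := by exact_mod_cast h1
      _ = ((y - x : ℕ) : ℝ) + 1 := by push_cast; rfl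
      _ ≤ _ := by linarith

lemma TT_zero (G : ℕ → ℤ) (N0 M : ℕ) (f : ℤ → ℝ) (t : ℤ) : TT G N0 M 0 f t = 0 := by
  unfold TT
  apply sum_eq_zero
  intro n _
  apply cutf_out
  rw [mem_Icc]
  push_cast
  omega

lemma TT_diff (G : ℕ → ℤ) (N0 M Y Y' : ℕ) (hY : Y' ≤ Y) (f : ℤ → ℝ) (t : ℤ) :
    TT G N0 M Y f t - TT G N0 M Y' f t =
      ∑ n ∈ (Icc N0 M).filter (fun n => (Y' : ℤ) < G n + t ∧ G n + t ≤ Y), f (G n + t) := by
  unfold TT
  rw [← sum_sub_distrib, sum_filter]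
  refine sum_congr rfl fun n _ => ?_
  unfold cutf
  have hYz : (Y' : ℤ) ≤ Y := by exact_mod_cast hY
  have h0 : (0 : ℤ) ≤ Y' := Int.natCast_nonneg _
  by_cases h1 : 1 ≤ G n + t ∧ G n + t ≤ Y
  · rw [if_pos h1]
    by_cases h2 : G n + t ≤ Y'
    · rw [if_pos ⟨h1.1, h2⟩, if_neg (by rintro ⟨h3, _⟩; omega), sub_self]
    · rw [if_neg (by rintro ⟨_, h3⟩; exact h2 h3), if_pos ⟨by omega, h1.2⟩, sub_zero]
  · rw [if_neg h1, if_neg (by rintro ⟨h3, h4⟩; exact h1 ⟨h3, by omega⟩),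
      if_neg (by rintro ⟨h3, h4⟩; exact h1 ⟨by omega, h4⟩), sub_self]

lemma TT_diff_le (G : ℕ → ℤ) (σ : ℤ) (hσ : σ = 1 ∨ σ = -1) (N0 g : ℕ) (hg : 1 ≤ g) (hG : Gap G σ N0 g)
    (M Y Y' : ℕ) (hY : Y' ≤ Y) (f : ℤ → ℝ) (t : ℤ) (c0 : ℝ) (hf : ∀ y, |f y| ≤ c0) :
    |TT G N0 M Y f t - TT G N0 M Y' f t| ≤ c0 * (((Y : ℝ) - Y') / g + 1) := by
  have hc0 : 0 ≤ c0 := (abs_nonneg _).trans (hf 0)
  rw [TT_diff G N0 M Y Y' hY]
  refine (abs_sum_le_sum_abs _ _).trans ((sum_le_sum fun n _ => hf _).trans ?_)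
  rw [sum_const, nsmul_eq_mul, mul_comm]
  apply mul_le_mul_of_nonneg_left _ hc0
  have h1 := gap_card G σ hσ N0 g hg hG t ((Icc N0 M).filter (fun n => (Y' : ℤ) < G n + t ∧ G n + t ≤ Y)) Y' Y (by
    intro n hn
    rw [mem_filter, mem_Icc] at hn
    exact ⟨hn.1.1, hn.2.1, hn.2.2⟩) (by exact_mod_cast hY)
  simpa using h1

/-- all cutoffs -/
lemma TT_all (G : ℕ → ℤ) (σ : ℤ) (hσ : σ = 1 ∨ σ = -1) (N0 g : ℕ) (hg : 1 ≤ g) (hG : Gap G σ N0 g)
    (M : ℕ) (f : ℤ → ℝ) (t : ℤ) (c0 γ ρ Ymin Ymax : ℝ) (hf : ∀ y, |f y| ≤ c0) (hγ : 2 ≤ γ) (hρ : 0 ≤ ρ)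
    (hY1 : 1 ≤ Ymin)
    (hT : ∀ j : ℕ, Ymin ≤ gr γ j → (gr γ j : ℝ) ≤ Ymax → |TT G N0 M (gr γ j) f t| ≤ gr γ j * ρ)
    (Y : ℕ) (hY : (Y : ℝ) ≤ Ymax) :
    |TT G N0 M Y f t| ≤ Y * ρ + c0 * ((Y / γ ^ 2 + 1) / g + 1) + c0 * ((2 * Ymin + 2) / g + 1) := by
  have hc0 : 0 ≤ c0 := (abs_nonneg _).trans (hf 0)
  have hgr : (0 : ℝ) < g := by exact_mod_cast hg
  have hYr : (0 : ℝ) ≤ Y := Nat.cast_nonneg _
  have hG4 : (4 : ℝ) ≤ γ ^ 2 := by nlinarith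
  have p1 : 0 ≤ (Y : ℝ) * ρ := by positivity
  have p2 : 0 ≤ c0 * ((Y / γ ^ 2 + 1) / g + 1) := by positivity
  have p3 : 0 ≤ c0 * ((2 * Ymin + 2) / g + 1) := by positivity
  rcases Nat.eq_zero_or_pos Y with h0 | h0
  · rw [h0, TT_zero, abs_zero]
    rw [h0] at p1 p2
    linarith
  · obtain ⟨j, -, hj1, hj2⟩ := grid γ hγ Y h0
    by_cases hc : Ymin ≤ gr γ j
    · have hj3 : (gr γ j : ℝ) ≤ Y := by exact_mod_cast hj1
      have h1 := hT j hc (hj3.trans hY)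
      have h2 := TT_diff_le G σ hσ N0 g hg hG M Y (gr γ j) hj1 f t c0 hf
      have h3 : |TT G N0 M Y f t| ≤ |TT G N0 M Y f t - TT G N0 M (gr γ j) f t| + |TT G N0 M (gr γ j) f t| := by
        have := abs_add_le (TT G N0 M Y f t - TT G N0 M (gr γ j) f t) (TT G N0 M (gr γ j) f t)
        rwa [sub_add_cancel] at this
      have h4 : (gr γ j : ℝ) * ρ ≤ Y * ρ := mul_le_mul_of_nonneg_right hj3 hρ
      have h5 : c0 * (((Y : ℝ) - gr γ j) / g + 1) ≤ c0 * ((Y / γ ^ 2 + 1) / g + 1) := by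
        apply mul_le_mul_of_nonneg_left _ hc0
        have := div_le_div_of_nonneg_right hj2 hgr.le
        linarith
      linarith
    · push Not at hc
      have h2 := TT_diff_le G σ hσ N0 g hg hG M Y 0 (Nat.zero_le _) f t c0 hf
      rw [TT_zero, sub_zero] at h2
      have h3 : (Y : ℝ) / γ ^ 2 ≤ Y / 2 := by
        apply div_le_div_of_nonneg_left hYr (by norm_num)
        linarith
      have h4 : c0 * (((Y : ℝ) - (0 : ℕ)) / g + 1) ≤ c0 * ((2 * Ymin + 2) / g + 1) := by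
        apply mul_le_mul_of_nonneg_left _ hc0
        have h5 : ((Y : ℝ) - (0 : ℕ)) ≤ 2 * Ymin + 2 := by
          push_cast
          linarith
        have := div_le_div_of_nonneg_right h5 hgr.le
        linarith
      linarith

/-- the order of the values -/
lemma gap_mono (G : ℕ → ℤ) (σ : ℤ) (N0 g : ℕ) (hg : 1 ≤ g) (hG : Gap G σ N0 g) (n n' : ℕ)
    (hn : N0 ≤ n) (h : n < n') : σ * G n < σ * G n' := by
  have h1 := hG n (n' - n) hn
  rw [Nat.add_sub_cancel' h.le] at h1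
  have h2 : (1 : ℤ) ≤ ((n' - n : ℕ) : ℤ) := by omega
  have h3 : (1 : ℤ) ≤ g := by exact_mod_cast hg
  have h4 : (1 : ℤ) * 1 ≤ ((n' - n : ℕ) : ℤ) * g := mul_le_mul h2 h3 (by norm_num) (by omega)
  linarith

/-- windows are differences of cutoffs -/
lemma window_TT (G : ℕ → ℤ) (σ : ℤ) (hσ : σ = 1 ∨ σ = -1) (N0 g : ℕ) (hg : 1 ≤ g) (hG : Gap G σ N0 g)
    (M : ℕ) (f : ℤ → ℝ) (t : ℤ) (n1 n2 : ℕ) (h01 : N0 ≤ n1) (h12 : n1 ≤ n2) (h2M : n2 ≤ M)
    (hv1 : 1 ≤ G n1 + t) (hv2 : 1 ≤ G n2 + t) :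
    ∃ Ya Yb : ℕ, Ya ≤ Yb ∧ ((Yb : ℤ) = G n1 + t ∨ (Yb : ℤ) = G n2 + t) ∧
      ∑ n ∈ Icc n1 n2, f (G n + t) = TT G N0 M Yb f t - TT G N0 M Ya f t := by
  have key : ∀ n ∈ Icc N0 M, (n1 ≤ n ∧ n ≤ n2 ↔ σ * G n1 ≤ σ * G n ∧ σ * G n ≤ σ * G n2) := by
    intro n hn
    rw [mem_Icc] at hn
    constructor
    · rintro ⟨h1, h2⟩
      constructor
      · rcases h1.eq_or_lt with h | h
        · rw [h]
        · exact (gap_mono G σ N0 g hg hG n1 n h01 h).le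
      · rcases h2.eq_or_lt with h | h
        · rw [h]
        · exact (gap_mono G σ N0 g hg hG n n2 hn.1 h).le
    · rintro ⟨h1, h2⟩
      constructor
      · by_contra hcon
        push Not at hcon
        have := gap_mono G σ N0 g hg hG n n1 hn.1 hcon
        linarith
      · by_contra hcon
        push Not at hcon
        have := gap_mono G σ N0 g hg hG n2 n (by omega) hcon
        linarith
  rcases hσ with h | h
  · refine ⟨(G n1 + t - 1).toNat, (G n2 + t).toNat, ?_, Or.inr (by omega), ?_⟩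
    · have h3 := (key n1 (by rw [mem_Icc]; omega)).1 ⟨le_rfl, h12⟩
      rw [h] at h3
      omega
    · rw [TT_diff]
      · apply sum_congr _ fun _ _ => rfl
        ext n
        rw [mem_filter]
        have ha : (((G n1 + t - 1).toNat : ℕ) : ℤ) = G n1 + t - 1 := Int.toNat_of_nonneg (by omega)
        have hb : (((G n2 + t).toNat : ℕ) : ℤ) = G n2 + t := Int.toNat_of_nonneg (by omega)
        rw [ha, hb]
        constructor
        · intro hn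
          rw [mem_Icc] at hn
          have hn' : n ∈ Icc N0 M := by rw [mem_Icc]; omega
          have h3 := (key n hn').1 hn
          rw [h] at h3
          exact ⟨hn', by omega, by omega⟩
        · rintro ⟨hn, h4, h5⟩
          have h3 := (key n hn).2
          rw [h] at h3
          rw [mem_Icc]
          exact h3 ⟨by omega, by omega⟩
      · have h3 := (key n1 (by rw [mem_Icc]; omega)).1 ⟨le_rfl, h12⟩
        rw [h] at h3
        omega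
  · refine ⟨(G n2 + t - 1).toNat, (G n1 + t).toNat, ?_, Or.inl (by omega), ?_⟩
    · have h3 := (key n1 (by rw [mem_Icc]; omega)).1 ⟨le_rfl, h12⟩
      rw [h] at h3
      omega
    · rw [TT_diff]
      · apply sum_congr _ fun _ _ => rfl
        ext n
        rw [mem_filter]
        have ha : (((G n2 + t - 1).toNat : ℕ) : ℤ) = G n2 + t - 1 := Int.toNat_of_nonneg (by omega)
        have hb : (((G n1 + t).toNat : ℕ) : ℤ) = G n1 + t := Int.toNat_of_nonneg (by omega)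
        rw [ha, hb]
        constructor
        · intro hn
          rw [mem_Icc] at hn
          have hn' : n ∈ Icc N0 M := by rw [mem_Icc]; omega
          have h3 := (key n hn').1 hn
          rw [h] at h3
          exact ⟨hn', by omega, by omega⟩
        · rintro ⟨hn, h4, h5⟩
          have h3 := (key n hn).2
          rw [h] at h3
          rw [mem_Icc]
          exact h3 ⟨by omega, by omega⟩
      · have h3 := (key n1 (by rw [mem_Icc]; omega)).1 ⟨le_rfl, h12⟩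
        rw [h] at h3
        omega

/-- all windows -/
lemma window_all (G : ℕ → ℤ) (σ : ℤ) (hσ : σ = 1 ∨ σ = -1) (N0 g : ℕ) (hg : 1 ≤ g) (hG : Gap G σ N0 g)
    (M : ℕ) (f : ℤ → ℝ) (t : ℤ) (c0 γ ρ Ymin Ymax : ℝ) (hf : ∀ y, |f y| ≤ c0) (hγ : 2 ≤ γ) (hρ : 0 ≤ ρ)
    (hY1 : 1 ≤ Ymin)
    (hT : ∀ j : ℕ, Ymin ≤ gr γ j → (gr γ j : ℝ) ≤ Ymax → |TT G N0 M (gr γ j) f t| ≤ gr γ j * ρ)
    (n1 n2 : ℕ) (h01 : N0 ≤ n1) (h12 : n1 ≤ n2) (h2M : n2 ≤ M) (hv1 : 1 ≤ G n1 + t) (hv2 : 1 ≤ G n2 + t)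
    (V : ℝ) (hV1 : ((G n1 + t : ℤ) : ℝ) ≤ V) (hV2 : ((G n2 + t : ℤ) : ℝ) ≤ V) (hVmax : V ≤ Ymax) :
    |∑ n ∈ Icc n1 n2, f (G n + t)| ≤
      2 * (V * ρ + c0 * ((V / γ ^ 2 + 1) / g + 1) + c0 * ((2 * Ymin + 2) / g + 1)) := by
  have hc0 : 0 ≤ c0 := (abs_nonneg _).trans (hf 0)
  have hgr : (0 : ℝ) < g := by exact_mod_cast hg
  obtain ⟨Ya, Yb, hab, hYb, hsum⟩ := window_TT G σ hσ N0 g hg hG M f t n1 n2 h01 h12 h2M hv1 hv2
  rw [hsum]
  have hYbV : (Yb : ℝ) ≤ V := by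
    rcases hYb with h | h
    · have : (Yb : ℝ) = ((G n1 + t : ℤ) : ℝ) := by rw [← h]; simp
      rw [this]; exact hV1
    · have : (Yb : ℝ) = ((G n2 + t : ℤ) : ℝ) := by rw [← h]; simp
      rw [this]; exact hV2
  have hYaV : (Ya : ℝ) ≤ V := le_trans (by exact_mod_cast hab) hYbV
  have hone : ∀ Y : ℕ, (Y : ℝ) ≤ V → |TT G N0 M Y f t| ≤
      V * ρ + c0 * ((V / γ ^ 2 + 1) / g + 1) + c0 * ((2 * Ymin + 2) / g + 1) := by
    intro Y hY
    have h1 := TT_all G σ hσ N0 g hg hG M f t c0 γ ρ Ymin Ymax hf hγ hρ hY1 hT Y (hY.trans hVmax)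
    have h2 : (Y : ℝ) * ρ ≤ V * ρ := mul_le_mul_of_nonneg_right hY hρ
    have h3 : c0 * ((Y / γ ^ 2 + 1) / g + 1) ≤ c0 * ((V / γ ^ 2 + 1) / g + 1) := by
      apply mul_le_mul_of_nonneg_left _ hc0
      have h4 : (Y : ℝ) / γ ^ 2 ≤ V / γ ^ 2 := div_le_div_of_nonneg_right hY (by positivity)
      have h5 : ((Y : ℝ) / γ ^ 2 + 1) / g ≤ (V / γ ^ 2 + 1) / g := div_le_div_of_nonneg_right (by linarith) hgr.le
      linarith
    linarith
  refine (abs_sub _ _).trans ?_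
  have h1 := hone Yb hYbV
  have h2 := hone Ya hYaV
  linarith

end Pool.Agent.TH204.WR
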