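import Pool.Agent.TH204.WR.W6
import Pool.Agent.TH892.SW.S8

/-!
The sieve model summed over the values of a polynomial on an interval.
-/

set_option autoImplicit false

namespace Pool.Agent.TH204.WR

open Finset Polynomial
open Pool.Agent.W41 (JJ JJ_lt JJ_le JJ_small)
open Pool.Agent.H373R2.T7 (pz Vz lamz mem_pz Vz_ge)
open Pool.Agent.TH892.SW (fl_set abel_anti abel_mono wt wt_nonneg wt_anti wt_le ff ffn lamz_nonneg Vz_pos)

/-- the number of residues `a` modulo `p` with `p ∣ F a + t` -/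
def rho (F : ℤ[X]) (t : ℤ) (p : ℕ) : ℕ := #((range p).filter (fun a : ℕ => (p : ℤ) ∣ F.eval (a : ℤ) + t))

lemma dvd_iff_root (F : ℤ[X]) (t : ℤ) (p : ℕ) [Fact p.Prime] (x : ℤ) :
    ((p : ℤ) ∣ F.eval x + t) ↔ (F.map (Int.castRingHom (ZMod p))).eval (x : ZMod p) + (t : ZMod p) = 0 := by
  rw [← ZMod.intCast_zmod_eq_zero_iff_dvd]
  have h := eval_intCast_map (Int.castRingHom (ZMod p)) F x
  simp only [eq_intCast, Int.cast_id] at h
  push_cast
  rw [h]

lemma card_roots_shift (F : ℤ[X]) (t : ℤ) (p : ℕ) [Fact p.Prime] (A : ℤ) :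
    #((range p).filter (fun a : ℕ => (p : ℤ) ∣ F.eval (A + a) + t)) =
      #(univ.filter (fun x : ZMod p => (F.map (Int.castRingHom (ZMod p))).eval x + (t : ZMod p) = 0)) := by
  have key : ∀ a : ℕ, ((p : ℤ) ∣ F.eval (A + a) + t) ↔
      (F.map (Int.castRingHom (ZMod p))).eval ((A : ZMod p) + (a : ZMod p)) + (t : ZMod p) = 0 := by
    intro a
    rw [dvd_iff_root F t p]
    push_cast
    rfl
  refine card_nbij' (fun a : ℕ => (A : ZMod p) + (a : ZMod p)) (fun x => (x - (A : ZMod p)).val) ?_ ?_ ?_ ?_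
  · intro a ha
    rw [mem_coe, mem_filter] at ha
    rw [mem_coe, mem_filter]
    exact ⟨mem_univ _, (key a).1 ha.2⟩
  · intro x hx
    rw [mem_coe, mem_filter] at hx
    rw [mem_coe, mem_filter, mem_range]
    refine ⟨ZMod.val_lt _, ?_⟩
    rw [key, ZMod.natCast_zmod_val]
    rw [add_sub_cancel]
    exact hx.2
  · intro a ha
    rw [mem_coe, mem_filter, mem_range] at ha
    simp only [add_sub_cancel_left]
    exact ZMod.val_cast_of_lt ha.1
  · intro x _
    simp only [ZMod.natCast_zmod_val, add_sub_cancel]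

lemma rho_card (F : ℤ[X]) (t : ℤ) (p : ℕ) [Fact p.Prime] :
    rho F t p = #(univ.filter (fun x : ZMod p => (F.map (Int.castRingHom (ZMod p))).eval x + (t : ZMod p) = 0)) := by
  have h := card_roots_shift F t p 0
  simp only [zero_add] at h
  exact h

lemma root_card (F : ℤ[X]) (t : ℤ) (p : ℕ) (hp : p.Prime) (A : ℤ) :
    #((range p).filter (fun a : ℕ => (p : ℤ) ∣ F.eval (A + a) + t)) = rho F t p := by
  have : Fact p.Prime := ⟨hp⟩
  rw [rho_card F t p, card_roots_shift F t p A]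

/-- reflection -/
lemma rho_neg (F : ℤ[X]) (t : ℤ) (p : ℕ) (hp : p.Prime) : rho (F.comp (-X)) t p = rho F t p := by
  have : Fact p.Prime := ⟨hp⟩
  rw [rho_card F t p, rho_card _ t p]
  have key : ∀ x : ZMod p, ((F.comp (-X)).map (Int.castRingHom (ZMod p))).eval x =
      (F.map (Int.castRingHom (ZMod p))).eval (-x) := by
    intro x
    rw [Polynomial.map_comp, eval_comp]
    simp
  refine card_nbij' (fun x => -x) (fun x => -x) ?_ ?_ ?_ ?_
  · intro x hx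
    rw [mem_coe, mem_filter] at hx ⊢
    rw [key] at hx
    exact ⟨mem_univ _, hx.2⟩
  · intro x hx
    rw [mem_coe, mem_filter] at hx ⊢
    rw [key, neg_neg]
    exact ⟨mem_univ _, hx.2⟩
  · intro x _; exact neg_neg x
  · intro x _; exact neg_neg x

lemma rho_le (F : ℤ[X]) (t : ℤ) (p : ℕ) : rho F t p ≤ p := by
  unfold rho
  exact (card_filter_le _ _).trans (card_range p).le

lemma rho_le_deg (F : ℤ[X]) (t : ℤ) (p : ℕ) (hp : p.Prime) (h : rho F t p < p) : rho F t p ≤ F.natDegree := by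
  have : Fact p.Prime := ⟨hp⟩
  set Fp : (ZMod p)[X] := F.map (Int.castRingHom (ZMod p)) + C (t : ZMod p) with hFp
  have hz : univ.filter (fun x : ZMod p => (F.map (Int.castRingHom (ZMod p))).eval x + (t : ZMod p) = 0) =
      univ.filter (fun x : ZMod p => Fp.eval x = 0) := by
    apply filter_congr
    intro x _
    rw [hFp, eval_add, eval_C]
  have hne : Fp ≠ 0 := by
    intro h0
    rw [rho_card F t p, hz, h0] at h
    simp only [eval_zero, filter_true, card_univ, ZMod.card] at h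
    exact lt_irrefl _ h
  rw [rho_card F t p, hz]
  have h1 : #(univ.filter (fun x : ZMod p => Fp.eval x = 0)) ≤ #Fp.roots.toFinset := by
    apply card_le_card
    intro x hx
    rw [mem_filter] at hx
    rw [Multiset.mem_toFinset, mem_roots hne]
    exact hx.2
  refine h1.trans ((Multiset.toFinset_card_le _).trans ((card_roots' _).trans ?_))
  rw [hFp]
  refine (natDegree_add_C).le.trans ?_
  exact natDegree_map_le

lemma bern (d p : ℕ) (hp : 2 ≤ p) (hd : 2 * d ≤ p) : (1 - 1 / (p : ℝ)) ^ (2 * d) ≤ 1 - d / p := by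
  have hp2 : (2 : ℝ) ≤ p := by exact_mod_cast hp
  have hp0 : (0 : ℝ) < p := by linarith
  have hdr : 2 * (d : ℝ) ≤ p := by exact_mod_cast hd
  have hd0 : (0 : ℝ) ≤ d := Nat.cast_nonneg _
  have h1 := one_add_mul_le_pow (a := 1 / ((p : ℝ) - 1)) (by
    have : 0 ≤ 1 / ((p : ℝ) - 1) := div_nonneg zero_le_one (by linarith)
    linarith) (2 * d)
  have h2 : (1 - 1 / (p : ℝ)) * (1 + 1 / ((p : ℝ) - 1)) = 1 := by
    have : (p : ℝ) - 1 ≠ 0 := by linarith
    field_simp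
    ring
  have h3 : 0 ≤ 1 - 1 / (p : ℝ) := by
    rw [sub_nonneg, div_le_one hp0]; linarith
  have h4 : 1 + 2 * (d : ℝ) / p ≤ (1 + 1 / ((p : ℝ) - 1)) ^ (2 * d) := by
    refine le_trans ?_ h1
    push_cast
    have h5 : 2 * (d : ℝ) / p ≤ 2 * d * (1 / ((p : ℝ) - 1)) := by
      rw [mul_one_div]
      apply div_le_div_of_nonneg_left (by positivity) (by linarith) (by linarith)
    linarith
  have h5 : (1 - 1 / (p : ℝ)) ^ (2 * d) * (1 + 2 * (d : ℝ) / p) ≤ 1 := by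
    calc (1 - 1 / (p : ℝ)) ^ (2 * d) * (1 + 2 * (d : ℝ) / p)
        ≤ (1 - 1 / (p : ℝ)) ^ (2 * d) * (1 + 1 / ((p : ℝ) - 1)) ^ (2 * d) :=
          mul_le_mul_of_nonneg_left h4 (pow_nonneg h3 _)
      _ = 1 := by rw [← mul_pow, h2, one_pow]
  have h6 : 1 ≤ (1 - (d : ℝ) / p) * (1 + 2 * (d : ℝ) / p) := by
    have e : (1 - (d : ℝ) / p) * (1 + 2 * (d : ℝ) / p) = 1 + d * (p - 2 * d) / p ^ 2 := by
      field_simp
      ring
    rw [e]
    have : 0 ≤ (d : ℝ) * (p - 2 * d) / p ^ 2 := by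
      apply div_nonneg (mul_nonneg hd0 (by linarith)) (by positivity)
    linarith
  have h7 : 0 < 1 + 2 * (d : ℝ) / p := by positivity
  exact le_of_mul_le_mul_right (h5.trans h6) h7

/-- lower bound for the product of the local densities -/
lemma V_low (F : ℤ[X]) (t : ℤ) (y d : ℕ) (hd : 1 ≤ d) (hF : F.natDegree ≤ d) (h : ∀ p ∈ pz y, rho F t p < p) :
    (1 / (2 * (d : ℝ))) ^ (2 * d) * Vz y ^ (2 * d) ≤ ∏ p ∈ pz y, (1 - (rho F t p : ℝ) / p) := by
  have hd1 : (1 : ℝ) ≤ d := by exact_mod_cast hd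
  have hi : (0 : ℝ) < 1 / (2 * (d : ℝ)) := by positivity
  have hi1 : 1 / (2 * (d : ℝ)) ≤ 1 := by
    rw [div_le_one (by positivity)]; linarith
  have h1 : ∏ p ∈ pz y, ((if p < 2 * d then 1 / (2 * (d : ℝ)) else 1) * (1 - 1 / (p : ℝ)) ^ (2 * d)) ≤
      ∏ p ∈ pz y, (1 - (rho F t p : ℝ) / p) := by
    apply prod_le_prod
    · intro p hp
      have hp2 : (2 : ℝ) ≤ p := by exact_mod_cast (mem_pz.1 hp).2.two_le
      have h3 : 0 ≤ 1 - 1 / (p : ℝ) := by
        rw [sub_nonneg, div_le_one (by linarith)]; linarith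
      split_ifs <;> positivity
    · intro p hp
      have hpp := (mem_pz.1 hp).2
      have hp2 : (2 : ℝ) ≤ p := by exact_mod_cast hpp.two_le
      have hp0 : (0 : ℝ) < p := by linarith
      have h3 : 0 ≤ 1 - 1 / (p : ℝ) := by
        rw [sub_nonneg, div_le_one hp0]; linarith
      have h4 : (1 - 1 / (p : ℝ)) ^ (2 * d) ≤ 1 := by
        apply pow_le_one₀ h3
        have : 0 ≤ 1 / (p : ℝ) := by positivity
        linarith
      split_ifs with hc
      · have h5 : (rho F t p : ℝ) + 1 ≤ p := by exact_mod_cast h p hp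
        have h6 : 1 / (p : ℝ) ≤ 1 - (rho F t p : ℝ) / p := by
          rw [one_sub_div hp0.ne']
          apply div_le_div_of_nonneg_right _ hp0.le
          linarith
        have h7 : 1 / (2 * (d : ℝ)) ≤ 1 / (p : ℝ) := by
          apply one_div_le_one_div_of_le hp0
          exact_mod_cast hc.le
        calc 1 / (2 * (d : ℝ)) * (1 - 1 / (p : ℝ)) ^ (2 * d) ≤ 1 / (2 * (d : ℝ)) * 1 :=
              mul_le_mul_of_nonneg_left h4 hi.le
          _ ≤ _ := by linarith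
      · rw [one_mul]
        refine (bern d p hpp.two_le (by omega)).trans ?_
        have h5 : (rho F t p : ℝ) ≤ d := by
          exact_mod_cast (rho_le_deg F t p hpp (h p hp)).trans hF
        have := div_le_div_of_nonneg_right h5 hp0.le
        linarith
  refine le_trans ?_ h1
  rw [prod_mul_distrib]
  have h2 : ∏ p ∈ pz y, (1 - 1 / (p : ℝ)) ^ (2 * d) = Vz y ^ (2 * d) := by
    unfold Vz
    rw [prod_pow]
  rw [h2]
  apply mul_le_mul_of_nonneg_right
  · rw [← prod_filter, prod_const]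
    have h3 : #((pz y).filter (fun p => p < 2 * d)) ≤ 2 * d := by
      calc #((pz y).filter (fun p => p < 2 * d)) ≤ #(range (2 * d)) := by
            apply card_le_card
            intro p hp
            rw [mem_filter] at hp
            exact mem_range.2 hp.2
        _ = 2 * d := card_range _
    exact pow_le_pow_of_le_one hi.le hi1 h3
  · rw [pow_mul]
    positivity

/-- the product of the local densities with cutoff `z` -/
noncomputable def hh (F : ℤ[X]) (t : ℤ) (z : ℕ) : ℝ := (Vz z)⁻¹ * ∏ p ∈ pz z, (1 - (rho F t p : ℝ) / p)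

lemma prod_nonneg' (F : ℤ[X]) (t : ℤ) (z : ℕ) : 0 ≤ ∏ p ∈ pz z, (1 - (rho F t p : ℝ) / p) := by
  apply prod_nonneg
  intro p hp
  have hp0 : (0 : ℝ) < p := by exact_mod_cast (mem_pz.1 hp).2.pos
  rw [sub_nonneg, div_le_one hp0]
  exact_mod_cast rho_le F t p

lemma prod_le_one' (F : ℤ[X]) (t : ℤ) (z : ℕ) : ∏ p ∈ pz z, (1 - (rho F t p : ℝ) / p) ≤ 1 := by
  apply prod_le_one
  · intro p hp
    have hp0 : (0 : ℝ) < p := by exact_mod_cast (mem_pz.1 hp).2.pos
    rw [sub_nonneg, div_le_one hp0]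
    exact_mod_cast rho_le F t p
  · intro p hp
    have : 0 ≤ (rho F t p : ℝ) / p := by positivity
    linarith

lemma hh_nonneg (F : ℤ[X]) (t : ℤ) (z : ℕ) (hz : 1 ≤ z) : 0 ≤ hh F t z :=
  mul_nonneg (inv_nonneg.2 (Vz_pos hz).le) (prod_nonneg' F t z)

open Classical in
theorem flp (d : ℕ) (hd : 1 ≤ d) : ∃ C1 y0 : ℕ, 1 ≤ C1 ∧ 2 ≤ y0 ∧ ∀ (F : ℤ[X]) (t : ℤ), F.natDegree ≤ d →
    ∀ b : ℕ, C1 ≤ b → ∀ y : ℕ, y0 ≤ y → (∀ p ∈ pz y, rho F t p < p) → ∀ N : ℕ, y ^ (C1 * b) ≤ N →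
    ∀ A : ℤ, |((((Icc 1 N).filter (fun s : ℕ => ∀ p ∈ pz y, ¬ (p : ℤ) ∣ F.eval (A + s) + t)).card : ℕ) : ℝ) -
      N * ∏ p ∈ pz y, (1 - (rho F t p : ℝ) / p)| ≤
      2 * (1 / 2 : ℝ) ^ b * (N * ∏ p ∈ pz y, (1 - (rho F t p : ℝ) / p)) := by
  obtain ⟨C0, K0, hC0, hK0, hfl⟩ := fl_set d
  refine ⟨4 * C0 + 4 * d + 4, K0 + 2 * d + 3, by omega, by omega, fun F t hF b hb y hy hrho N hN A => ?_⟩
  have hrc : ∀ p ∈ pz y, ((range p).filter (fun a : ℕ => (p : ℤ) ∣ F.eval (A + a) + t)).card = rho F t p :=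
    fun p hp => root_card F t p (mem_pz.1 hp).2 A
  have h1 := hfl b (by omega) y (by omega) N (pz y) (fun p a => (p : ℤ) ∣ F.eval (A + a) + t) (by
    intro p hp
    have hp' := mem_pz.1 hp
    refine ⟨hp'.2, hp'.1, ?_⟩
    have h3' : ((range p).filter (fun a : ℕ => (p : ℤ) ∣ F.eval (A + a) + t)).card ≤ d := by
      rw [hrc p hp]
      exact (rho_le_deg F t p hp'.2 (hrho p hp)).trans hF
    convert h3')
  have hVe : ∏ p ∈ pz y, (1 - ((((range p).filter (fun a : ℕ => (p : ℤ) ∣ F.eval (A + a) + t)).card : ℕ) : ℝ) / p) =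
      ∏ p ∈ pz y, (1 - (rho F t p : ℝ) / p) := by
    apply prod_congr rfl
    intro p hp
    rw [hrc p hp]
  have hmod : ∀ n p : ℕ, ((p : ℤ) ∣ F.eval (A + ((n % p : ℕ) : ℤ)) + t) ↔ ((p : ℤ) ∣ F.eval (A + (n : ℤ)) + t) := by
    intro n p
    have h3 : (p : ℤ) ∣ (F.eval (A + ((n % p : ℕ) : ℤ)) + t) - (F.eval (A + (n : ℤ)) + t) := by
      have h4 := sub_dvd_eval_sub (A + ((n % p : ℕ) : ℤ)) (A + (n : ℤ)) F
      have h5 : (p : ℤ) ∣ (A + ((n % p : ℕ) : ℤ)) - (A + (n : ℤ)) := by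
        have h6 : (A + ((n % p : ℕ) : ℤ)) - (A + (n : ℤ)) = -((p : ℤ) * ((n / p : ℕ) : ℤ)) := by
          have h7 : n % p + p * (n / p) = n := Nat.mod_add_div n p
          have h8 : ((n % p : ℕ) : ℤ) + (p : ℤ) * ((n / p : ℕ) : ℤ) = n := by exact_mod_cast h7
          linarith
        rw [h6]
        exact (dvd_mul_right _ _).neg_right
      have h6 := h5.trans h4
      have e : (F.eval (A + ((n % p : ℕ) : ℤ)) + t) - (F.eval (A + (n : ℤ)) + t) =
          F.eval (A + ((n % p : ℕ) : ℤ)) - F.eval (A + (n : ℤ)) := by ring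
      rw [e]
      exact h6
    constructor
    · intro h
      have := dvd_sub h h3
      rwa [sub_sub_cancel] at this
    · intro h
      have := dvd_add h3 h
      rwa [sub_add_cancel] at this
  have hset : ((Icc 1 N).filter (fun s : ℕ => ∀ p ∈ pz y, ¬ (p : ℤ) ∣ F.eval (A + s) + t)) =
      ((Icc 1 N).filter (fun n : ℕ => ∀ p ∈ pz y, ¬ (p : ℤ) ∣ F.eval (A + ((n % p : ℕ) : ℤ)) + t)) := by
    apply filter_congr
    intro n _
    constructor
    · intro h p hp hd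
      exact h p hp ((hmod n p).1 hd)
    · intro h p hp hd
      exact h p hp ((hmod n p).2 hd)
  rw [hset]
  have hVlow0 := V_low F t y d hd hF hrho
  set V := ∏ p ∈ pz y, (1 - (rho F t p : ℝ) / p) with hV
  have h2 : |((((Icc 1 N).filter (fun n : ℕ => ∀ p ∈ pz y, ¬ (p : ℤ) ∣ F.eval (A + ((n % p : ℕ) : ℤ)) + t)).card : ℕ) : ℝ) - N * V| ≤
      (1 / 2 : ℝ) ^ b * (N * V) + ((JJ y : ℝ) + 2) * ((y : ℝ) ^ (2 * (C0 * b)) * (K0 * (y : ℝ) ^ (2 * (C0 * b)))) := by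
    rw [← hVe]
    convert h1 using 6 <;> congr!
  refine h2.trans ?_
  have hy1 : (1 : ℝ) ≤ y := by exact_mod_cast (by omega : 1 ≤ y)
  have hy2 : (2 : ℝ) ≤ y := by exact_mod_cast (by omega : 2 ≤ y)
  have hy0 : (0 : ℝ) < y := by linarith
  have hVlow : 1 / (y : ℝ) ^ (4 * d) ≤ V := by
    refine le_trans ?_ hVlow0
    have hd1 : (1 : ℝ) ≤ d := by exact_mod_cast hd
    have h3 : 1 / (y : ℝ) ≤ 1 / (2 * (d : ℝ)) := by
      apply one_div_le_one_div_of_le (by positivity)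
      exact_mod_cast (by omega : 2 * d ≤ y)
    have h4 : 1 / (y : ℝ) ≤ Vz y := Vz_ge y (by omega)
    have h5 : (0 : ℝ) ≤ 1 / (y : ℝ) := by positivity
    calc 1 / (y : ℝ) ^ (4 * d) = (1 / (y : ℝ)) ^ (2 * d) * (1 / (y : ℝ)) ^ (2 * d) := by
          rw [← pow_add, one_div_pow]
          congr 2
          ring
      _ ≤ _ := mul_le_mul (pow_le_pow_left₀ h5 h3 _) (pow_le_pow_left₀ h5 h4 _) (by positivity) (by positivity)
  have hJ : ((JJ y : ℝ) + 2) ≤ y * y := by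
    have h3 : ((JJ y : ℝ) + 2) ≤ 2 * y := by exact_mod_cast JJ_small y (by omega)
    nlinarith
  have hK0 : (K0 : ℝ) ≤ y := by exact_mod_cast (by omega : K0 ≤ y)
  have h3 : ((JJ y : ℝ) + 2) * ((y : ℝ) ^ (2 * (C0 * b)) * (K0 * (y : ℝ) ^ (2 * (C0 * b)))) ≤
      (y : ℝ) ^ (4 * (C0 * b) + 3) := by
    calc ((JJ y : ℝ) + 2) * ((y : ℝ) ^ (2 * (C0 * b)) * (K0 * (y : ℝ) ^ (2 * (C0 * b))))
        ≤ (y * y) * ((y : ℝ) ^ (2 * (C0 * b)) * (y * (y : ℝ) ^ (2 * (C0 * b)))) := by gcongr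
      _ = (y : ℝ) ^ (4 * (C0 * b) + 3) := by
          rw [show 4 * (C0 * b) + 3 = 2 * (C0 * b) + 2 * (C0 * b) + 1 + 1 + 1 by ring]
          simp only [pow_succ, pow_add]
          ring
  have h4 : (y : ℝ) ^ (4 * (C0 * b) + 3) ≤ (1 / 2 : ℝ) ^ b * (N * V) := by
    have h5 : (y : ℝ) ^ ((4 * C0 + 4 * d + 4) * b) ≤ N := by exact_mod_cast hN
    have h6 : (2 : ℝ) ^ b ≤ (y : ℝ) ^ b := pow_le_pow_left₀ (by norm_num) hy2 b
    have h7 : (y : ℝ) ^ ((4 * C0 + 4 * d + 4) * b) * (1 / (y : ℝ) ^ (4 * d)) ≤ N * V :=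
      mul_le_mul h5 hVlow (by positivity) (Nat.cast_nonneg _)
    have h8 : (y : ℝ) ^ (4 * (C0 * b) + 3) * (y : ℝ) ^ b ≤ (y : ℝ) ^ ((4 * C0 + 4 * d + 4) * b) * (1 / (y : ℝ) ^ (4 * d)) := by
      rw [mul_one_div, le_div_iff₀ (by positivity), ← pow_add, ← pow_add]
      apply pow_le_pow_right₀ hy1
      have hb1 : 1 ≤ b := by omega
      have h9 : 4 * d ≤ 4 * d * b := Nat.le_mul_of_pos_right _ hb1
      have h10 : (4 * C0 + 4 * d + 4) * b = 4 * (C0 * b) + 4 * d * b + 4 * b := by ring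
      omega
    rw [one_div, inv_pow, ← div_eq_inv_mul, le_div_iff₀ (by positivity)]
    calc (y : ℝ) ^ (4 * (C0 * b) + 3) * 2 ^ b ≤ (y : ℝ) ^ (4 * (C0 * b) + 3) * (y : ℝ) ^ b := by gcongr
      _ ≤ _ := h8.trans h7
  linarith

end Pool.Agent.TH204.WR
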