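import Pool.Agent.TH204.WR.W8

/-!
Windows of integers: sizes, and the three parts of a window.
-/

set_option autoImplicit false

namespace Pool.Agent.TH204.WR

open Finset Polynomial
open Pool.Agent.H373R2.T7 (pz Vz lamz mem_pz Vz_ge)
open Pool.Agent.TH892.SW (fl_set abel_anti abel_mono wt wt_nonneg wt_anti wt_le ff ffn lamz_nonneg Vz_pos)

/-- growth on all integers -/
theorem growthZ (k : ℕ) (hk : 1 ≤ k) (F : ℤ[X]) (hF : F.natDegree = k + 1) : ∃ nP A : ℕ, 1 ≤ nP ∧ 1 ≤ A ∧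
    (∀ m : ℤ, (nP : ℤ) ≤ |m| → |m| ^ (k + 1) ≤ 2 * |F.eval m|) ∧
    (∀ m : ℤ, |F.eval m| ≤ A * (|m| ^ (k + 1) + 1)) ∧
    ∃ σ₁ σ₂ : ℤ, (σ₁ = 1 ∨ σ₁ = -1) ∧ (σ₂ = 1 ∨ σ₂ = -1) ∧ ∀ N0 : ℕ, nP ≤ N0 →
      Gap (fun n => F.eval (n : ℤ)) σ₁ N0 (N0 ^ k) ∧ Gap (fun n => (F.comp (-X)).eval (n : ℤ)) σ₂ N0 (N0 ^ k) := by
  have hF' : (F.comp (-X)).natDegree = k + 1 := by
    rw [natDegree_comp, natDegree_neg, natDegree_X, mul_one, hF]
  obtain ⟨n1, σ₁, hσ₁, h1⟩ := growth k hk F hF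
  obtain ⟨n2, σ₂, hσ₂, h2⟩ := growth k hk (F.comp (-X)) hF'
  have hev : ∀ n : ℕ, (F.comp (-X)).eval (n : ℤ) = F.eval (-(n : ℤ)) := by
    intro n
    rw [eval_comp, eval_neg, eval_X]
  have habs : ∀ (σ y : ℤ), (σ = 1 ∨ σ = -1) → σ * y ≤ |y| := by
    rintro σ y (h | h)
    · rw [h, one_mul]; exact le_abs_self _
    · rw [h, neg_one_mul]; exact neg_le_abs _
  have habs2 : ∀ (σ y : ℤ), (σ = 1 ∨ σ = -1) → 0 ≤ σ * y → |y| = σ * y := by
    rintro σ y (h | h) h0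
    · rw [h, one_mul] at h0 ⊢; exact abs_of_nonneg h0
    · rw [h, neg_one_mul] at h0 ⊢; exact abs_of_nonpos (by omega)
  obtain ⟨nP, hnP⟩ : ∃ nP, nP = max (max n1 n2) 1 := ⟨_, rfl⟩
  obtain ⟨A0, hA0⟩ : ∃ A0 : ℕ, A0 = ∑ m ∈ Icc (-(nP : ℤ)) nP, (F.eval m).natAbs := ⟨_, rfl⟩
  refine ⟨nP, (F.leadingCoeff.natAbs + 1) + ((F.comp (-X)).leadingCoeff.natAbs + 1) + A0, by omega, by omega, ?_, ?_, ?_⟩
  · intro m hm
    rcases le_total 0 m with h0 | h0
    · obtain ⟨n, rfl⟩ := Int.eq_ofNat_of_zero_le h0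
      rw [abs_of_nonneg h0] at hm ⊢
      have h3 := (h1 n (by omega)).2.1
      have h4 := habs σ₁ (F.eval (n : ℤ)) hσ₁
      linarith
    · obtain ⟨n, hn⟩ := Int.eq_ofNat_of_zero_le (show 0 ≤ -m by omega)
      have hm' : m = -(n : ℤ) := by omega
      rw [abs_of_nonpos h0] at hm ⊢
      rw [hm'] at hm ⊢
      rw [neg_neg] at hm ⊢
      have h3 := (h2 n (by omega)).2.1
      rw [hev] at h3
      have h4 := habs σ₂ (F.eval (-(n : ℤ))) hσ₂
      linarith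
  · intro m
    have hpos : 0 ≤ |m| ^ (k + 1) := by positivity
    by_cases hsmall : |m| ≤ nP
    · have h3 : (F.eval m).natAbs ≤ A0 := by
        rw [hA0]
        exact single_le_sum (f := fun m => (F.eval m).natAbs) (fun _ _ => Nat.zero_le _)
          (mem_Icc.2 (abs_le.1 hsmall))
      have h4 : |F.eval m| ≤ A0 := by
        rw [Int.abs_eq_natAbs]
        exact_mod_cast h3
      push_cast
      nlinarith [abs_nonneg (F.leadingCoeff), abs_nonneg ((F.comp (-X)).leadingCoeff)]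
    · push Not at hsmall
      rcases le_total 0 m with h0 | h0
      · obtain ⟨n, rfl⟩ := Int.eq_ofNat_of_zero_le h0
        rw [abs_of_nonneg h0] at hsmall hpos ⊢
        obtain ⟨-, h3, h4⟩ := h1 n (by omega)
        have h5 : 0 ≤ σ₁ * F.eval (n : ℤ) := by linarith
        rw [habs2 _ _ hσ₁ h5]
        refine h4.trans ?_
        push_cast
        have h6 := abs_nonneg (F.leadingCoeff)
        have h7 := abs_nonneg ((F.comp (-X)).leadingCoeff)
        have h8 : (0 : ℤ) ≤ A0 := Int.natCast_nonneg _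
        nlinarith
      · obtain ⟨n, hn⟩ := Int.eq_ofNat_of_zero_le (show 0 ≤ -m by omega)
        have hm' : m = -(n : ℤ) := by omega
        rw [abs_of_nonpos h0] at hsmall hpos ⊢
        rw [hm'] at hsmall hpos ⊢
        rw [neg_neg] at hsmall hpos ⊢
        obtain ⟨-, h3, h4⟩ := h2 n (by omega)
        rw [hev] at h3 h4
        have h5 : 0 ≤ σ₂ * F.eval (-(n : ℤ)) := by linarith
        rw [habs2 _ _ hσ₂ h5]
        refine h4.trans ?_
        push_cast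
        have h6 := abs_nonneg (F.leadingCoeff)
        have h7 := abs_nonneg ((F.comp (-X)).leadingCoeff)
        have h8 : (0 : ℤ) ≤ A0 := Int.natCast_nonneg _
        nlinarith
  · refine ⟨σ₁, σ₂, hσ₁, hσ₂, fun N0 hN0 => ⟨?_, ?_⟩⟩
    · intro n δ hn
      have := gap k F n1 σ₁ (fun n hn => (h1 n hn).1) N0 (by omega) n δ hn
      push_cast at this ⊢
      exact this
    · intro n δ hn
      have := gap k (F.comp (-X)) n2 σ₂ (fun n hn => (h2 n hn).1) N0 (by omega) n δ hn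
      push_cast at this ⊢
      exact this

/-- sizes in a window -/
lemma size_window (k C : ℕ) (hk : 1 ≤ k) (F : ℤ[X]) (nP : ℕ)
    (hgr : ∀ m : ℤ, (nP : ℤ) ≤ |m| → |m| ^ (k + 1) ≤ 2 * |F.eval m|) (x : ℕ) (S L : ℝ) (hS : S ^ (k + 1) = x)
    (hS1 : 1 ≤ S) (hL : (4 : ℝ) ^ (k + 2) < L) (hnS : (nP : ℝ) ≤ S) (t : ℤ) (ht : |t| ≤ x) (a b : ℤ)
    (hH : 4 * (nP : ℝ) + 4 ≤ (b : ℝ) - a)
    (hv : ∀ m ∈ Ioc a b, 2 ≤ F.eval m + t ∧ ((F.eval m + t : ℤ) : ℝ) ≤ ((b : ℝ) - a) * (S ^ k * L ^ C)) :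
    (b : ℝ) - a ≤ S * L ^ (C + 1) ∧ ∀ m ∈ Ioc a b, ((|m| : ℤ) : ℝ) ≤ S * L ^ (2 * C + 2) := by
  obtain ⟨H, hHd⟩ : ∃ H : ℝ, H = (b : ℝ) - a := ⟨_, rfl⟩
  rw [← hHd] at hH hv ⊢
  have hnP0 : (0 : ℝ) ≤ nP := Nat.cast_nonneg _
  have hH4 : 4 ≤ H := by linarith
  have hH0 : 0 < H := by linarith
  have h16 : (16 : ℝ) ≤ 4 ^ (k + 2) := by
    calc (16 : ℝ) = 4 ^ 2 := by norm_num
      _ ≤ 4 ^ (k + 2) := pow_le_pow_right₀ (by norm_num) (by omega)
  have hL1 : 1 ≤ L := by linarith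
  have hL0 : 0 < L := by linarith
  have hLp0 : ∀ n : ℕ, 0 < L ^ n := fun n => by positivity
  have hLp : ∀ n : ℕ, 1 ≤ L ^ n := fun n => one_le_pow₀ hL1
  have hS0 : 0 < S := by linarith
  have hSk0 : 0 < S ^ k := by positivity
  have htr : |(t : ℝ)| ≤ S ^ (k + 1) := by
    rw [hS]
    exact_mod_cast ht
  -- the general bound
  have hgen : ∀ m ∈ Ioc a b, (nP : ℤ) ≤ |m| → (((|m| : ℤ) : ℝ)) ^ (k + 1) ≤ 2 * (H * (S ^ k * L ^ C) + S ^ (k + 1)) := by
    intro m hm hnm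
    have h1 := hgr m hnm
    have h1r : (((|m| : ℤ) : ℝ)) ^ (k + 1) ≤ 2 * ((|F.eval m| : ℤ) : ℝ) := by exact_mod_cast h1
    obtain ⟨h2, h3⟩ := hv m hm
    have h4 : ((|F.eval m| : ℤ) : ℝ) ≤ ((F.eval m + t : ℤ) : ℝ) + |(t : ℝ)| := by
      have h5 : |F.eval m| ≤ (F.eval m + t) + |t| := by
        have h6 := abs_sub (F.eval m + t) t
        rw [add_sub_cancel_right, abs_of_nonneg (show 0 ≤ F.eval m + t by omega)] at h6
        exact h6
      have h7 : ((|F.eval m| : ℤ) : ℝ) ≤ (((F.eval m + t) + |t| : ℤ) : ℝ) := by exact_mod_cast h5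
      push_cast at h7 ⊢
      exact h7
    linarith
  have hHle : H ≤ S * L ^ (C + 1) := by
    by_contra hcon
    push Not at hcon
    -- an element of large modulus
    have hab : a < b := by
      have : (0 : ℝ) < (b : ℝ) - a := by linarith
      have h2 : (a : ℝ) < b := by linarith
      exact_mod_cast h2
    obtain ⟨m, hm, hmH⟩ : ∃ m ∈ Ioc a b, H / 4 ≤ ((|m| : ℤ) : ℝ) := by
      by_cases hb : H / 4 ≤ ((|b| : ℤ) : ℝ)
      · exact ⟨b, mem_Ioc.2 ⟨hab, le_rfl⟩, hb⟩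
      · refine ⟨a + 1, mem_Ioc.2 ⟨by omega, by omega⟩, ?_⟩
        push Not at hb
        push_cast at hb ⊢
        have h1 : |(b : ℝ)| < H / 4 := hb
        have h2 : (b : ℝ) ≤ |(b : ℝ)| := le_abs_self _
        have h3 : -((a : ℝ) + 1) ≤ |(a : ℝ) + 1| := neg_le_abs _
        linarith
    have hnm : (nP : ℤ) ≤ |m| := by
      have : (nP : ℝ) ≤ ((|m| : ℤ) : ℝ) := by linarith
      exact_mod_cast this
    have h1 := hgen m hm hnm
    have h2 : (H / 4) ^ (k + 1) ≤ (((|m| : ℤ) : ℝ)) ^ (k + 1) := pow_le_pow_left₀ (by positivity) hmH _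
    have h3 : S ^ k * L ^ (C + 1) ≤ H ^ k := by
      calc S ^ k * L ^ (C + 1) ≤ S ^ k * (L ^ (C + 1)) ^ k := by
            apply mul_le_mul_of_nonneg_left _ hSk0.le
            exact le_self_pow₀ (hLp _) (by omega)
        _ = (S * L ^ (C + 1)) ^ k := by rw [mul_pow]
        _ ≤ H ^ k := pow_le_pow_left₀ (by positivity) hcon.le k
    have h4 : L * (H * (S ^ k * L ^ C)) ≤ H ^ (k + 1) := by
      calc L * (H * (S ^ k * L ^ C)) = H * (S ^ k * L ^ (C + 1)) := by ring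
        _ ≤ H * H ^ k := by gcongr
        _ = H ^ (k + 1) := by ring
    have h5 : L * S ^ (k + 1) ≤ H ^ (k + 1) := by
      calc L * S ^ (k + 1) ≤ (L ^ (C + 1)) ^ (k + 1) * S ^ (k + 1) := by
            apply mul_le_mul_of_nonneg_right _ (by positivity)
            calc L ≤ L ^ (C + 1) := le_self_pow₀ hL1 (by omega)
              _ ≤ (L ^ (C + 1)) ^ (k + 1) := le_self_pow₀ (hLp _) (by omega)
        _ = (S * L ^ (C + 1)) ^ (k + 1) := by rw [mul_pow]; ring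
        _ ≤ H ^ (k + 1) := pow_le_pow_left₀ (by positivity) hcon.le _
    have h6 : L * (H / 4) ^ (k + 1) ≤ 4 * H ^ (k + 1) := by
      have h7 := mul_le_mul_of_nonneg_left (h2.trans h1) hL0.le
      have h8 : L * (2 * (H * (S ^ k * L ^ C) + S ^ (k + 1))) = 2 * (L * (H * (S ^ k * L ^ C)) + L * S ^ (k + 1)) := by ring
      linarith
    rw [div_pow, mul_div_assoc', div_le_iff₀ (by positivity)] at h6
    have h7 : 0 < H ^ (k + 1) := by positivity
    have h8 : 4 * H ^ (k + 1) * 4 ^ (k + 1) = 4 ^ (k + 2) * H ^ (k + 1) := by ring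
    rw [h8] at h6
    have h9 := le_of_mul_le_mul_right h6 h7
    linarith
  refine ⟨hHle, fun m hm => ?_⟩
  by_cases hnm : (nP : ℤ) ≤ |m|
  · have h1 := hgen m hm hnm
    have h2 : 2 * (H * (S ^ k * L ^ C) + S ^ (k + 1)) ≤ (S * L ^ (2 * C + 2)) ^ (k + 1) := by
      calc 2 * (H * (S ^ k * L ^ C) + S ^ (k + 1)) ≤ 2 * ((S * L ^ (C + 1)) * (S ^ k * L ^ C) + S ^ (k + 1) * L ^ (2 * C + 1)) := by
            gcongr
            exact le_mul_of_one_le_right (by positivity) (hLp _)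
        _ = 4 * (S ^ (k + 1) * L ^ (2 * C + 1)) := by ring
        _ ≤ L * (S ^ (k + 1) * L ^ (2 * C + 1)) := by gcongr; linarith
        _ = S ^ (k + 1) * L ^ (2 * C + 2) := by ring
        _ ≤ S ^ (k + 1) * (L ^ (2 * C + 2)) ^ (k + 1) := by
            gcongr
            exact le_self_pow₀ (hLp _) (by omega)
        _ = (S * L ^ (2 * C + 2)) ^ (k + 1) := by rw [mul_pow]
    have h3 := h1.trans h2
    exact (pow_le_pow_iff_left₀ (by positivity) (by positivity) (by omega)).1 h3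
  · push Not at hnm
    have h1 : ((|m| : ℤ) : ℝ) ≤ nP := by exact_mod_cast hnm.le
    calc ((|m| : ℤ) : ℝ) ≤ S := h1.trans hnS
      _ ≤ S * L ^ (2 * C + 2) := le_mul_of_one_le_right hS0.le (hLp _)

lemma part_pos (F : ℤ[X]) (φ : ℤ → ℝ) (a b : ℤ) (N0 : ℕ) (hN0 : 1 ≤ N0) :
    ∑ m ∈ (Ioc a b).filter (fun m => (N0 : ℤ) ≤ m), φ (F.eval m) =
      ∑ n ∈ Icc (max (a + 1) N0).toNat b.toNat, φ (F.eval (n : ℤ)) := by
  refine sum_nbij' (fun m => m.toNat) (fun n => (n : ℤ)) ?_ ?_ ?_ ?_ ?_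
  · intro m hm
    rw [mem_filter, mem_Ioc] at hm
    rw [mem_Icc]
    omega
  · intro n hn
    rw [mem_Icc] at hn
    rw [mem_filter, mem_Ioc]
    omega
  · intro m hm
    rw [mem_filter, mem_Ioc] at hm
    omega
  · intro n hn
    omega
  · intro m hm
    rw [mem_filter, mem_Ioc] at hm
    rw [Int.toNat_of_nonneg (by omega)]

lemma part_neg (F : ℤ[X]) (φ : ℤ → ℝ) (a b : ℤ) (N0 : ℕ) (hN0 : 1 ≤ N0) :
    ∑ m ∈ (Ioc a b).filter (fun m => m ≤ -(N0 : ℤ)), φ (F.eval m) =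
      ∑ n ∈ Icc (max (-b) N0).toNat (-a - 1).toNat, φ ((F.comp (-X)).eval (n : ℤ)) := by
  refine sum_nbij' (fun m => (-m).toNat) (fun n => -(n : ℤ)) ?_ ?_ ?_ ?_ ?_
  · intro m hm
    rw [mem_filter, mem_Ioc] at hm
    rw [mem_Icc]
    omega
  · intro n hn
    rw [mem_Icc] at hn
    rw [mem_filter, mem_Ioc]
    omega
  · intro m hm
    rw [mem_filter, mem_Ioc] at hm
    omega
  · intro n hn
    omega
  · intro m hm
    rw [mem_filter, mem_Ioc] at hm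
    rw [Int.toNat_of_nonneg (by omega), eval_comp, eval_neg, eval_X, neg_neg]

end Pool.Agent.TH204.WR
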